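import Pool.Agent.Lib.MP_651af7_nt.Nc.IDefs

/-! Irreducibility depends only on the ideal of the point. -/

namespace Pool.Agent.Lib.MP_651af7_nt.Nc

open MvPolynomial Filter Av As
open IntermediateField (adjoin)
open Jn (rr)

variable {K ι F F' : Type} [Field K] [Field F] [Field F'] [Algebra K F] [Algebra K F'] {e μ : ℕ}
  {ρ : Fin (e + 2) → MvPolynomial ι K} {w : ι → F} {w' : ι → F'}

open scoped IntermediateField.algebraAdjoinAdjoin in
/-- Points with the same ideal generate isomorphic fields. -/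
theorem exists_iso (h : ∀ f : MvPolynomial ι K, aeval w f = 0 ↔ aeval w' f = 0) :
    ∃ φ : adjoin K (Set.range w) ≃ₐ[K] adjoin K (Set.range w'), ∀ (f : MvPolynomial ι K)
      (z : adjoin K (Set.range w)), (z : F) = aeval w f → (φ z : F') = aeval w' f := by
  have hk : RingHom.ker (aeval w : MvPolynomial ι K →ₐ[K] F) =
      RingHom.ker (aeval w' : MvPolynomial ι K →ₐ[K] F') := Ideal.ext fun f => h f
  let ψ : Algebra.adjoin K (Set.range w) ≃ₐ[K] Algebra.adjoin K (Set.range w') :=
    ((Subalgebra.equivOfEq _ _ (Algebra.adjoin_range_eq_range_aeval K w)).trans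
      (Ideal.quotientKerEquivRange (aeval w : MvPolynomial ι K →ₐ[K] F)).symm).trans
      ((Ideal.quotientEquivAlgOfEq K hk).trans
        ((Ideal.quotientKerEquivRange (aeval w' : MvPolynomial ι K →ₐ[K] F')).trans
          (Subalgebra.equivOfEq _ _ (Algebra.adjoin_range_eq_range_aeval K w').symm)))
  refine ⟨IsFractionRing.algEquivOfAlgEquiv ψ, fun f z hz => ?_⟩
  have hm : aeval w f ∈ Algebra.adjoin K (Set.range w) := by
    rw [Algebra.adjoin_range_eq_range_aeval]
    exact ⟨f, rfl⟩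
  have h1 : z = algebraMap (Algebra.adjoin K (Set.range w)) _ ⟨_, hm⟩ := Subtype.ext hz
  have h2 : (Ideal.quotientKerEquivRange (aeval w : MvPolynomial ι K →ₐ[K] F)).symm
      (Subalgebra.equivOfEq _ _ (Algebra.adjoin_range_eq_range_aeval K w) ⟨_, hm⟩) =
      Ideal.Quotient.mk _ f := (AlgEquiv.symm_apply_eq _).2 rfl
  rw [h1, IsFractionRing.algEquivOfAlgEquiv_algebraMap]
  simp only [ψ, AlgEquiv.trans_apply, h2]
  rfl

theorem iso_coeff (ρ : Fin (e + 2) → MvPolynomial ι K) (w : ι → F) (w' : ι → F') (i : ℕ) :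
    ∃ f : MvPolynomial ι K, (rr ρ w).coeff i = aeval w f ∧ (rr ρ w').coeff i = aeval w' f := by
  by_cases hi : i < e + 2
  · exact ⟨ρ ⟨i, hi⟩, Jn.rr_coeff ρ w ⟨i, hi⟩, Jn.rr_coeff ρ w' ⟨i, hi⟩⟩
  · refine ⟨0, ?_, ?_⟩ <;> rw [map_zero] <;>
      exact Polynomial.coeff_eq_zero_of_natDegree_lt ((Jn.one_deg ρ _).trans_lt (by omega))

theorem Irp.iso (h : ∀ f : MvPolynomial ι K, aeval w f = 0 ↔ aeval w' f = 0) (hw : Irp ρ w) :
    Irp ρ w' := by
  obtain ⟨φ, hφ⟩ := exists_iso h
  obtain ⟨r, hr, -⟩ := Sh.exists_lift_rr ρ w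
  intro p hp
  have h1 : p = Polynomial.mapEquiv φ.toRingEquiv r := by
    ext i
    obtain ⟨f, h2, h3⟩ := iso_coeff ρ w w' i
    rw [← hr, Polynomial.coeff_map] at h2
    rw [← hp, Polynomial.coeff_map] at h3
    rw [Polynomial.mapEquiv_apply, Polynomial.coeff_map]
    exact h3.trans (hφ f _ h2).symm
  rw [h1]
  exact (MulEquiv.irreducible_iff (Polynomial.mapEquiv φ.toRingEquiv)).2 (hw r hr)

theorem iso_deg {p : Polynomial (adjoin K (Set.range w))}
    (hp : p.map (algebraMap _ F) = rr ρ w) (hl : aeval w (ρ (Fin.last _)) ≠ 0) :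
    p.natDegree = e + 1 := by
  rw [← Polynomial.natDegree_map (algebraMap _ F), hp]
  refine le_antisymm (Jn.one_deg ρ w) (Polynomial.le_natDegree_of_ne_zero ?_)
  rwa [← Fin.val_last (e + 1), Jn.rr_coeff]

theorem iso_root {p : Polynomial (adjoin K (Set.range w))}
    (hp : p.map (algebraMap _ F) = rr ρ w) (t : F) :
    Polynomial.aeval t p = ∑ j, aeval w (ρ j) * t ^ (j : ℕ) := by
  rw [Polynomial.aeval_def, ← Polynomial.eval_map, hp, Sh.rr_eval]

/-- An irreducible equation is minimal. -/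
theorem Irp.min (hw : Irp ρ w) (hl : aeval w (ρ (Fin.last _)) ≠ 0) : Sh.Min ρ w := by
  intro t ht τ d _ hz j
  obtain ⟨r, hr, -⟩ := Sh.exists_lift_rr ρ w
  obtain ⟨q, hq, hd⟩ := Sh.exists_lift_rr (Fin.snoc τ 0 : Fin (e + 2) → MvPolynomial ι K) w
  have r0 : Polynomial.aeval t r = 0 := (iso_root hr t).trans ht
  have q0 : Polynomial.aeval t q = 0 := by
    rw [iso_root hq t, Fin.sum_univ_castSucc]
    simpa using hz
  have h1 : q = 0 := by
    by_contra hne
    by_cases hdv : r ∣ q
    · have h2 := Polynomial.natDegree_le_of_dvd hdv hne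
      rw [iso_deg hr hl] at h2
      have h3 := Jn.rr_coeff (Fin.snoc τ 0 : Fin (e + 2) → MvPolynomial ι K) w (Fin.last _)
      rw [← hq, Polynomial.coeff_map, Fin.snoc_last, map_zero, Fin.val_last, map_eq_zero,
        ← le_antisymm hd h2] at h3
      exact hne (Polynomial.leadingCoeff_eq_zero.1 h3)
    · obtain ⟨a, b, hab⟩ := (hw r hr).coprime_iff_not_dvd.2 hdv
      have h2 := congrArg (Polynomial.aeval t) hab
      rw [map_add, map_mul, map_mul, r0, q0, map_one, mul_zero, mul_zero, add_zero] at h2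
      exact zero_ne_one h2
  have h2 := Jn.rr_coeff (Fin.snoc τ 0 : Fin (e + 2) → MvPolynomial ι K) w j.castSucc
  rw [← hq, h1, Polynomial.map_zero, Polynomial.coeff_zero, Fin.snoc_castSucc] at h2
  exact h2.symm

/-- Over an algebraically closed field a minimal equation is irreducible. -/
theorem irp_of_min [IsAlgClosed F] (h1 : ∃ a, w a = 1) (hl : aeval w (ρ (Fin.last _)) ≠ 0)
    (hw : Sh.Min ρ w) : Irp ρ w := by
  intro p hp
  have hd := iso_deg hp hl
  refine ⟨fun h => ?_, fun a b hab => ?_⟩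
  · have := Polynomial.natDegree_eq_zero_of_isUnit h
    omega
  have hp0 : p ≠ 0 := fun h => by simp [h] at hd
  have ha : a ≠ 0 := fun h => hp0 (by rw [hab, h, zero_mul])
  have hb : b ≠ 0 := fun h => hp0 (by rw [hab, h, mul_zero])
  by_contra hc
  rw [not_or] at hc
  have da := Polynomial.degree_pos_of_ne_zero_of_nonunit ha hc.1
  have db := Polynomial.natDegree_pos_iff_degree_pos.2
    (Polynomial.degree_pos_of_ne_zero_of_nonunit hb hc.2)
  obtain ⟨t, ht⟩ := IsAlgClosed.exists_aeval_eq_zero F a da.ne'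
  rw [hab, Polynomial.natDegree_mul ha hb] at hd
  refine ha (Sh.div_deg h1 (hw t ?_) a
    (Polynomial.degree_le_natDegree.trans_lt (by exact_mod_cast (by omega))) ht)
  rw [← iso_root hp t, hab, map_mul, ht, zero_mul]

theorem min_smul (hρ : ∀ j, (ρ j).IsHomogeneous μ) {c : F} (hc : c ≠ 0) (hw : Sh.Min ρ w) :
    Sh.Min ρ fun a => c * w a := by
  intro t ht τ d hτ hz j
  simp only [fun j => aeval_mul_of_hom (hρ j) c w, mul_assoc, ← Finset.mul_sum] at ht
  simp only [fun j => aeval_mul_of_hom (hτ j) c w, mul_assoc, ← Finset.mul_sum] at hz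
  exact (hom_smul_iff (hτ j) hc w).2 (hw t ((mul_eq_zero.1 ht).resolve_left (pow_ne_zero _ hc))
    τ d hτ ((mul_eq_zero.1 hz).resolve_left (pow_ne_zero _ hc)) j)

variable {k α : Type} [Field k] [Finite ι] {U : Ultrafilter α} {B : AV k ι} [Algebra k K]
  [Algebra K (Up U k)] [IsScalarTower k K (Up U k)] [Algebra k F] [Algebra K (Up U F)]

omit [Algebra K F] in
/-- A generic point of `B` over `k` is, as a constant of the ultrapower, generic over `K`. -/
theorem gen_up
    (hc : ∀ c, algebraMap K (Up U F) c = upMap U (algebraMap k F) (algebraMap K (Up U k) c))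
    {v : α → ι → k} {a₁ : ι} (hv : ∀ᶠ n in U, v n a₁ = 1 ∧ ∀ f ∈ B.I, eval (v n) f = 0)
    (hg : Gen (B.IK K) (gv U v)) {b : ι → F} (hb : b a₁ = 1) (hz : ∀ f ∈ B.I, aeval b f = 0)
    (hb' : Gen B.I b) (f : MvPolynomial ι K) :
    aeval (gv U v) f = 0 ↔ aeval (fun a => algebraMap F (Up U F) (b a)) f = 0 := by
  obtain ⟨g, n, hn, hf⟩ := exists_homogenise f a₁
  rw [← hf _ (gv U v) ((germ_eq U).2 (hv.mono fun _ h => h.1)),
    ← hf _ (fun a => algebraMap F (Up U F) (b a)) (by simp only [hb, map_one])]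
  obtain ⟨p, hp, hs⟩ := exists_repr' (U := U) (MvPolynomial.map (algebraMap K (Up U k)) g)
  have hp' : Repr U (MvPolynomial.map (algebraMap K (Up U F)) g)
      fun m => MvPolynomial.map (algebraMap k F) (p m) := by
    refine ⟨hp.1.imp fun s h m => (support_map_subset _ _).trans (h m), fun ν => ?_⟩
    have h1 := hp.2 ν
    rw [coeff_map] at h1
    simp only [coeff_map, hc, h1, upMap_germ]
  have e1 : aeval (gv U v) g = germ U fun m => eval (v m) (p m) := by
    rw [← aeval_map_algebraMap (Up U k)]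
    exact hp.aeval v
  have e2 : aeval (fun a => algebraMap F (Up U F) (b a)) g = germ U fun m => aeval b (p m) := by
    rw [← aeval_map_algebraMap (Up U F)]
    refine (hp'.aeval fun _ => b).trans (congrArg _ (funext fun m => ?_))
    rw [eval_map, aeval_def]
  constructor
  · intro h
    have h1 : MvPolynomial.map (algebraMap K (Up U k)) g ∈
        B.I.map (MvPolynomial.map (algebraMap k (Up U k))) := by
      have h2 := Ideal.mem_map_of_mem (MvPolynomial.map (algebraMap K (Up U k))) (hg g n hn h)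
      rw [AV.IK, Ideal.map_map] at h2
      have h3 : (MvPolynomial.map (σ := ι) (algebraMap K (Up U k))).comp
          (MvPolynomial.map (algebraMap k K)) = MvPolynomial.map (algebraMap k (Up U k)) :=
        RingHom.ext fun q => by
          rw [RingHom.comp_apply, MvPolynomial.map_map, ← IsScalarTower.algebraMap_eq]
      rwa [h3] at h2
    rw [e2, germ_eq_zero]
    exact (hp.mem_ideal h1).mono fun m hm => hz _ hm
  · intro h
    rw [e2, germ_eq_zero] at h
    rw [e1, germ_eq_zero]
    filter_upwards [h, hv] with m h1 h2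
    refine h2.2 _ (hb' _ n (fun ν hν => hn ?_) h1)
    exact mem_support_iff.1 (support_map_subset _ _ (hs m (mem_support_iff.2 hν)))

end Pool.Agent.Lib.MP_651af7_nt.Nc
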