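import Pool.Agent.Lib.MP_651af7_nt.As.RedG

/-! A basis of small height of a subspace. -/

namespace Pool.Agent.Lib.MP_651af7_nt.Nc

open Finset Height NumberField Matrix
open Es (vol Tame IntV mn)
open Rt (Pl av mu)

section alg

variable {F : Type} [Field F] {n r : ℕ}

/-- Forms of size at most one adapted to the largest minor. -/
theorem bv_forms (v : AbsoluteValue F ℝ) {B : Matrix (Fin n) (Fin r) F} (hB : mn B ≠ 0) :
    ∃ (e : Fin r → Fin n) (N : Matrix (Fin n) (Fin n) F), Function.Injective e ∧ N.det = 1 ∧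
      (∀ l l', v (N l l') ≤ 1) ∧ (∀ l, l ∉ Set.range e → N l ᵥ* B = 0) ∧
      ∀ j, N (e j) ᵥ* B = B (e j) := by
  classical
  obtain ⟨f₀, hf₀⟩ := Function.ne_iff.1 hB
  have : Nonempty (Fin r → Fin n) := ⟨f₀⟩
  obtain ⟨e, he⟩ := Finite.exists_max fun f => v (mn B f)
  have h0 : mn B e ≠ 0 := v.pos_iff.1 ((v.pos hf₀).trans_le (he f₀))
  have hi := Es.mn_inj h0
  have hu : IsUnit (B.submatrix e id).det := isUnit_iff_ne_zero.2 h0
  set G := B.submatrix e id with hG
  let E : Matrix (Fin n) (Fin r) F := of fun l j => if l = e j then 1 else 0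
  have hE : ∀ M : Matrix (Fin n) (Fin r) F, Eᵀ * M = M.submatrix e id := fun M => by
    ext j i
    simp [E, mul_apply]
  have hEE : E.submatrix e id = 1 := by
    ext j i
    simp [E, one_apply, hi.eq_iff]
  have hP : (B * G⁻¹).submatrix e id = 1 := by
    rw [← hE, ← Matrix.mul_assoc, hE, mul_nonsing_inv _ hu]
  have hPG : B * G⁻¹ * G = B := by rw [Matrix.mul_assoc, nonsing_inv_mul _ hu, Matrix.mul_one]
  have hNB : (1 - (B * G⁻¹ - E) * Eᵀ) * B = E * G := by
    rw [Matrix.sub_mul, Matrix.one_mul, Matrix.mul_assoc, hE, ← hG, Matrix.sub_mul, hPG,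
      sub_sub_cancel]
  have hle : ∀ l j, v ((B * G⁻¹) l j) ≤ 1 := fun l j => by
    have h1 : B l = ∑ i, (B * G⁻¹) l i • G i := by
      funext c
      have h2 := congrFun (congrFun hPG l) c
      rw [mul_apply] at h2
      simpa [Finset.sum_apply] using h2.symm
    have h2 : mn B (Function.update e j l) = (B * G⁻¹) l j * mn B e := by
      have h3 : B.submatrix (Function.update e j l) id = G.updateRow j (B l) := by
        ext a c
        by_cases ha : a = j <;> simp [updateRow_apply, ha, hG]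
      simp only [mn]
      rw [h3, h1, det_updateRow_sum, smul_eq_mul]
    have h3 := he (Function.update e j l)
    rw [h2, map_mul] at h3
    exact (mul_le_iff_le_one_left (v.pos h0)).1 h3
  refine ⟨e, 1 - (B * G⁻¹ - E) * Eᵀ, hi, ?_, fun l l' => ?_, fun l hl => ?_, fun j => ?_⟩
  · rw [det_one_sub_mul_comm, Matrix.mul_sub, hE, hE, hP, hEE, sub_self, sub_zero, det_one]
  · by_cases hl' : l' ∈ Set.range e
    · obtain ⟨j, rfl⟩ := hl'
      have h1 : ((B * G⁻¹ - E) * Eᵀ) l (e j) = (B * G⁻¹) l j - E l j := by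
        simp [E, mul_apply (N := Eᵀ), hi.eq_iff]
      rw [Matrix.sub_apply, h1]
      by_cases hl : l = e j
      · have h2 : (B * G⁻¹) (e j) j = 1 := by simpa using congrFun (congrFun hP j) j
        subst hl
        simp [E, h2]
      · simpa [E, hl] using hle l j
    · have h1 : ((B * G⁻¹ - E) * Eᵀ) l l' = 0 := by
        rw [mul_apply]
        refine sum_eq_zero fun j _ => ?_
        have : l' ≠ e j := fun h => hl' ⟨j, h.symm⟩
        simp [E, this]
      rw [Matrix.sub_apply, h1, sub_zero, one_apply]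
      split_ifs <;> simp
  · refine (congrFun hNB l).trans ?_
    funext c
    rw [mul_apply]
    refine sum_eq_zero fun j _ => ?_
    have : l ≠ e j := fun h => hl ⟨j, h.symm⟩
    simp [E, this]
  · refine (congrFun hNB (e j)).trans ?_
    funext c
    simp [E, mul_apply, hi.eq_iff, hG]

/-- The determinant of a matrix whose first rows lie in the column space of `B`. -/
theorem bv_blk (v : AbsoluteValue F ℝ) {s : ℕ} {B : Matrix (Fin (r + s)) (Fin r) F}
    {e : Fin r → Fin (r + s)} {N : Matrix (Fin (r + s)) (Fin (r + s)) F}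
    (he : Function.Injective e) (hN : N.det = 1) (h0 : ∀ l, l ∉ Set.range e → N l ᵥ* B = 0)
    (h1 : ∀ j, N (e j) ᵥ* B = B (e j)) {X : Matrix (Fin (r + s)) (Fin (r + s)) F}
    {T : Matrix (Fin r) (Fin r) F} (hX : ∀ i, X (Fin.castAdd s i) = B *ᵥ T i) :
    ∃ g : Fin s → Fin (r + s), (∀ l, g l ∉ Set.range e) ∧ v X.det = v T.det * v (mn B e) *
      v (of fun i l => (N *ᵥ X (Fin.natAdd r i)) (g l)).det := by
  obtain ⟨τ, hτ⟩ := Equiv.Perm.exists_extending_pair _ _ (Fin.castAdd_injective r s) he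
  have hg : ∀ l, τ (Fin.natAdd r l) ∉ Set.range e := by
    rintro l ⟨j, hj⟩
    have h2 := congrArg Fin.val (τ.injective ((hτ j).trans hj))
    simp only [Fin.val_castAdd, Fin.val_natAdd] at h2
    omega
  have hY : ∀ i l, (X * Nᵀ) i l = (N *ᵥ X i) l := fun i l => by
    simp only [mul_apply, transpose_apply, mulVec, dotProduct]
    exact sum_congr rfl fun _ _ => mul_comm _ _
  have hZ : ((X * Nᵀ).submatrix id τ).submatrix finSumFinEquiv finSumFinEquiv =
      fromBlocks (T * (B.submatrix e id)ᵀ) 0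
        (of fun i j => (N *ᵥ X (Fin.natAdd r i)) (e j))
        (of fun i l => (N *ᵥ X (Fin.natAdd r i)) (τ (Fin.natAdd r l))) := by
    have h2 : ∀ i l, (N *ᵥ X (Fin.castAdd s i)) l = (N l ᵥ* B) ⬝ᵥ T i := fun i l => by
      rw [hX, ← dotProduct_mulVec]
      rfl
    ext (i | i) (l | l)
    · simp only [submatrix_apply, id, finSumFinEquiv_apply_left, hτ, hY, h2, h1, fromBlocks_apply₁₁,
        mul_apply, transpose_apply, dotProduct]
      exact sum_congr rfl fun _ _ => mul_comm _ _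
    · simp only [submatrix_apply, id, finSumFinEquiv_apply_left, finSumFinEquiv_apply_right, hY, h2,
        h0 _ (hg l), fromBlocks_apply₁₂, zero_dotProduct, Matrix.zero_apply]
    · simp only [submatrix_apply, id, finSumFinEquiv_apply_left, finSumFinEquiv_apply_right, hτ, hY,
        fromBlocks_apply₂₁, of_apply]
    · simp only [submatrix_apply, id, finSumFinEquiv_apply_right, hY, fromBlocks_apply₂₂, of_apply]
  have h3 := congrArg (fun M => v (det M)) hZ
  simp only [det_submatrix_equiv_self, det_permute', det_fromBlocks_zero₁₂, det_mul, det_transpose,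
    hN, map_mul, mul_one] at h3
  refine ⟨_, hg, Eq.trans ?_ h3⟩
  rcases Int.units_eq_one_or (Equiv.Perm.sign τ) with h | h <;> simp [h]

theorem bv_na {v : AbsoluteValue F ℝ} (hv : IsNonarchimedean v) {M : Matrix (Fin n) (Fin n) F}
    (h : ∀ i j, v (M i j) ≤ 1) : v M.det ≤ 1 := by
  rw [det_apply]
  refine Finset.sum_induction _ (fun a => v a ≤ 1)
    (fun a b ha hb => (hv a b).trans (max_le ha hb)) (by simp) fun σ _ => ?_
  have h1 : v (∏ i, M (σ i) i) ≤ 1 := by
    rw [map_prod]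
    exact prod_le_one (fun _ _ => v.nonneg _) fun _ _ => h _ _
  rcases Int.units_eq_one_or (Equiv.Perm.sign σ) with h2 | h2 <;> simpa [h2] using h1

end alg

variable {K : Type} [Field K] [NumberField K]

/-- A basis of the column space whose heights add up to the height of the space. -/
theorem bv_basis (n r : ℕ) : ∃ C : ℝ, ∀ B : Matrix (Fin n) (Fin r) K, mn B ≠ 0 →
    ∃ T : Matrix (Fin r) (Fin r) K, T.det ≠ 0 ∧ (∀ i, B *ᵥ T i ≠ 0) ∧
      ∑ i, logHeight (B *ᵥ T i) ≤ logHeight (mn B) + C := by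
  classical
  rcases lt_or_ge n r with hr | hr
  · refine ⟨0, fun B hB => ?_⟩
    obtain ⟨f, hf⟩ := Function.ne_iff.1 hB
    exact absurd (by simpa using Fintype.card_le_of_injective f (Es.mn_inj hf)) hr.not_ge
  obtain ⟨s, rfl⟩ := Nat.exists_eq_add_of_le hr
  obtain ⟨o⟩ : Nonempty (InfinitePlace K) := inferInstance
  obtain ⟨C, hC, hmin⟩ := Es.exists_minimaK (∅ : Finset (FinitePlace K)) (r + s) o
  obtain ⟨C₃, hC₃, hinv⟩ := Es.inv_le (K := K) (Fin (r + s))
  obtain ⟨C₆, hC₆, hout⟩ := Es.out_U (∅ : Finset (FinitePlace K)) (r + s) (Sum.inl o)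
  obtain ⟨w, hw⟩ : ∃ w : ℝ, w = ∑ p : Pl (∅ : Finset (FinitePlace K)), (mu p : ℝ) := ⟨_, rfl⟩
  have hw0 : 0 ≤ w := hw ▸ sum_nonneg fun _ _ => Nat.cast_nonneg _
  obtain ⟨L, hL⟩ : ∃ L : ℝ, L = Real.log C := ⟨_, rfl⟩
  have hL0 : 0 ≤ L := hL ▸ Real.log_nonneg hC
  have hC0 : 0 < C := by linarith
  have hCL : C = Real.exp L := by rw [hL, Real.exp_log hC0]
  refine ⟨r * (w * (C₃ + L)) + C + w * (Real.log s.factorial + s * L), fun B hB => ?_⟩
  set O : Pl (∅ : Finset (FinitePlace K)) := Sum.inl o with hO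
  choose e N he hN1 hN2 hN3 hN4 using fun v : AbsoluteValue K ℝ => bv_forms v hB
  have hT : ∀ p : Pl (∅ : Finset (FinitePlace K)), Tame (av p) 0 (N (av p)) := fun p =>
    ⟨fun i j => by simpa using hN2 _ i j, by simp [hN1]⟩
  obtain ⟨h, hh0, hh⟩ : ∃ h : ℝ, 0 ≤ h ∧ ∀ l j, logHeight₁ (N (av O) l j) ≤ h :=
    ⟨∑ l, ∑ j, logHeight₁ (N (av O) l j),
      sum_nonneg fun _ _ => sum_nonneg fun _ _ => zero_le_logHeight₁ _, fun l j =>
      (single_le_sum (f := fun j => logHeight₁ (N (av O) l j)) (fun _ _ => zero_le_logHeight₁ _)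
        (mem_univ j)).trans (single_le_sum (f := fun l => ∑ j, logHeight₁ (N (av O) l j))
          (fun _ _ => sum_nonneg fun _ _ => zero_le_logHeight₁ _) (mem_univ l))⟩
  obtain ⟨g₁, hg₁⟩ : ∃ g : ℝ, g = w * (C₃ + L) := ⟨_, rfl⟩
  have hg₁0 : 0 ≤ g₁ := by rw [hg₁]; positivity
  obtain ⟨g₃, hg₃⟩ : ∃ g : ℝ, g = C₆ * (1 + 0 + h + L) + L := ⟨_, rfl⟩
  have hg₃0 : 0 ≤ g₃ := by rw [hg₃]; positivity
  obtain ⟨m, hm⟩ := exists_nat_gt (((r + s : ℕ) * g₃ + (r + s : ℕ) * g₁ + C) / Real.log 2)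
  rw [div_lt_iff₀ (Real.log_pos one_lt_two)] at hm
  obtain ⟨ρ, hρ⟩ : ∃ ρ : ℝ, ρ = m * Real.log 2 := ⟨_, rfl⟩
  rw [← hρ] at hm
  have hρ0 : 0 ≤ ρ := le_trans (by positivity) hm.le
  obtain ⟨a, ha⟩ : ∃ a : Pl (∅ : Finset (FinitePlace K)) → Fin (r + s) → K, a = fun p l =>
    if l ∈ Set.range (e (av p)) then 1 else if p = O then ((2 : K)⁻¹) ^ m else 1 := ⟨_, rfl⟩
  set A : Pl (∅ : Finset (FinitePlace K)) → Fin (r + s) → ℝ := fun p l => av p (a p l) with hAdef
  have hAin : ∀ p l, l ∈ Set.range (e (av p)) → A p l = 1 := fun p l hl => by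
    simp only [hAdef, ha]
    rw [if_pos hl, map_one]
  have hAout : ∀ p l, l ∉ Set.range (e (av p)) → A p l = Real.exp (if p = O then -ρ else 0) :=
    fun p l hl => by
      simp only [hAdef, ha]
      rw [if_neg hl]
      by_cases hp : p = O
      · subst hp
        rw [if_pos rfl, if_pos rfl, hρ]
        exact Es.URed_half ∅ o m
      · rw [if_neg hp, if_neg hp, map_one, Real.exp_zero]
  have hA : ∀ p l, 0 < A p l ∧ A p l ≤ 1 := fun p l => by
    by_cases hl : l ∈ Set.range (e (av p))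
    · rw [hAin p l hl]
      exact ⟨one_pos, le_rfl⟩
    · rw [hAout p l hl]
      refine ⟨Real.exp_pos _, Real.exp_le_one_iff.2 ?_⟩
      split_ifs <;> linarith
  obtain ⟨X, lam, π, H, hup⟩ := hmin (fun p => N (av p)) a 0 le_rfl hT
    (fun p l => (av p).pos_iff.1 (hA p l).1) fun v _ => absurd v.2 (Finset.notMem_empty _)
  change Es.Minima O (fun p => N (av p)) A C X lam π at H
  change mu O * ∑ i, Real.log (lam i) + vol (fun p l => Real.log (A p l)) ≤ _ at hup
  have hvA : vol (fun p l => Real.log (A p l)) = -(mu O * (s * ρ)) := by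
    have h1 : ∀ p, ∑ l, Real.log (A p l) = s * (if p = O then -ρ else 0) := by
      intro p
      rw [Es.URed_sum (he (av p)) _ _ fun l hl => by rw [hAout p l hl, Real.log_exp]]
      simp [hAin p _ ⟨_, rfl⟩]
    simp only [vol, h1, mul_ite, mul_zero, sum_ite_eq', mem_univ, if_true]
    ring
  have hm1 : (1 : ℝ) ≤ mu O := by exact_mod_cast Rt.one_le_mu O
  let t : Fin (r + s) → Pl (∅ : Finset (FinitePlace K)) → ℝ := fun i p =>
    if p = O then Real.log (lam i) else 0
  have hb : ∀ p i l, av p ((N (av p) *ᵥ X i) l) ≤ Real.exp (L + t i p) * A p l := fun p i l => by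
    by_cases hp : p = O
    · subst hp
      have h6 := H.on i (π.symm l)
      rw [Equiv.apply_symm_apply] at h6
      simp only [t, if_true, Real.exp_add, Real.exp_log (H.pos i), ← hCL]
      rw [mul_right_comm]
      exact h6.trans (mul_le_mul_of_nonneg_left (min_le_left _ _) (mul_pos hC0 (hA _ _).1).le)
    · simp only [t, if_neg hp, add_zero, ← hCL]
      exact H.off p hp i l
  have hb' : ∀ p i l, av p ((N (av p) *ᵥ X i) l) ≤ Real.exp (L + t i p) := fun p i l =>
    (hb p i l).trans (mul_le_of_le_one_right (Real.exp_pos _).le (hA p l).2)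
  have hX0 : ∀ i, X i ≠ 0 := fun i e => H.det (det_eq_zero_of_row_eq_zero i (congrFun e))
  have hXh : ∀ i, logHeight (X i) ≤ g₁ + mu O * Real.log (lam i) := fun i => by
    have : Nonempty (Fin (r + s)) := ⟨i⟩
    have h1 := Es.gsum_le_S ∅ (Es.finS_sup (X i)) Vj.pf_finS_zero (fun p => C₃ + L + t i p)
      (fun p => ?_) fun v _ => ?_
    · rw [Es.gsum_sup (hX0 i), Vj.pf_gsum_zero, zero_add] at h1
      refine h1.trans (le_of_eq ?_)
      simp only [t, mul_add (mu _ : ℝ) (C₃ + L), sum_add_distrib, ← sum_mul, mul_ite, mul_zero,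
        sum_ite_eq', mem_univ, if_true, ← hw, hg₁]
    · rw [zero_add, Real.log_le_iff_le_exp (Es.sup_pos _ (hX0 i))]
      refine ciSup_le fun l => ?_
      simpa only [add_zero, mul_one, add_assoc] using
        hinv (av p) 0 _ (X i) _ le_rfl (hT p) (hb' p i) l
    · exact Real.log_nonpos (Es.sup_pos _ (hX0 i)).le
        (ciSup_le fun l => Es.fin_le_oneA v (H.int i l))
  have hlo : ∀ i, -g₁ ≤ Real.log (lam i) := fun i => by
    have h9 := Es.AMin_low O (D := g₁) (t := Real.log (lam i))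
      ((logHeight_nonneg (X i)).trans (hXh i))
    rwa [abs_of_nonneg hg₁0] at h9
  have hsum : ∑ i, Real.log (lam i) ≤ ((r + s : ℕ) - r : ℝ) * ρ + C := by
    have h6 : mu O * (∑ i, Real.log (lam i) - s * ρ) ≤ C := by
      rw [mul_sub]
      linarith
    push_cast
    by_contra hcon
    have h7 : 0 ≤ ∑ i, Real.log (lam i) - s * ρ := by linarith
    linarith [le_mul_of_one_le_left h7 hm1]
  have hin : ∀ i : Fin r, ∃ y, X (Fin.castAdd s i) = B *ᵥ y := fun i => by
    refine Es.mem_U (N := N (av O)) (by simp [hN1]) hB (he _) (hN3 _) fun l hl => ?_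
    by_contra hne
    have h1 := Es.few_big hr (fun i j hij => Real.log_le_log (H.pos i) (H.mono hij))
      hg₁0 hC0.le hg₃0 hlo hsum hm (Fin.castAdd s i) i.2
    have h2 := hout (fun p => N (av p)) 0 h L (X (Fin.castAdd s i)) l le_rfl hh0 hL0 hT (hh l)
      (H.int _) (fun p hp j => by simpa only [t, if_neg hp, add_zero] using hb' p _ j) hne
    have h3 := h2.trans (hb O _ l)
    rw [hAout O l hl, ← Real.exp_add, Real.exp_le_exp] at h3
    simp only [t, if_true] at h3
    linarith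
  choose T hT' using hin
  have hblk := fun v => bv_blk v (he v) (hN1 v) (hN3 v) (hN4 v) (T := of T) hT'
  have hTd : (of T).det ≠ 0 := fun h0 => by
    obtain ⟨g, -, h1⟩ := hblk (av O)
    rw [h0, map_zero, zero_mul, zero_mul] at h1
    exact ((av O).pos H.det).ne' h1
  have hloc : ∀ (v : AbsoluteValue K ℝ) (c : ℝ), (∀ g : Fin s → Fin (r + s),
      (∀ l, g l ∉ Set.range (e v)) →
      v (of fun i l => (N v *ᵥ X (Fin.natAdd r i)) (g l)).det ≤ Real.exp c) →
      Real.log (v X.det) ≤ Real.log (v (of T).det) + Real.log (⨆ f, v (mn B f)) + c := by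
    intro v c hc
    obtain ⟨g, hg, h1⟩ := hblk v
    rw [Real.log_le_iff_le_exp (v.pos H.det), Real.exp_add, Real.exp_add, Real.exp_log (v.pos hTd),
      Real.exp_log (Es.sup_pos v hB), h1]
    exact mul_le_mul (mul_le_mul_of_nonneg_left
      (le_ciSup (f := fun f => v (mn B f)) (Finite.bddAbove_range _) _) (v.nonneg _))
      (hc g hg) (v.nonneg _) (mul_pos (v.pos hTd) (Es.sup_pos v hB)).le
  have key := Es.gsum_le_S ∅ (Vj.finS_log X.det)
    ((Vj.finS_log (of T).det).add (Es.finS_sup (mn B)))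
    (fun p => Real.log s.factorial + s * L +
      if p = O then ∑ i, Real.log (lam (Fin.natAdd r i)) - s * ρ else 0)
    (fun p => hloc _ _ fun g hg => ?_) fun v _ => ?_
  · rw [Vj.gsum_log H.det, Vj.gsum_add (Vj.finS_log _) (Es.finS_sup _), Vj.gsum_log hTd,
      Es.gsum_sup hB] at key
    simp only [mul_add (mu _ : ℝ) (Real.log s.factorial + s * L), sum_add_distrib, ← sum_mul,
      mul_ite, mul_zero, sum_ite_eq', mem_univ, if_true, ← hw] at key
    refine ⟨of T, hTd, fun i => (hT' i).symm.trans_ne (hX0 _), ?_⟩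
    have h1 := sum_le_sum fun i (_ : i ∈ univ) => (hT' i ▸ hXh (Fin.castAdd s i))
    rw [sum_add_distrib, ← mul_sum, sum_const, card_univ, Fintype.card_fin, nsmul_eq_mul] at h1
    rw [Fin.sum_univ_add, hvA] at hup
    refine h1.trans ?_
    rw [← hg₁]
    linarith
  · refine (Es.av_det_le (av p) _ (fun i => Real.exp (L + t (Fin.natAdd r i) p))
      (fun _ => Real.exp (if p = O then -ρ else 0)) fun i l => ?_).trans (le_of_eq ?_)
    · rw [← hAout p _ (hg l)]
      exact hb p _ _
    · rw [← Real.exp_sum, ← Real.exp_sum, ← Real.exp_add, add_assoc, Real.exp_add (Real.log _),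
        Real.exp_log (by positivity), Fintype.card_fin]
      congr 2
      by_cases hp : p = O <;> simp [t, hp, sum_add_distrib]
      ring
  · refine (hloc _ 0 fun g _ => ?_).trans_eq (add_zero _)
    rw [Real.exp_zero]
    exact bv_na (Es.fin_naA v) fun i l => Es.fin_dot_le v zero_le_one (hN2 _ _) (H.int _)

/-- A gap after the first minimum forces a large height of the space. -/
theorem bv (n r : ℕ) : ∃ C : ℝ, ∀ (B : Matrix (Fin n) (Fin r) K) (z : Fin n → K) (c : ℝ),
    mn B ≠ 0 → 0 ≤ c → (∀ t, logHeight (B *ᵥ t) < logHeight z + c → ∃ a : K, B *ᵥ t = a • z) →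
    r * logHeight z + (r - 1 : ℝ) * c ≤ logHeight (mn B) + C := by
  classical
  obtain ⟨C, hC⟩ := bv_basis (K := K) n r
  refine ⟨C, fun B z c hB hc h => ?_⟩
  obtain ⟨T, hT, h0, h1⟩ := hC B hB
  refine le_trans ?_ h1
  by_cases hp : ∃ i, ∃ a : K, B *ᵥ T i = a • z
  · obtain ⟨i, a, ha⟩ := hp
    have ha0 : a ≠ 0 := fun e => h0 i (by rw [ha, e, zero_smul])
    have h2 : ∀ j, logHeight z + c - (if j = i then c else 0) ≤ logHeight (B *ᵥ T j) := fun j => by
      split_ifs with hj
      · rw [hj, ha, logHeight_smul_eq_logHeight _ ha0, add_sub_cancel_right]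
      · rw [sub_zero]
        by_contra hlt
        obtain ⟨b, hb⟩ := h _ (not_le.1 hlt)
        obtain ⟨f, hf⟩ := Function.ne_iff.1 hB
        have h3 : B *ᵥ (T j - (b / a) • T i) = 0 := by
          rw [mulVec_sub, mulVec_smul, ha, hb, smul_smul, div_mul_cancel₀ _ ha0, sub_self]
        have h4 : T j - (b / a) • T i = 0 :=
          eq_zero_of_mulVec_eq_zero (M := B.submatrix f id) hf (funext fun l => congrFun h3 (f l))
        exact As.redG_par hT hj (sub_eq_zero.1 h4) (one_smul _ _).symm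
    refine le_trans (le_of_eq ?_) (sum_le_sum fun j _ => h2 j)
    simp only [sum_sub_distrib, sum_const, card_univ, Fintype.card_fin, nsmul_eq_mul, sum_ite_eq',
      mem_univ, if_true]
    ring
  · have h2 := sum_le_sum fun j (_ : j ∈ univ) => not_lt.1 fun hlt => hp ⟨j, h (T j) hlt⟩
    rw [sum_const, card_univ, Fintype.card_fin, nsmul_eq_mul] at h2
    linarith

end Pool.Agent.Lib.MP_651af7_nt.Nc
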