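import Pool.Agent.Lib.MP_651af7_nt.Nc.IDefs
import Pool.Agent.Lib.MP_651af7_nt.Tb.Sub

/-! Vocabulary for the subspace inequality over covers of an abelian variety. -/

namespace Pool.Agent.Lib.MP_651af7_nt.Nc

open MvPolynomial Height Filter Matrix Av As
open IntermediateField (adjoin)

variable {k ι β : Type} [Field k]

/-- `M` consists of constants, or `θ` has degree more than `e` over `M`. -/
def Keep {α : Type} {U : Ultrafilter α} (M : Subfield (Up U k)) (θ : Up U k) (e : ℕ) : Prop :=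
  (∀ z ∈ M, z ∈ Set.range (algebraMap k (Up U k))) ∨
    ∀ c : Fin (e + 1) → Up U k, (∀ i, c i ∈ M) → ∑ i, c i * θ ^ (i : ℕ) = 0 → c = 0

/-- Independence of `t` over the algebraic elements of the fields over which `θ` keeps its
degree. -/
def HJ {r : ℕ} (𝓕 : Filter β) (x : β → ι → k) (θ : β → k) (e : ℕ) (t : β → Fin r → k) : Prop :=
  ∀ (α : Type) (U : Ultrafilter α) (j : α → β), Tendsto j U 𝓕 → ∀ M : Subfield (Up U k),
    (∀ c, algebraMap k (Up U k) c ∈ M) → (∀ a, gv U (fun m => x (j m)) a ∈ M) →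
    Keep M (germ U fun m => θ (j m)) e → ∀ w : Fin r → Up U k,
      (∀ l, w l ∈ Cl k (Set.range (gv U fun m => x (j m))) ∧ w l ∈ M) →
      w ⬝ᵥ (gv U fun m => t (j m)) = 0 → w = 0

/-- The gap vectors are not orthogonal to `t`. -/
def GT [NumberField k] [Fintype ι] (A : AV k ι) (a₀ : ι) {r : ℕ} (𝓕 : Filter β) (x : β → ι → k)
    (t : β → Fin r → k) : Prop :=
  ∀ (κ : Type) [Fintype κ] (Cs : Finset (κ → MvPolynomial ι k))
    (M : Matrix κ (Fin r) (MvPolynomial ι k)) (γ : ℝ), 0 < γ →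
    ∃ W ∈ 𝓕, ∃ Q : ℝ, ∀ b ∈ W, ∀ (q : ℝ) (z : κ → k), Q ≤ q → Aff A a₀ (x b) →
      logHeight (x b) ≤ q → Gap Cs (γ * q) (x b) z → z ᵥ* M.map (eval (x b)) ≠ 0 →
      (z ᵥ* M.map (eval (x b))) ⬝ᵥ t b ≠ 0

/-- The equation stays irreducible on the general coset of every infinite subgroup. -/
def Irr {Ω G : Type} [Field Ω] [AddCommGroup G] (J : Ideal (MvPolynomial ι Ω)) (co : G → ι → Ω)
    {N : ℕ} (ρ : Fin N → MvPolynomial ι Ω) : Prop :=
  ∀ B : AddSubgroup G, (B : Set G).Finite ∨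
    ∃ (Θ : MvPolynomial ι Ω) (d : ℕ), Θ.IsHomogeneous d ∧ Θ ∉ J ∧
      ∀ (q : Ideal (MvPolynomial ι Ω)) (c : G), q.IsPrime →
        (∀ P ∈ q, ∀ d, homogeneousComponent d P ∈ q) → J ≤ q → Θ ∉ q →
        (∀ p, (∀ P ∈ q, eval (co p) P = 0) ↔ p - c ∈ B) → Irreducible (Sh.fq ρ q)

end Pool.Agent.Lib.MP_651af7_nt.Nc
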