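import Pool.Agent.Lib.MP_651af7_nt.Nc.Defs
import Pool.Agent.Lib.MP_651af7_nt.Sh.ODic

/-! The condition on cosets passes to the model over a number field. -/

namespace Pool.Agent.Lib.MP_651af7_nt.Nc

open MvPolynomial Av Av.AV Bx Ds

section aux

variable {L Ω E σ τ : Type} [Field L] [Field Ω] [Field E]

theorem dsc_ev {R : Type} [CommRing R] [Algebra Ω R] (x : τ → R) (χ : σ → MvPolynomial τ Ω)
    (f : MvPolynomial σ Ω) : aeval x (aeval χ f) = aeval (fun a => aeval x (χ a)) f :=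
  DFunLike.congr_fun (comp_aeval χ (aeval x)) f

theorem dsc_prop {y z : σ → E} (hy : y ≠ 0) (h : ∀ a b, z a * y b = z b * y a) :
    ∃ t, ∀ a, z a = t * y a := by
  obtain ⟨b, hb⟩ := Function.ne_iff.1 hy
  exact ⟨z b / y b, fun a => by rw [div_mul_eq_mul_div, ← h, mul_div_cancel_right₀ _ hb]⟩

theorem dsc_spec [Algebra Ω E] {γ : σ → MvPolynomial τ Ω} {d : ℕ}
    (hγ : ∀ a, (γ a).IsHomogeneous d) {x : τ → E} {y : σ → E} {x₀ : τ → Ω} {y₀ : σ → Ω}
    (h : ∃ t, ∀ a, aeval x (γ a) = t * y a) (h₀ : ∃ c, ∀ a, eval x₀ (γ a) = c * y₀ a)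
    (h₁ : ∃ a, eval x₀ (γ a) ≠ 0) (hs : Spec Ω x x₀) : Spec Ω y y₀ := by
  intro f n hf h0
  obtain ⟨t, ht⟩ := h
  obtain ⟨c, hc⟩ := h₀
  obtain ⟨a, ha⟩ := h₁
  have h1 := hs _ _ (hf.aeval γ hγ) (by
    rw [dsc_ev, funext ht, aeval_mul_of_hom hf, h0, mul_zero])
  rw [dsc_ev, show (fun a => aeval x₀ (γ a)) = fun a => c * y₀ a from funext hc,
    aeval_mul_of_hom hf] at h1
  exact (mul_eq_zero.1 h1).resolve_left (pow_ne_zero _ (left_ne_zero_of_mul (hc a ▸ ha)))

variable [Algebra L Ω]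

theorem dsc_cf (l : Ω →ₗ[L] L) (χ : σ → MvPolynomial τ L) (f : MvPolynomial σ Ω) :
    cf l (aeval (fun a => map (algebraMap L Ω) (χ a)) f) = aeval χ (cf l f) := by
  have hC : ∀ {σ : Type} (c : Ω), cf l (C c : MvPolynomial σ Ω) = C (l c) := by
    intro σ c
    classical
    ext m
    simp only [coeff_cf, coeff_C]
    split_ifs <;> simp
  induction f using MvPolynomial.induction_on' with
  | monomial m c =>
    have e : monomial m c = C c * map (algebraMap L Ω) (monomial m 1) := by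
      simp [C_mul_monomial]
    have e' : aeval (fun a => map (algebraMap L Ω) (χ a)) (map (algebraMap L Ω) (monomial m 1)) =
        map (algebraMap L Ω) (aeval χ (monomial m (1 : L))) := (map_bind₁ _ χ _).symm
    rw [e, map_mul, e', cf_mul_map, aeval_C, algebraMap_eq, cf_mul_map, hC, hC, map_mul, aeval_C,
      algebraMap_eq]
  | add p q hp hq => rw [map_add, cf_add, cf_add, map_add, hp, hq]

theorem dsc_hom (l : Ω →ₗ[L] L) {f : MvPolynomial σ Ω} {n : ℕ} (hf : f.IsHomogeneous n) :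
    (cf l f).IsHomogeneous n := fun m hm => hf fun h => hm (by rw [coeff_cf, h, map_zero])

variable [Algebra L E] [Algebra Ω E] [IsScalarTower L Ω E] {A B : AV L σ}

/-- The field of a generic point of a coset is linearly disjoint from the constants. -/
theorem dsc_lin (h : Sub A B) {a : A.Pt L} {b : B.Pt E} {v : σ → E} (hb : Gen (B.IK Ω) b.co)
    (hv : Rep (h.inc E b + A.map (Algebra.ofId L E) a) v) {f : MvPolynomial σ Ω} {n : ℕ}
    (hf : f.IsHomogeneous n) (h0 : aeval v f = 0) (l : Ω →ₗ[L] L) : aeval v (cf l f) = 0 := by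
  obtain ⟨q, ⟨c, hc⟩, hq⟩ := (exists_ph_eq (h.rep_inc (rep_co b))
    ((rep_co a).map (Algebra.ofId L E)) hv).imp fun _ h => And.intro h.1.unit h.2
  have e : ∀ d, aeval b.co (A.ph d c (X : σ → MvPolynomial σ L) fun c => C (a.co c)) =
      q c * v d := fun d => by
    rw [← hq, map_ph]
    simp
  have h1 := (rep_co b).zero _ (cf_mem (hb _ _
    (hf.aeval _ fun d => (ph_hom (A := A) a.co d c).map (algebraMap L Ω)) (by
      rw [dsc_ev]
      simp only [aeval_map_algebraMap, e]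
      rw [aeval_mul_of_hom hf, h0, mul_zero])) l)
  rw [dsc_cf, dsc_ev] at h1
  simp only [e] at h1
  rw [aeval_mul_of_hom (dsc_hom l hf)] at h1
  exact (hc.pow _).mul_right_eq_zero.1 h1

/-- The specialisations over the constants of a generic point of a coset. -/
theorem dsc_cos (h : Sub A B) {a : A.Pt L} {b : B.Pt E} {v : σ → E} (hb : Gen B.I b.co)
    (hb' : Gen (B.IK Ω) b.co) (hv : Rep (h.inc E b + A.map (Algebra.ofId L E) a) v) {p : A.Pt Ω}
    {w : σ → Ω} (hp : Rep p w) :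
    Spec Ω v w ↔ p - A.map (Algebra.ofId L Ω) a ∈ (h.inc Ω).range := by
  rw [← Sh.idl_cos h hb hv hp, ← spec_iff_idl]
  refine ⟨fun hs f n hf h0 => ?_, fun hs f n hf h0 => ?_⟩
  · simpa only [aeval_map_algebraMap] using
      hs _ _ (hf.map (algebraMap L Ω)) (by rwa [aeval_map_algebraMap])
  · obtain ⟨T, -, hT⟩ := exists_sum_cf (Module.Basis.ofVectorSpace L Ω) f
    rw [hT, map_sum]
    refine Finset.sum_eq_zero fun i _ => ?_
    rw [map_mul, aeval_map_algebraMap, hs _ _ (dsc_hom _ hf) (dsc_lin h hb' hv hf h0 _), mul_zero]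

/-- A generic point stays generic over an algebraic extension. -/
theorem dsc_gen [Finite σ] [Algebra.IsAlgebraic L Ω] {w : σ → E} (h0 : w ≠ 0)
    (hw : ∀ f ∈ B.I, aeval w f = 0) (hb : Gen B.I w) : Gen (B.IK Ω) w := by
  rw [B.gen_iff h0 hw, td_eq_of_isAlgebraic (K := L), ← B.gen_iff h0 hw]
  intro f n hf h
  have h1 := Ideal.mem_map_of_mem (map (algebraMap L L)) (hb f n hf h)
  rwa [show map (algebraMap L L) f = f from map_id f] at h1

end aux

variable {k ι : Type} [Field k] [CharZero k] [Fintype ι] {e μ : ℕ}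

theorem dsc_gm {L Ω κ G : Type} [Field L] [Field Ω] [CharZero Ω] [IsAlgClosed Ω] [Algebra L Ω]
    [Algebra.IsAlgebraic L Ω] [Fintype κ] [AddCommGroup G] {J : Ideal (MvPolynomial ι Ω)}
    {co : G → ι → Ω} {co' : G → κ → Ω} {A : AV L κ} (h1 : Pts J co) (h2 : Pts (A.IK Ω) co')
    (m1 : Mor co co') (m2 : Mor co' co) (ε : G ≃+ A.Pt Ω) (hε : ∀ x, Rep (ε x) (co' x))
    {φ : κ → MvPolynomial ι L} {ψ : ι → MvPolynomial κ L}
    (i1 : Inv J (A.IK Ω) (fun a => map (algebraMap L Ω) (φ a)) fun a => map (algebraMap L Ω) (ψ a))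
    (i2 : Inv (A.IK Ω) J (fun a => map (algebraMap L Ω) (ψ a)) fun a => map (algebraMap L Ω) (φ a))
    (b3 : ∀ p, ∃ c, ∀ a, eval (co' p) (map (algebraMap L Ω) (ψ a)) = c * co p a)
    {ρ : Fin (e + 2) → MvPolynomial ι L} (hρ : ∀ j, (ρ j).IsHomogeneous μ)
    (hl : map (algebraMap L Ω) (ρ (Fin.last _)) ∉ J)
    (hG : Irr J co fun j => map (algebraMap L Ω) (ρ j)) : Sh.Gm A fun j => aeval ψ (ρ j) := by
  intro B h hB
  set α := fun a => map (algebraMap L Ω) (φ a) with hα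
  set β := fun a => map (algebraMap L Ω) (ψ a) with hβ
  obtain ⟨Θ, d, a1, a2, a3⟩ := (hG ((h.inc Ω).range.comap ε.toAddMonoidHom)).resolve_left
    (Set.infinite_of_injective_forall_mem
      (f := fun b : B.Pt L => ε.symm (h.inc Ω (B.map (Algebra.ofId L Ω) b)))
      (ε.symm.injective.comp (h.inc_injective.comp (map_injective (Algebra.ofId L Ω).injective)))
      fun b => ⟨_, (ε.apply_symm_apply _).symm⟩)
  obtain ⟨dα, hdα⟩ := i1.hom
  obtain ⟨dβ, hdβ⟩ := i2.hom
  obtain ⟨i, hi⟩ := i2.ne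
  obtain ⟨j, hj⟩ := h1.exists_X
  have hρ' := fun j => (hρ j).map (algebraMap L Ω)
  have hX := isHomogeneous_X Ω j
  obtain ⟨l, hl'⟩ : ∃ l : Ω →ₗ[L] L,
      cf l (aeval β (Θ * map (algebraMap L Ω) (ρ (Fin.last _)) * α i * X j)) ∉ A.I := by
    by_contra hc
    have h3 : _ ∈ A.IK Ω := mem_map_of_cf fun l => not_not.1 fun h => hc ⟨l, h⟩
    simp only [map_mul, h2.prime.mul_mem_iff_mem_or_mem, i1.pull h1.prime a1 a2,
      i1.pull h1.prime (hρ' _) hl, hi, i1.pull h1.prime hX hj, or_self] at h3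
  have hΘ := (((a1.mul (hρ' (Fin.last _))).mul (hdα i)).mul hX).aeval β hdβ
  refine ⟨_, _, dsc_hom l hΘ, hl', fun c F _ _ b v hb hv h0 => ?_⟩
  let E := AlgebraicClosure F
  let ϑ : Ω →ₐ[L] E := IsAlgClosed.lift
  let : Algebra Ω E := ϑ.toRingHom.toAlgebra
  have : IsScalarTower L Ω E := IsScalarTower.of_algebraMap_eq fun x => (ϑ.commutes x).symm
  let g : F →ₐ[L] E := IsScalarTower.toAlgHom L F E
  have hg : ∀ (x : κ → F) (f : MvPolynomial κ L), aeval (fun a => g (x a)) f = g (aeval x f) :=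
    aeval_hom g
  have hb1 : Gen B.I (B.map g b).co := fun f n hf h0 => hb f n hf (by
    obtain ⟨u, hu⟩ := (rep_co b).map g
    rw [← map_eq_zero_iff g g.injective, ← hg, funext hu, aeval_mul_of_hom hf, h0, mul_zero])
  have hb2 := dsc_gen (Ω := Ω) (rep_co _).ne_zero (rep_co _).zero hb1
  have hv1 : Rep (h.inc E (B.map g b) + A.map (Algebra.ofId L E) c) fun a => g (v a) := by
    have h3 := hv.map g
    rwa [map_add, AV.map_map, Subsingleton.elim (g.comp _) (Algebra.ofId L E), ← show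
      h.inc E (B.map g b) = A.map g (h.inc F b) from h.inc_map g b] at h3
  obtain ⟨x, hx⟩ : ∃ x, x = fun a => g (v a) := ⟨_, rfl⟩
  rw [← hx] at hv1
  have hz := A.tr_zero_IK (K := Ω) hv1.zero
  obtain ⟨w, hw⟩ : ∃ w, w = fun a => aeval x (β a) := ⟨_, rfl⟩
  have h3 : aeval w (Θ * map (algebraMap L Ω) (ρ (Fin.last _)) * α i * X j) ≠ 0 := fun h3 =>
    h0 (by
      rw [← map_eq_zero_iff g g.injective, ← hg, ← hx]
      exact dsc_lin h hb2 hv1 hΘ (by rw [dsc_ev, ← hw, h3]) l)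
  simp only [map_mul, mul_ne_zero_iff] at h3
  have hw0 : w ≠ 0 := fun h4 => h3.2 (by rw [h4, aeval_X, Pi.zero_apply])
  have hM := Sh.min_of_irr (a := μ) (l := 0) (ρ := fun j => map (algebraMap L Ω) (ρ j))
    (fun j => by simpa using hρ' j) hX h3.2 h3.1.1.2
    (a3 _ (ε.symm (A.map (Algebra.ofId L Ω) c)) (idl_prime Ω w) (idl_hom w)
      (fun f hf => mem_idl.2 fun n => hw ▸ i2.zero hz _ (h1.hom f hf n))
      (fun h4 => h3.1.1.1 ((mem_idl_hom a1).1 h4)) fun p => ?_)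
  · obtain ⟨s, hs, hs'⟩ := i2.pt hv1.ne_zero hz (i := i) (by rw [dsc_ev, ← hw]; exact h3.1.2)
    rw [← hw] at hs'
    intro t ht τ n hτ hr q
    have h4 : ∀ q, aeval w (aeval α (map (algebraMap L Ω) (τ q))) = s ^ n * g (aeval v (τ q)) :=
      fun q => by
        rw [dsc_ev, funext hs', aeval_map_algebraMap, aeval_mul_of_hom (hτ q), hx, hg]
    have h5 := hM (g t) ?_ (fun q => aeval α (map (algebraMap L Ω) (τ q))) _
      (fun q => ((hτ q).map _).aeval α hdα) ?_ q
    · rw [h4] at h5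
      exact (map_eq_zero_iff g g.injective).1 ((mul_eq_zero.1 h5).resolve_left (pow_ne_zero _ hs))
    · have h6 := congrArg g ht
      simp only [map_sum, map_mul, map_pow, map_zero, dsc_ev, ← aeval_hom g] at h6
      simpa only [zero_mul, pow_zero, mul_one, aeval_map_algebraMap, hw, hβ, hx] using h6
    · have h6 := congrArg (fun z => s ^ n * g z) hr
      simp only [map_sum, map_mul, map_pow, map_zero, mul_zero] at h6
      simpa only [h4, mul_assoc, ← Finset.mul_sum] using h6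
  refine (spec_iff_idl (w := w) (w' := co p)).symm.trans ?_
  rw [AddSubgroup.mem_comap, AddEquiv.coe_toAddMonoidHom, map_sub, AddEquiv.apply_symm_apply,
    ← dsc_cos h hb1 hb2 hv1 (hε p)]
  refine ⟨fun hs => ?_, fun hs => ?_⟩
  · obtain ⟨n, γ, c1, c2, c3⟩ := m1 p
    refine dsc_spec c1 (dsc_prop hv1.ne_zero fun a a' => ?_) (c3 p) c2 hs
    have h4 := hz _ ((h2.mem_iff ((((c1 a).aeval β hdβ).mul (isHomogeneous_X Ω a')).sub
      (((c1 a').aeval β hdβ).mul (isHomogeneous_X Ω a)))).2 fun p' => by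
        obtain ⟨u, hu⟩ := b3 p'
        obtain ⟨u', hu'⟩ := c3 p'
        rw [map_sub, map_mul, map_mul, mor1_ev (c1 a) hu, mor1_ev (c1 a') hu, hu', hu', eval_X,
          eval_X]
        ring)
    rwa [map_sub, map_mul, map_mul, dsc_ev, dsc_ev, ← hw, aeval_X, aeval_X, sub_eq_zero] at h4
  · obtain ⟨n, γ, c1, c2, c3⟩ := m2 p
    refine dsc_spec c1 (dsc_prop hw0 fun a a' => ?_) (c3 p) c2 hs
    have h4 := hz _ ((h2.mem_iff (((c1 a).mul (hdβ a')).sub ((c1 a').mul (hdβ a)))).2 fun p' => by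
      obtain ⟨u, hu⟩ := b3 p'
      obtain ⟨u', hu'⟩ := c3 p'
      rw [map_sub, map_mul, map_mul, hu, hu, hu', hu']
      ring)
    rw [map_sub, map_mul, map_mul, sub_eq_zero] at h4
    rw [hw]
    exact h4

/- `Cu.model`, `Pts.birat` and `Ds.descend` with the data kept. -/
theorem descend {J : Ideal (MvPolynomial ι k)} {G : Type} [AddCommGroup G]
    {co : G → ι → AlgebraicClosure k}
    (h1 : Pts (J.map (map (algebraMap k (AlgebraicClosure k)))) co) (h2 : SubMor co)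
    {ρ : Fin (e + 2) → MvPolynomial ι k} (hρ : ∀ j, (ρ j).IsHomogeneous μ)
    (hl : ρ (Fin.last _) ∉ J)
    (hG : Irr (J.map (map (algebraMap k (AlgebraicClosure k)))) co
      fun j => map (algebraMap k (AlgebraicClosure k)) (ρ j)) :
    ∃ (L : IntermediateField k (AlgebraicClosure k)) (_ : FiniteDimensional k L) (m : ℕ)
      (A : AV L (Fin m)) (φ : Fin m → MvPolynomial ι L) (ψ : ι → MvPolynomial (Fin m) L),
      Inv (up L J) A.I φ ψ ∧ Inv A.I (up L J) ψ φ ∧
      Sh.Gm A fun j => aeval ψ (map (algebraMap k L) (ρ j)) := by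
  obtain ⟨m, J', co', Φ, h, hΦ, m1, m2⟩ := Cu.model h1 h2
  obtain ⟨d, φ, c1, c2, c3⟩ := m1 0
  obtain ⟨d', ψ, b1, b2, b3⟩ := m2 0
  have i1 := h1.inv h c1 b1 c2 b2 c3 b3
  have i2 := h.inv h1 b1 c1 b2 c2 b3 c3
  obtain ⟨s, hs⟩ : J'.FG := IsNoetherian.noetherian J'
  obtain ⟨K, hK, a1, a2, a3⟩ := exists_field (k := k)
    (s.finite_toSet.union (Set.finite_range ψ)) (Set.finite_range φ)
    (Set.finite_range fun p : Fin m × Fin m => Φ p.1 p.2)
  choose ψ' hψ using fun i => a1 (Set.mem_union_right _ ⟨i, rfl⟩)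
  choose φ' hφ using fun j => a2 ⟨j, rfl⟩
  choose Φ' hΦ' using fun a b => a3 ⟨(a, b), rfl⟩
  obtain rfl : φ = fun j => MvPolynomial.map (algebraMap K _) (φ' j) := (funext hφ).symm
  obtain rfl : ψ = fun i => MvPolynomial.map (algebraMap K _) (ψ' i) := (funext hψ).symm
  have hm := dn_map (K := K) hs.symm (Set.subset_union_left.trans a1)
  have ev : ∀ {σ : Type} (v : σ → AlgebraicClosure k) (P : MvPolynomial σ K),
      aeval v P = eval v (MvPolynomial.map (algebraMap K _) P) := fun v P => by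
    rw [eval_map, aeval_def]
  obtain ⟨A, hA, -, ε, hε⟩ := Av.exists_av _ (dn K J') (dn_hom h.hom) (hm.symm ▸ h.prime) G co' h.ne
    (fun x P hP => (ev _ P).trans (h.zero x _ hP))
    (fun v hv hz => h.bij v hv fun P hP => by
      have : (dn K J').map (MvPolynomial.map (algebraMap K _)) ≤ RingHom.ker (eval v) :=
        Ideal.map_le_iff_le_comap.2 fun Q hQ => (ev v Q).symm.trans (hz Q hQ)
      exact this (hm.symm ▸ hP))
    Φ' (fun a b => wh_of_map (Ω := AlgebraicClosure k) ((hΦ' a b).symm ▸ hΦ.1 a b)) fun x y => by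
      obtain ⟨c, hc, e⟩ := hΦ.2 x y
      exact ⟨c, hc, fun a b => by rw [ev, hΦ' a b, e]⟩
  refine ⟨K, hK, m, A, φ', ψ', hA ▸ inv_dn i1, hA ▸ inv_dn i2, ?_⟩
  obtain rfl : A.IK _ = J' := by rw [IK, hA, hm]
  have e1 : ∀ P : MvPolynomial ι k, map (algebraMap K (AlgebraicClosure k))
      (map (algebraMap k K) P) = MvPolynomial.map (algebraMap k _) P := fun P => by
    rw [MvPolynomial.map_map, ← IsScalarTower.algebraMap_eq]
  refine dsc_gm h1 h m1 m2 ε hε i1 i2 b3 (fun j => (hρ j).map _) (fun hm => hl ?_)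
    (by simpa only [e1] using hG)
  obtain ⟨l, hl⟩ := Module.Projective.exists_dual_eq_one k (one_ne_zero (α := AlgebraicClosure k))
  have h3 : cf l (MvPolynomial.map (algebraMap k _) (ρ (Fin.last _))) = ρ (Fin.last _) := by
    ext n
    rw [coeff_cf, coeff_map, Algebra.algebraMap_eq_smul_one, map_smul, hl, smul_eq_mul, mul_one]
  rw [e1] at hm
  exact h3 ▸ cf_mem hm l

end Pool.Agent.Lib.MP_651af7_nt.Nc
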