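import Pool.Agent.Lib.MP_651af7_nt.Nc.Gap
import Pool.Agent.Lib.MP_651af7_nt.Nc.Dsc

/-! The subspace inequality with the height of the subbundle, over covers. -/

namespace Pool.Agent.Lib.MP_651af7_nt.Nc

open MvPolynomial Finset Height NumberField Matrix Filter Av As Bx Ds Db Module Fc Tb
open Rt (Pl av mu)
open Es (vol mn)
open Ex (lx)

variable {k ι β : Type} [Field k] [Fintype ι] [NumberField k]

theorem mainB (A : AV k ι) (a₀ : ι) {n r : ℕ} (Ls : Finset (Fin r → MvPolynomial ι k))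
    (B : Matrix (Fin n) (Fin r) (MvPolynomial ι k)) (e : Fin r → Fin n)
    {𝓕 : Filter β} {x : β → ι → k} {t : β → Fin r → k} (hI : GT A a₀ 𝓕 x t) {ε : ℝ} (hε : 0 < ε) :
    ∃ W ∈ 𝓕, ∀ (S : Finset (FinitePlace k))
      (G : Pl S → Matrix (Fin r) (Fin r) (MvPolynomial ι k)), (∀ p l, G p l ∈ Ls) →
      ∃ C : ℝ, ∀ b ∈ W, Aff A a₀ (x b) → mn (B.map (eval (x b))) e ≠ 0 →
        (∀ p, ((G p).map (eval (x b))).det ≠ 0) →
        (∀ p l, ((G p).map (eval (x b)) *ᵥ t b) l ≠ 0) →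
        vol (fun p l => lx (av p) (B.map (eval (x b)) *ᵥ t b)
          (((G p).map (eval (x b)) *ᵥ t b) l)) + logHeight (mn (B.map (eval (x b)))) ≤
          r * logHeight (B.map (eval (x b)) *ᵥ t b) +
            ε * (logHeight (x b) + logHeight (B.map (eval (x b)) *ᵥ t b)) + C := by
  classical
  obtain ⟨γ, 𝒲, hγ, H⟩ := stage1 A a₀ Ls B e hε
  choose W hW Q hQ using fun (j : Fin n) (u : Finset (Common.Subspace.PS n j → MvPolynomial ι k) ×
    Matrix (Common.Subspace.PS n j) (Fin r) (MvPolynomial ι k)) => hI _ u.1 u.2 γ hγ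
  refine ⟨⋂ j, ⋂ u ∈ 𝒲 j, W j u, iInter_mem.2 fun j => (biInter_finset_mem _).2 fun u _ => hW j u,
    fun S G hG => ?_⟩
  obtain ⟨H₀, hH₀⟩ := H S G hG
  obtain ⟨C, hC⟩ := main_smallA a₀ B e G (|H₀| + ∑ j, ∑ u ∈ 𝒲 j, |Q j u|)
  refine ⟨|C|, fun b hb hx he hdet hne => ?_⟩
  have a1 := hC (x b) (t b) hx.1
  have a2 := hH₀ (logHeight (x b) + logHeight (B.map (eval (x b)) *ᵥ t b)) (x b) (t b)
  have h1 := logHeight_nonneg (x b)
  have h2 := logHeight_nonneg (B.map (eval (x b)) *ᵥ t b)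
  have h4 := le_abs_self C
  rcases le_or_gt (logHeight (x b) + logHeight (B.map (eval (x b)) *ᵥ t b))
    (|H₀| + ∑ j, ∑ u ∈ 𝒲 j, |Q j u|) with h | h
  · have a3 : 0 ≤ r * logHeight (B.map (eval (x b)) *ᵥ t b) := by positivity
    have a4 : 0 ≤ ε * (logHeight (x b) + logHeight (B.map (eval (x b)) *ᵥ t b)) := by positivity
    linarith [a1 h he hne]
  have hs0 : 0 ≤ ∑ j, ∑ u ∈ 𝒲 j, |Q j u| := by positivity
  rcases a2 (by linarith [le_abs_self H₀]) hx (by linarith) (by linarith) he hdet hne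
    with h5 | ⟨j, u, hu, z, h5, h6, h7⟩
  · linarith [abs_nonneg C]
  have b1 : |Q j u| ≤ ∑ u ∈ 𝒲 j, |Q j u| :=
    single_le_sum (f := fun u => |Q j u|) (fun _ _ => abs_nonneg _) hu
  have b2 : ∑ u ∈ 𝒲 j, |Q j u| ≤ ∑ j, ∑ u ∈ 𝒲 j, |Q j u| :=
    single_le_sum (f := fun j => ∑ u ∈ 𝒲 j, |Q j u|) (fun _ _ => by positivity) (mem_univ j)
  exact absurd h7 (hQ j u b (Set.mem_iInter₂.1 (Set.mem_iInter.1 hb j) u hu) _ z
    (by linarith [le_abs_self (Q j u), abs_nonneg H₀]) hx (by linarith) h5 h6)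

omit [Fintype ι] [NumberField k] in
theorem aeval_mem {F : Type} [Field F] [Algebra k F] {M : Subfield F}
    (h : ∀ c, algebraMap k F c ∈ M) {z : ι → F} (hz : ∀ a, z a ∈ M) (f : MvPolynomial ι k) :
    aeval z f ∈ M := by
  induction f using MvPolynomial.induction_on with
  | C c => exact aeval_C z c ▸ h c
  | add p q hp hq => exact map_add (aeval z) p q ▸ add_mem hp hq
  | mul_X p a hp =>
    rw [map_mul, aeval_X]
    exact mul_mem hp (hz a)

theorem sbb_birat {κ : Type} [Fintype κ] (A : AV k κ) {I : Ideal (MvPolynomial ι k)}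
    (hI : I.IsPrime) {φ : κ → MvPolynomial ι k} {ψ : ι → MvPolynomial κ k} (h : Inv I A.I φ ψ)
    (h' : Inv A.I I ψ φ) {e' μ : ℕ} {ρ : Fin (e' + 2) → MvPolynomial ι k}
    (hρ : ∀ j, (ρ j).IsHomogeneous μ) (hl : ρ (Fin.last _) ∉ I)
    (hm : Sh.Gm A fun j => aeval ψ (ρ j)) {r : ℕ} {𝓕 : Filter β} {x : β → ι → k} {θ : β → k}
    {t : β → Fin r → k} (hg : Gn 𝓕 I x) (hx : ∃ a, ∀ᶠ b in 𝓕, x b a = 1)
    (hθ : ∀ᶠ b in 𝓕, ∑ j, eval (x b) (ρ j) * θ b ^ (j : ℕ) = 0) (hi : HJ 𝓕 x θ e' t) :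
    SBB 𝓕 x t := by
  classical
  intro n T _ e B f G hB hG ε hε
  obtain ⟨a, ha⟩ := h.hom
  obtain ⟨d, hd⟩ := h'.hom
  obtain ⟨i, hi0⟩ := h.ne
  have hX : (X A.ao : MvPolynomial κ k) ∉ A.I := fun hx => by
    have := (A.rep_zero (R := k)).zero _ hx
    rw [aeval_X, A.o_ao, map_one] at this
    exact one_ne_zero this
  have hφ := h'.pull A.tr_prime (isHomogeneous_X k A.ao) hX
  rw [aeval_X] at hφ
  obtain ⟨y, hy⟩ : ∃ y : β → κ → k,
      y = fun b j => (eval (x b) (φ A.ao))⁻¹ * eval (x b) (φ j) := ⟨_, rfl⟩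
  have hs : ∀ᶠ b in 𝓕, ∃ s : k, s ≠ 0 ∧ ∀ a, eval (y b) (ψ a) = s * x b a := by
    filter_upwards [hg.ne, hg.zero, hg.gen _ _ (ha _) hφ, hg.gen _ _ ((hd i).aeval φ ha) hi0]
      with b x0 xz x1 x2
    obtain ⟨c₀, hc₀, e0⟩ := h.pt (x := x b) x0 xz x2
    exact ⟨(eval (x b) (φ A.ao))⁻¹ ^ d * c₀, mul_ne_zero (pow_ne_zero _ (inv_ne_zero x1)) hc₀,
      fun a => by
        rw [hy, eval_mul_of_hom (hd a), mul_assoc, ← e0]
        rfl⟩
  have hj : HJ 𝓕 y θ e' t := fun α U j hj M m1 m2 m3 w hw => by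
    refine hi α U j hj M m1 (fun c => ?_) m3 w fun l => ⟨cl_le ?_ (hw l).1, (hw l).2⟩
    · obtain ⟨a₁, h1⟩ := hx
      have e1 : gv U (fun m => x (j m)) c = aeval (gv U fun m => y (j m)) (ψ c) /
          aeval (gv U fun m => y (j m)) (ψ a₁) := by
        rw [aeval_germ, aeval_germ, germ_div]
        refine (germ_eq U).2 ((hj.eventually (hs.and h1)).mono fun m ⟨⟨s, s0, s1⟩, s2⟩ => ?_)
        rw [s1, s1, s2, mul_one, mul_div_cancel_left₀ _ s0]
      rw [e1]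
      exact div_mem (aeval_mem m1 m2 _) (aeval_mem m1 m2 _)
    rintro _ ⟨c, rfl⟩
    have e1 : gv U (fun m => y (j m)) c = aeval (gv U fun m => x (j m)) (φ c) /
        aeval (gv U fun m => x (j m)) (φ A.ao) := by
      rw [aeval_germ, aeval_germ, germ_div, hy]
      simp only [div_eq_inv_mul]
    rw [e1]
    exact div_mem (gapA_aeval_mem _ _) (gapA_aeval_mem _ _)
  have hi' : GT A A.ao 𝓕 y t := gapT (fun j => (hρ j).aeval ψ hd) (h.pull hI (hρ _) hl) hm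
    (fun f n hf h0 => by
      filter_upwards [hg.gen _ _ (ha _) hφ, hg.gen _ _ (hf.aeval φ ha)
        (h'.pull A.tr_prime hf h0)] with b x1 x2
      rw [hy, eval_mul_of_hom hf]
      refine mul_ne_zero (pow_ne_zero _ (inv_ne_zero x1)) ?_
      rwa [← aeval_eq_eval, trans_aev] at x2)
    (by
      filter_upwards [hs, hθ] with b ⟨s, _, s1⟩ h0
      have e1 : ∀ j, eval (y b) (aeval ψ (ρ j)) = s ^ μ * eval (x b) (ρ j) := fun j => by
        rw [← aeval_eq_eval, trans_aev, ← eval_mul_of_hom (hρ j), ← funext s1]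
        rfl
      simp only [e1, mul_assoc, ← mul_sum, h0, mul_zero]) hj
  have hε' : 0 < ε / (a + 1) := by positivity
  obtain ⟨W, hW, H⟩ := mainB A A.ao (univ.image fun p : T × Fin r => (G p.1).map (aeval ψ) p.2)
    (B.map (aeval ψ)) f hi' hε'
  refine ⟨_, inter_mem ((hg.ne.and hg.zero).and ((hg.gen _ _ (ha _) hφ).and
    (hg.gen _ _ ((hd i).aeval φ ha) hi0))) hW, fun S => ?_⟩
  choose C₁ h1 using fun c : Pl S → T => H S (fun p => (G (c p)).map (aeval ψ))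
    fun p l => mem_image.2 ⟨(c p, l), mem_univ _, rfl⟩
  obtain ⟨C₀, hC₀⟩ := Finite.bddAbove_range C₁
  obtain ⟨C₃, h3⟩ := logHeight_eval_le' ha
  refine ⟨C₀ + ε / (a + 1) * C₃, ?_⟩
  rintro b ⟨⟨⟨x0, xz⟩, x1, x2⟩, bW⟩ c g0 g1 g2
  obtain ⟨c₀, hc₀, e0⟩ := h.pt (x := x b) x0 xz x2
  obtain ⟨s, hs, e1⟩ : ∃ s : k, s ≠ 0 ∧ ∀ a, eval (y b) (ψ a) = s * x b a :=
    ⟨(eval (x b) (φ A.ao))⁻¹ ^ d * c₀, mul_ne_zero (pow_ne_zero _ (inv_ne_zero x1)) hc₀, fun a => by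
      rw [hy, eval_mul_of_hom (hd a), mul_assoc, ← e0]
      rfl⟩
  have ya : Aff A A.ao (y b) := by
    rw [hy]
    exact ⟨inv_mul_cancel₀ x1, zero_mul_of_hom A.hom (h.zero (x := x b) xz) _⟩
  have eG : ∀ {m : ℕ} (M : Matrix (Fin m) (Fin r) (MvPolynomial ι k)),
      (∀ i j, (M i j).IsHomogeneous e) →
      (M.map (aeval ψ)).map (eval (y b)) = s ^ e • M.map (eval (x b)) := by
    intro m M hM
    ext i j
    change eval (y b) (aeval ψ (M i j)) = s ^ e * eval (x b) (M i j)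
    rw [← aeval_eq_eval, trans_aev, ← eval_mul_of_hom (hM i j), ← funext e1]
    rfl
  have hse := pow_ne_zero e hs
  have h4 := h1 c b bW ya
  simp only [eG B hB, eG _ (hG _), Matrix.smul_mulVec, Pi.smul_apply, smul_eq_mul, det_smul,
    Es.mn_smul, lx_smul _ hse, logHeight_smul_eq_logHeight _ hse,
    logHeight_smul_eq_logHeight _ (pow_ne_zero r hse)] at h4
  replace h4 := h4 (mul_ne_zero (pow_ne_zero _ hse) g0)
    (fun p => mul_ne_zero (pow_ne_zero _ hse) (g1 p)) fun p l => mul_ne_zero hse (g2 p l)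
  have h7 : logHeight (y b) ≤ C₃ + a * logHeight (x b) := by
    rw [hy]
    exact (logHeight_mul_left (inv_ne_zero x1) _).trans_le (h3 _)
  have h8 : ε / (a + 1) * (a * logHeight (x b)) ≤ ε * logHeight (x b) := by
    rw [← mul_assoc]
    refine mul_le_mul_of_nonneg_right ?_ (logHeight_nonneg _)
    rw [div_mul_eq_mul_div, div_le_iff₀ (by positivity)]
    nlinarith
  have h9 := mul_le_mul_of_nonneg_right (div_le_self hε.le (show (1 : ℝ) ≤ a + 1 by
    linarith [a.cast_nonneg (α := ℝ)])) (logHeight_nonneg (B.map (eval (x b)) *ᵥ t b))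
  have h10 : C₁ c ≤ C₀ := hC₀ ⟨c, rfl⟩
  linarith [mul_le_mul_of_nonneg_left h7 hε'.le]

theorem sbb_model {J : Ideal (MvPolynomial ι k)} {G : Type} [AddCommGroup G]
    {co : G → ι → AlgebraicClosure k}
    (h1 : Pts (J.map (MvPolynomial.map (algebraMap k (AlgebraicClosure k)))) co) (h2 : SubMor co) {e μ : ℕ}
    {ρ : Fin (e + 2) → MvPolynomial ι k} (hρ : ∀ j, (ρ j).IsHomogeneous μ)
    (hl : ρ (Fin.last _) ∉ J)
    (hG : Irr (J.map (MvPolynomial.map (algebraMap k (AlgebraicClosure k)))) co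
      fun j => MvPolynomial.map (algebraMap k (AlgebraicClosure k)) (ρ j)) {r : ℕ}
    {𝓕 : Filter β} {x : β → ι → k} {θ : β → k} {t : β → Fin r → k} (hg : Gn 𝓕 J x)
    (hx : ∃ a, ∀ᶠ b in 𝓕, x b a = 1)
    (hθ : ∀ᶠ b in 𝓕, ∑ j, eval (x b) (ρ j) * θ b ^ (j : ℕ) = 0)
    (hi : ∀ (L : Type) [Field L] [Algebra k L] [FiniteDimensional k L],
      HJ 𝓕 (fun b a => algebraMap k L (x b a)) (fun b => algebraMap k L (θ b)) e
        fun b l => algebraMap k L (t b l)) : SBB 𝓕 x t := by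
  obtain ⟨K, hK, m, B, φ, ψ, b1, b2, b3⟩ := descend h1 h2 hρ hl hG
  have : NumberField K := NumberField.of_module_finite k K
  have ev : ∀ (z : ι → k) (P : MvPolynomial ι k), eval (fun a => algebraMap k K (z a))
      (MvPolynomial.map (algebraMap k K) P) = algebraMap k K (eval z P) := fun z P => by
    rw [eval_map, ← eval₂_id, eval₂_comp_left]
    rfl
  refine sbb_down (sbb_birat B (h1.prime.comap _) b1 b2 (fun j => (hρ j).map _) (fun h0 => ?_) b3
    ⟨hg.ne.mono fun b h h' => h (funext fun a => (map_eq_zero _).1 (congrFun h' a)),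
      hg.zero.mono fun b => zero_up, fun P d hP h0 => ?_⟩
    (hx.imp fun a ha => ha.mono fun b hb => by rw [hb, map_one]) (hθ.mono fun b hb => ?_) (hi K))
  · rw [Ideal.mem_comap, MvPolynomial.map_map, ← IsScalarTower.algebraMap_eq] at h0
    exact hl (mem_of_map_mem h0)
  · obtain ⟨l, hl⟩ : ∃ l : K →ₗ[k] k, Av.cf l P ∉ J :=
      not_forall.1 fun h => h0 (map_le_up (mem_map_of_cf h))
    refine (hg.gen _ d (fun m hm => hP fun e => hm ?_) hl).mono fun b h e => h ?_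
    · rw [coeff_cf, e, map_zero]
    · rw [eval_cf, e, map_zero]
  · simp only [ev, ← map_pow, ← map_mul, ← map_sum, hb, map_zero]

end Pool.Agent.Lib.MP_651af7_nt.Nc
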