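import Pool.Agent.Lib.MP_651af7_nt.Es.UMin

/-! Conjugates of an algebraic vector. -/

namespace Pool.Agent.Lib.MP_651af7_nt.Nc

open Finset Matrix Module IntermediateField
open Pool.Agent.Lib.MP_651af7_nt.Es (mn mn_mul)

variable {F E : Type} [Field F] [Field E] [Algebra F E] [FiniteDimensional F E] [IsGalois F E]

/-- Some maximal minor of the matrix of conjugates does not vanish. -/
theorem gal_minor {r : ℕ} {τ : Fin r → E} (hτ : LinearIndependent F τ) :
    ∃ gs : Fin r → E ≃ₐ[F] E, (of fun l j => gs j (τ l)).det ≠ 0 := by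
  classical
  have h1 : ∀ j, ∃ σ : E, ∀ l, Algebra.trace F E (σ * τ l) = if l = j then 1 else 0 := fun j => by
    obtain ⟨φ, hφ⟩ := LinearMap.exists_extend ((Finsupp.lapply j).comp hτ.repr)
    refine ⟨((Algebra.traceForm F E).toDual (traceForm_nondegenerate F E)).symm φ, fun l => ?_⟩
    rw [← Algebra.traceForm_apply, LinearMap.BilinForm.apply_toDual_symm_apply]
    have h2 := LinearMap.congr_fun hφ ⟨τ l, Submodule.subset_span ⟨l, rfl⟩⟩
    rw [LinearMap.comp_apply, LinearMap.comp_apply, hτ.repr_eq_single l _ rfl, Finsupp.lapply_apply,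
      Finsupp.single_apply] at h2
    exact h2
  choose σ hσ using h1
  have h2 : Submodule.span E (Set.range fun (g : E ≃ₐ[F] E) l => g (τ l)) = ⊤ := by
    rw [eq_top_iff, ← (Pi.basisFun E (Fin r)).span_eq, Submodule.span_le]
    rintro _ ⟨j, rfl⟩
    have h3 : Pi.basisFun E (Fin r) j = ∑ g : E ≃ₐ[F] E, g (σ j) • fun l => g (τ l) := by
      funext l
      simp only [Pi.basisFun_apply, Finset.sum_apply, Pi.smul_apply, smul_eq_mul, ← map_mul,
        ← trace_eq_sum_automorphisms, hσ, Pi.single_apply]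
      split_ifs <;> simp
    rw [h3]
    exact Submodule.sum_mem _ fun g _ => Submodule.smul_mem _ _ (Submodule.subset_span ⟨g, rfl⟩)
  obtain ⟨f, f1, -, f3⟩ := Submodule.exists_fun_fin_finrank_span_eq E
    (Set.range fun (g : E ≃ₐ[F] E) l => g (τ l))
  have h4 : r = finrank E (Submodule.span E (Set.range fun (g : E ≃ₐ[F] E) l => g (τ l))) := by
    rw [h2]
    simp
  choose gs hgs using f1
  refine ⟨fun j => gs (Fin.cast h4 j), ?_⟩
  rw [← det_transpose, ← isUnit_iff_ne_zero, ← isUnit_iff_isUnit_det,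
    ← linearIndependent_rows_iff_isUnit]
  exact (funext fun j => hgs (Fin.cast h4 j) :
    (of fun l j => gs (Fin.cast h4 j) (τ l))ᵀ.row = f ∘ Fin.cast h4) ▸
      f3.comp _ (Fin.cast_injective h4)

/-- The product over the group is a power of the minimal polynomial. -/
theorem gal_norm (t : E) : ∃ m : ℕ, m * (minpoly F t).natDegree = Fintype.card (E ≃ₐ[F] E) ∧
    ∀ c : F, ∏ g : E ≃ₐ[F] E, (algebraMap F E c - g t) =
      algebraMap F E ((minpoly F t).eval c) ^ m := by
  classical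
  have ht : IsIntegral F t := Algebra.IsIntegral.isIntegral t
  refine ⟨finrank F⟮t⟯ E, ?_, fun c => ?_⟩
  · rw [← adjoin.finrank ht, mul_comm, finrank_mul_finrank, ← IsGalois.card_aut_eq_finrank,
      Nat.card_eq_fintype_card]
  · have h1 := Algebra.norm_eq_prod_automorphisms F (algebraMap F E c - t)
    simp only [map_sub, AlgEquiv.commutes] at h1
    have h2 : algebraMap F E c - t =
        algebraMap F⟮t⟯ E (algebraMap F _ c - (adjoin.powerBasis ht).gen) := by
      rw [map_sub]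
      rfl
    rw [← h1, h2, ← Algebra.norm_norm (S := F⟮t⟯), Algebra.norm_algebraMap, map_pow, map_pow,
      Algebra.norm_eq_matrix_det (adjoin.powerBasis ht).basis, map_sub, AlgHom.commutes,
      ← minpoly_gen F t, ← adjoin.powerBasis_gen ht, ← charpoly_leftMulMatrix, eval_charpoly]
    rfl

omit [FiniteDimensional F E] [IsGalois F E] in
/-- Coordinates with respect to a basis of the span. -/
theorem gal_span {n : ℕ} (Z : Fin n → E) : ∃ (r : ℕ) (e : Fin r → Fin n)
    (B : Matrix (Fin n) (Fin r) F), LinearIndependent F (fun l => Z (e l)) ∧ mn B e = 1 ∧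
      ∀ i, Z i = ∑ l, B i l • Z (e l) := by
  classical
  have := Module.Finite.span_of_finite F (Set.finite_range Z)
  obtain ⟨f, f1, f2, f3⟩ := Submodule.exists_fun_fin_finrank_span_eq F (Set.range Z)
  choose e he using f1
  obtain rfl : f = fun l => Z (e l) := funext fun l => (he l).symm
  have h1 : ∀ i, ∃ c : _ → F, ∑ l, c l • Z (e l) = Z i := fun i =>
    (Submodule.mem_span_range_iff_exists_fun F).1 (f2.ge (Submodule.subset_span ⟨i, rfl⟩))
  choose B hB using h1
  refine ⟨_, e, of B, f3, ?_, fun i => (hB i).symm⟩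
  have h2 : (of B).submatrix e id = 1 := by
    ext j l
    refine (Fintype.linearIndependent_iffₛ.1 f3 (B (e j)) (Pi.single j 1) ?_ l).trans ?_
    · simp only [hB, Pi.single_apply, ite_smul, one_smul, zero_smul, sum_ite_eq', mem_univ, if_true]
    · rw [Pi.single_apply, one_apply]
      exact if_congr eq_comm rfl rfl
  rw [mn, h2, det_one]

/-- The conjugates of an algebraic vector `Z`. -/
theorem exists_gal {F Ω : Type} [Field F] [CharZero F] [Field Ω] [IsAlgClosed Ω] [Algebra F Ω]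
    {n s : ℕ} {Z : Fin n → Ω} (hZ : ∀ i, IsAlgebraic F (Z i)) (c : Fin s → ℤ)
    (hc : ∀ a, ∑ b : Fin n, (c a : Ω) ^ (b : ℕ) * Z b ≠ 0) :
    ∃ (G : Type) (_ : Group G) (_ : Fintype G) (z : G → Fin n → Ω) (r : ℕ) (e : Fin r → Fin n)
      (B : Matrix (Fin n) (Fin r) F) (gs : Fin r → G) (l : Fin s → G → Ω),
      LinearIndependent F (fun j => Z (e j)) ∧ mn B e = 1 ∧ (∀ i, Z i = ∑ j, B i j • Z (e j)) ∧
      (∀ g, ∃ d : Ω, d ≠ 0 ∧
        mn (of fun i j => z (g * gs j) i) = d • mn (B.map (algebraMap F Ω))) ∧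
      (∀ a g, l a g = ∑ b : Fin n, (c a : Ω) ^ (b : ℕ) * z g b) ∧ (∀ a g, l a g ≠ 0) ∧
      ∀ a b, ∃ (d m : ℕ) (p : Polynomial F), Irreducible p ∧ p.Monic ∧ p.natDegree = d + 1 ∧
        Polynomial.aeval ((∑ i : Fin n, (c a : Ω) ^ (i : ℕ) * Z i) /
          ∑ i : Fin n, (c b : Ω) ^ (i : ℕ) * Z i) p = 0 ∧
        m * (d + 1) = Fintype.card G ∧ ∀ T : ℕ, ∏ g, ((T : Ω) - l a g / l b g) =
          algebraMap F Ω (p.eval (T : F)) ^ m := by
  classical
  obtain ⟨q, hq⟩ : ∃ q, q = ∏ i, minpoly F (Z i) := ⟨_, rfl⟩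
  have q0 : q ≠ 0 := hq ▸ prod_ne_zero_iff.2 fun i _ => minpoly.ne_zero (hZ i).isIntegral
  let E := adjoin F (q.rootSet Ω)
  have : q.IsSplittingField F E := adjoin_rootSet_isSplittingField (IsAlgClosed.splits _)
  have : FiniteDimensional F E := Polynomial.IsSplittingField.finiteDimensional E q
  have : Normal F E := Normal.of_isSplittingField q
  have : IsGalois F E := ⟨⟩
  let Y : Fin n → E := fun i => ⟨Z i, subset_adjoin _ _ (Polynomial.mem_rootSet.2 ⟨q0, by
    rw [hq, map_prod]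
    exact prod_eq_zero (mem_univ i) (minpoly.aeval F _)⟩)⟩
  obtain ⟨r, e, B, h1, h2, h3⟩ := gal_span (F := F) Y
  obtain ⟨gs, hgs⟩ := gal_minor h1
  let L : Fin s → E := fun a => ∑ b : Fin n, (c a : E) ^ (b : ℕ) * Y b
  have hL : ∀ a, (L a : Ω) = ∑ b : Fin n, (c a : Ω) ^ (b : ℕ) * Z b := fun a => by
    simp [L, Y]
  have hL0 : ∀ a, L a ≠ 0 := fun a h => hc a (by rw [← hL, h]; rfl)
  refine ⟨E ≃ₐ[F] E, inferInstance, inferInstance, fun g i => g (Y i), r, e, B, gs,
    fun a g => g (L a), h1.map' E.val.toLinearMap (LinearMap.ker_eq_bot.2 Subtype.val_injective),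
    h2, fun i => ?_, fun g => ?_, fun a g => by simp [L], fun a g => ?_, fun a b => ?_⟩
  · simpa using congrArg E.val (h3 i)
  · refine ⟨_, ?_, Eq.trans ?_ (mn_mul _ (of fun l j => ((g * gs j) (Y (e l)) : Ω)))⟩
    · have h4 := ((E.val : E →+* Ω).comp (g : E →+* E)).map_det (of fun l j => gs j (Y (e l)))
      refine fun h => hgs ((map_eq_zero _).1 (h4.trans h))
    · congr 1
      ext i j
      refine (congrArg (fun y => (((g * gs j) y : E) : Ω)) (h3 i)).trans ?_
      simp [mul_apply, Algebra.smul_def]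
  · exact fun h => hL0 a ((map_eq_zero g).1 (Subtype.ext h))
  · obtain ⟨m, m1, m2⟩ := gal_norm (F := F) (L a / L b)
    have ht : IsIntegral F (L a / L b) := Algebra.IsIntegral.isIntegral _
    obtain ⟨d, hd⟩ := Nat.exists_eq_add_one_of_ne_zero (minpoly.natDegree_pos ht).ne'
    refine ⟨d, m, _, minpoly.irreducible ht, minpoly.monic ht, hd, ?_, hd ▸ m1, fun T => ?_⟩
    · rw [← hL, ← hL]
      exact (Polynomial.aeval_algHom_apply E.val (L a / L b) _).trans
        (by rw [minpoly.aeval, map_zero])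
    · simpa using congrArg E.val (m2 T)

end Pool.Agent.Lib.MP_651af7_nt.Nc
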