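import Pool.Agent.Lib.MP_651af7_nt.Nc.Iso

/-! Minimality at almost every index gives irreducibility over the small field. -/

namespace Pool.Agent.Lib.MP_651af7_nt.Nc

open MvPolynomial Filter Av As
open IntermediateField (adjoin)
open Jn (rr)

variable {k K ι α : Type} [Field k] [Field K] {U : Ultrafilter α}

theorem mspb_aeval {F : Type} [Field F] [Algebra k F] [Algebra K (Up U k)] [Algebra K (Up U F)]
    (hc : ∀ c, algebraMap K (Up U F) c = upMap U (algebraMap k F) (algebraMap K (Up U k) c))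
    {P : MvPolynomial ι K} {p : α → MvPolynomial ι k}
    (h : Repr U (map (algebraMap K (Up U k)) P) p) (b : ι → F) :
    aeval (fun a => algebraMap F (Up U F) (b a)) P = germ U fun n => aeval b (p n) := by
  obtain ⟨Q, h1, rfl⟩ := h.exists_lift
  have h2 : algebraMap K (Up U F) = (upMap U (algebraMap k F)).comp (algebraMap K (Up U k)) :=
    RingHom.ext hc
  rw [aeval_def, h2, ← eval₂_map, h1]
  clear h1 h
  induction Q using MvPolynomial.induction_on with
  | C c =>
    rw [map_C, eval₂_C, upMap_germ]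
    exact congrArg _ (funext fun n => by simp [evP])
  | add p q hp hq =>
    rw [map_add, eval₂_add, hp, hq, ← map_add]
    exact congrArg _ (funext fun n => by simp)
  | mul_X p a hp =>
    rw [map_mul, eval₂_mul, hp, map_X, eval₂_X, algebraMap_up, ← map_mul]
    exact congrArg _ (funext fun n => by simp [evP])

/-- A normalised generic point in an algebraically closed field. -/
theorem mspb_gen [Finite ι] (B : AV k ι) {a₁ : ι} (h : X a₁ ∉ B.I) :
    ∃ (F : Type) (_ : Field F) (_ : Algebra k F) (_ : IsAlgClosed F) (b : ι → F),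
      b a₁ = 1 ∧ (∀ f ∈ B.I, aeval b f = 0) ∧ Gen B.I b := by
  have := B.isPrime
  obtain ⟨M, _, _, x, hx, -⟩ := tr_point B.I
  let G := IsScalarTower.toAlgHom k M (AlgebraicClosure M)
  have h1 : ∀ f, aeval (fun a => G (x a)) f = 0 ↔ f ∈ B.I := fun f => by
    rw [← hx, ← map_eq_zero_iff G G.injective, ← AlgHom.comp_apply, comp_aeval]
  have h2 : G (x a₁) ≠ 0 := fun h2 => h ((h1 _).1 (by rwa [aeval_X]))
  refine ⟨_, inferInstance, inferInstance, inferInstance, fun a => (G (x a₁))⁻¹ * G (x a),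
    inv_mul_cancel₀ h2, zero_mul_of_hom B.hom (fun f hf => (h1 f).2 hf) _, fun f n hn hf => ?_⟩
  rw [aeval_mul_of_hom hn] at hf
  exact (h1 f).1 ((mul_eq_zero.1 hf).resolve_left (pow_ne_zero _ (inv_ne_zero h2)))

variable [CharZero k] [Finite ι] {B : AV k ι} [Algebra k K] [Algebra K (Up U k)]
  [IsScalarTower k K (Up U k)] {e μ : ℕ}
  {ρ' : Fin (e + 2) → MvPolynomial ι K} {ρ : α → Fin (e + 2) → MvPolynomial ι k}
  {v : α → ι → k} {a₁ : ι}

omit [CharZero k] in
theorem irp_of_minG (hv : ∀ᶠ n in U, v n a₁ = 1 ∧ ∀ f ∈ B.I, eval (v n) f = 0)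
    (hg : Gen (B.IK K) (gv U v))
    (hr : ∀ j, Repr U (map (algebraMap K (Up U k)) (ρ' j)) fun n => ρ n j)
    (hl : aeval (gv U v) (ρ' (Fin.last _)) ≠ 0) (h : ∀ᶠ n in U, MinG B (ρ n)) :
    Irp ρ' (gv U v) := by
  obtain ⟨F, _, _, _, b, h1, h2, h3⟩ := mspb_gen B (a₁ := a₁) fun h1 => by
    obtain ⟨n, h2, h3⟩ := hv.exists
    exact one_ne_zero (h2.symm.trans ((eval_X _).symm.trans (h3 _ h1)))
  let _ : Algebra K (Up U F) :=
    ((upMap U (algebraMap k F)).comp (algebraMap K (Up U k))).toAlgebra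
  have hc : ∀ c, algebraMap K (Up U F) c =
      upMap U (algebraMap k F) (algebraMap K (Up U k) c) := fun _ => rfl
  have := up_closed U F
  have h4 := gen_up (F := F) hc hv hg h1 h2 h3
  have h5 : b ≠ 0 := fun h5 => zero_ne_one (h1 ▸ (congrFun h5 a₁).symm)
  refine Irp.iso (fun f => (h4 f).symm) (irp_of_min ⟨a₁, by rw [h1, map_one]⟩
    (fun h6 => hl ((h4 _).2 h6)) fun t ht τ d hτ h6 j => ?_)
  obtain ⟨t, rfl⟩ := germ_surj U t
  choose s hs hs' using fun j => exists_repr' (map (algebraMap K (Up U k)) (τ j))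
  simp only [fun j => mspb_aeval hc (hr j) b, fun j => mspb_aeval hc (hs j) b, ← map_pow,
    ← map_mul, ← map_sum, germ_eq_zero] at ht h6 ⊢
  filter_upwards [h, ht, h6] with n g1 g2 g3
  refine g1 F b h5 h2 h3 (t n) (by simpa using g2) (fun j => s j n) d (fun j ν hν => ?_)
    (by simpa using g3) j
  exact (hτ j).map (algebraMap K (Up U k)) (mem_support_iff.1 (hs' j n (mem_support_iff.2 hν)))

end Pool.Agent.Lib.MP_651af7_nt.Nc
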