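import Pool.Agent.Lib.MP_651af7_nt.Nc.MspA
import Pool.Agent.Lib.MP_651af7_nt.Nc.MspB

/-! Irreducibility over the small field and at almost every index. -/
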