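import Pool.Agent.Lib.MP_651af7_nt.Nc.Pen
import Pool.Agent.Lib.MP_651af7_nt.Jn.Gel
import Pool.Agent.Lib.MP_651af7_nt.Es.UMin
import Pool.Agent.Lib.MP_651af7_nt.FinExt

/-! The height of the span of conjugate vectors. -/

namespace Pool.Agent.Lib.MP_651af7_nt.Nc

open Finset Height Av Vj Module
open Es (mn)

section
variable {L : Type} [Field L] [NumberField L]

/-- The inequality of Hadamard. -/
theorem lg_had {n r : ℕ} {Z : Matrix (Fin n) (Fin r) L} (hZ : mn Z ≠ 0) :
    logHeight (mn Z) ≤ ∑ j, logHeight (fun i => Z i j) + totalWeight L * Real.log r.factorial := by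
  obtain ⟨f₀, h0⟩ := Function.ne_iff.1 hZ
  have c0 : ∀ j, (fun i => Z i j) ≠ 0 := fun j e =>
    h0 (Matrix.det_eq_zero_of_column_eq_zero j fun i => congrFun e (f₀ i))
  have hE := ad_E (k := L) (t := r.factorial) (Nat.one_le_cast.2 r.factorial_pos)
  have f1 := finS_sum univ fun j (_ : j ∈ univ) => finS_nm fun i => Z i j
  have g := pf_gsum_mono (finS_nm (mn Z)) (f1.add hE.fin) fun v => by
    have p0 : 0 < ∏ j, nm v fun i => Z i j := prod_pos fun j _ => nm_pos v (c0 j)
    rw [← Real.log_prod fun j _ => (nm_pos v (c0 j)).ne', ← Real.log_mul p0.ne' (hE.pos v).ne']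
    refine Real.log_le_log (nm_pos v hZ) ?_
    have : Nonempty (Fin r → Fin n) := ⟨f₀⟩
    obtain ⟨f, hf⟩ := exists_nm v (mn Z)
    have k1 := (absSN v).int_sum_le univ (fun σ : Equiv.Perm (Fin r) => (Equiv.Perm.sign σ : ℤ))
      (f := fun σ => ∏ j, Z (f (σ j)) j) p0.le fun σ _ _ =>
        (absSN v).prod_le univ fun j _ => le_nm v (fun i => Z i j) _
    have k2 : ∑ σ : Equiv.Perm (Fin r), |((Equiv.Perm.sign σ : ℤ) : ℝ)| = r.factorial := by
      simp [← Int.cast_abs, Fintype.card_perm]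
    rw [k2, mul_comm] at k1
    rw [← hf, mn, Matrix.det_apply']
    exact k1
  rw [gsum_add f1 hE.fin, gsum_sum univ fun j _ => finS_nm fun i => Z i j, gsum_nm hZ] at g
  simp only [gsum_nm (c0 _)] at g
  linarith [hE.le]

/-- The heights of the roots against the height of the coefficients. -/
theorem lg_root {G : Type} [Fintype G] (t : G → L) {e m : ℕ} {ρ : Fin (e + 2) → L}
    (hm : m * (e + 1) = Fintype.card G) (h0 : ρ (Fin.last _) ≠ 0)
    (h : ∀ T : ℕ, T ≤ Fintype.card G →
      ρ (Fin.last _) ^ m * ∏ g, ((T : L) - t g) = (∑ j, ρ j * (T : L) ^ (j : ℕ)) ^ m) :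
    ∑ g, logHeight₁ (t g) ≤
      m * logHeight ρ + 2 * Fintype.card G * (totalWeight L * Real.log 2) := by
  obtain ⟨p, hp⟩ : ∃ p : Polynomial L, p = ∑ j : Fin (e + 2), Polynomial.monomial j (ρ j) := ⟨_, rfl⟩
  have p1 : p.natDegree ≤ e + 1 := hp ▸ Polynomial.natDegree_sum_le_of_forall_le _ _ fun j _ =>
    (Polynomial.natDegree_monomial_le _).trans (Nat.lt_succ_iff.1 j.2)
  have r0 : ρ ≠ 0 := fun e => h0 (congrFun e _)
  have p2 : ∀ (v : AbsoluteValue L ℝ) i, v (p.coeff i) ≤ nm v ρ := fun v i => by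
    rw [hp, Polynomial.finsetSum_coeff]
    by_cases hi : i < e + 2
    · rw [sum_eq_single ⟨i, hi⟩ (fun j _ hj => by
        rw [Polynomial.coeff_monomial, if_neg fun e => hj (Fin.ext e)]) (by simp)]
      simpa using le_nm v ρ ⟨i, hi⟩
    · rw [sum_eq_zero fun j _ => by
        rw [Polynomial.coeff_monomial, if_neg fun e : j.1 = i => hi (e ▸ j.2)], map_zero]
      exact nm_nn v ρ
  have p3 : Polynomial.C (ρ (Fin.last _)) ^ m * ∏ g, (Polynomial.X - Polynomial.C (t g)) = p ^ m := by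
    refine Polynomial.eq_of_natDegree_lt_card_of_eval_eq _ _
      (f := fun T : Fin (Fintype.card G + 1) => ((T : ℕ) : L))
      (Nat.cast_injective.comp Fin.val_injective) (fun T => ?_) ?_
    · simpa [hp, Polynomial.eval_prod, Polynomial.eval_finsetSum] using
        h T (Nat.lt_succ_iff.1 T.2)
    · rw [Fintype.card_fin, Nat.lt_succ_iff, max_le_iff, ← Polynomial.C_pow]
      exact ⟨(Polynomial.natDegree_C_mul_le _ _).trans (by simp [Polynomial.natDegree_prod_of_monic,
        Polynomial.monic_X_sub_C]), Polynomial.natDegree_pow_le.trans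
          (hm ▸ Nat.mul_le_mul_left _ p1)⟩
  have hE := ad_E (k := L) (t := 2) one_le_two
  have f1 := finS_sum univ fun g (_ : g ∈ univ) => finS_max (t g)
  have g := gsum_mono (f1.add ((finS_log (ρ (Fin.last _))).const_mul m))
    (((finS_nm ρ).const_mul m).add (hE.fin.const_mul (2 * Fintype.card G))) fun v hv => by
    obtain ⟨Mh, m0, m1, m2, m3, m4⟩ := Jn.gl_measure hv
    let φ : Polynomial L →* ℝ := ⟨⟨Mh, m1⟩, m2⟩
    have e0 := hE.pos v
    have k1 : ∀ g, max (v (t g)) 1 ≤
        E (IsNonarchimedean v) 2 * Mh (Polynomial.X - Polynomial.C (t g)) := fun g =>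
      max_le (by simpa using m3 _ 1 0 (Polynomial.natDegree_X_sub_C (t g)).le)
        (by simpa using m3 _ 1 1 (Polynomial.natDegree_X_sub_C (t g)).le)
    have k2 : v (ρ (Fin.last _)) ≤ Mh (Polynomial.C (ρ (Fin.last _))) := by
      simpa using m3 _ 0 0 (Polynomial.natDegree_C (ρ (Fin.last _))).le
    have k3 := m4 p _ _ p1 (nm_nn v ρ) (p2 v)
    have k4 : Mh (Polynomial.C (ρ (Fin.last _))) ^ m *
        ∏ g, Mh (Polynomial.X - Polynomial.C (t g)) = Mh p ^ m := by
      have := congrArg φ p3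
      rwa [map_mul, map_pow, map_pow, map_prod] at this
    have k5 : (∏ g, max (v (t g)) 1) * v (ρ (Fin.last _)) ^ m ≤
        nm v ρ ^ m * E (IsNonarchimedean v) 2 ^ (2 * Fintype.card G) := by
      refine (mul_le_mul (prod_le_prod (fun g _ => by positivity) fun g _ => k1 g)
        (pow_le_pow_left₀ (v.nonneg _) k2 m) (by positivity)
        (prod_nonneg fun g _ => mul_nonneg e0.le (m0 _))).trans ?_
      rw [prod_mul_distrib, prod_const, card_univ, mul_assoc, mul_comm (∏ g, _), k4]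
      refine (mul_le_mul_of_nonneg_left (pow_le_pow_left₀ (m0 p) k3 m) (by positivity)).trans_eq ?_
      rw [mul_pow, ← pow_mul, mul_comm (e + 1), hm]
      ring
    have k6 := Real.log_le_log (mul_pos (prod_pos fun g _ => by positivity)
      (pow_pos (v.pos h0) m)) k5
    rw [Real.log_mul (prod_pos fun g _ => by positivity).ne' (pow_pos (v.pos h0) m).ne',
      Real.log_mul (pow_pos (nm_pos v r0) m).ne' (pow_pos e0 _).ne', Real.log_pow, Real.log_pow,
      Real.log_pow, Real.log_prod fun g _ => by positivity] at k6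
    push_cast at k6
    exact k6
  rw [gsum_add f1 ((finS_log _).const_mul _), gsum_add ((finS_nm ρ).const_mul _)
    (hE.fin.const_mul _), gsum_const_mul (finS_log _), gsum_const_mul (finS_nm ρ),
    gsum_const_mul hE.fin, gsum_log h0, gsum_nm r0, gsum_sum univ fun g _ => finS_max (t g)] at g
  simp only [gsum_max] at g
  have := mul_le_mul_of_nonneg_left hE.le (show (0 : ℝ) ≤ 2 * Fintype.card G by positivity)
  linarith

end

/-- The data at one point, with values in `Ω`. -/
structure LgD {k Ω G : Type} [Field k] [Field Ω] [Algebra k Ω] [Group G] [Fintype G] {n r s : ℕ}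
    (c : Fin s → ℤ) (z : G → Fin n → Ω) (B : Matrix (Fin n) (Fin r) k) (gs : Fin r → G)
    (e m : Fin s → Fin s → ℕ) (ρ : ∀ a b, Fin (e a b + 2) → k) : Prop where
  ne : mn B ≠ 0
  span : ∀ g, ∃ δ : Ω, δ ≠ 0 ∧ ∀ f,
    mn (Matrix.of fun i j => z (g * gs j) i) f = δ * algebraMap k Ω (mn B f)
  lin : ∀ a g, ∑ b : Fin n, (c a : Ω) ^ (b : ℕ) * z g b ≠ 0
  deg : ∀ a b, m a b * (e a b + 1) = Fintype.card G
  top : ∀ a b, ρ a b (Fin.last _) ≠ 0
  nrm : ∀ a b (T : ℕ), T ≤ Fintype.card G → algebraMap k Ω (ρ a b (Fin.last _)) ^ m a b *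
    ∏ g, ((T : Ω) - (∑ i : Fin n, (c a : Ω) ^ (i : ℕ) * z g i) /
      ∑ i : Fin n, (c b : Ω) ^ (i : ℕ) * z g i) =
    (∑ j, algebraMap k Ω (ρ a b j) * (T : Ω) ^ (j : ℕ)) ^ m a b

variable {k : Type} [Field k] [NumberField k]

theorem lg_fin (k : Type) [Field k] [NumberField k] (r : ℕ) {n s : ℕ} {c : Fin s → ℤ}
    (hc : Function.Injective c) (hs : n < s) : ∃ C : ℝ,
    ∀ (L G : Type) [Field L] [NumberField L] [Algebra k L] [Group G] [Fintype G]
      (z : G → Fin n → L) (B : Matrix (Fin n) (Fin r) k) (gs : Fin r → G)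
      (e m : Fin s → Fin s → ℕ) (ρ : ∀ a b, Fin (e a b + 2) → k) (Y : ℝ), LgD c z B gs e m ρ →
      (∀ a b, logHeight (ρ a b) ≤ (e a b + 1) * Y) →
      ((s : ℝ) - n) * logHeight (mn B) ≤ r * s * Y + C := by
  obtain ⟨C, -, hC⟩ := pen n hc
  refine ⟨(r * (C / s + s * (2 * Real.log 2)) + (s - n) * Real.log r.factorial) * totalWeight k,
    fun L G _ _ _ _ _ z B gs e m ρ Y D hY => ?_⟩
  have s0 : (0 : ℝ) < s := Nat.cast_pos.2 (by omega)
  have s1 : (0 : ℝ) ≤ (s : ℝ) - n := sub_nonneg.2 (Nat.cast_le.2 hs.le)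
  have d0 : (0 : ℝ) < finrank k L := Nat.cast_pos.2 finrank_pos
  have g0 : (0 : ℝ) < Fintype.card G := Nat.cast_pos.2 Fintype.card_pos
  have tw : (totalWeight L : ℝ) = finrank k L * totalWeight k := by
    rw [NumberField.totalWeight_eq_finrank, NumberField.totalWeight_eq_finrank,
      ← finrank_mul_finrank ℚ k L, Nat.cast_mul, mul_comm]
  have h1 : ∀ g, finrank k L * logHeight (mn B) ≤
      ∑ j, logHeight (z (g * gs j)) + totalWeight L * Real.log r.factorial := fun g => by
    obtain ⟨δ, k1, k2⟩ := D.span g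
    obtain ⟨f, hf⟩ := Function.ne_iff.1 D.ne
    rw [← MP_651af7_nt.Final.logHeight_algebraMap, ← logHeight_smul_eq_logHeight _ k1]
    refine le_of_eq_of_le (congrArg _ (funext fun f => (k2 f).symm)) (lg_had fun e => ?_)
    exact mul_ne_zero k1 ((map_ne_zero _).2 hf) ((k2 f).symm.trans (congrFun e f))
  have h2 := sum_le_sum fun g (_ : g ∈ univ) => h1 g
  have h3 : ∀ j, ∑ g, logHeight (z (g * gs j)) = ∑ g, logHeight (z g) := fun j =>
    Equiv.sum_comp (Equiv.mulRight (gs j)) fun g => logHeight (z g)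
  rw [sum_add_distrib, sum_comm] at h2
  have h4 := sum_le_sum fun g (_ : g ∈ univ) => hC L (z g) _ (fun e => D.lin ⟨0, by omega⟩ g (by
    simp [e])) (fun _ => rfl) fun a => D.lin a g
  have h5 : ∀ a b, ∑ g, logHeight₁ ((∑ i : Fin n, (c a : L) ^ (i : ℕ) * z g i) /
      ∑ i : Fin n, (c b : L) ^ (i : ℕ) * z g i) ≤ Fintype.card G * (finrank k L * Y) +
        2 * Fintype.card G * (totalWeight L * Real.log 2) := fun a b => by
    refine (lg_root _ (ρ := fun j => algebraMap k L (ρ a b j)) (D.deg a b)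
      ((map_ne_zero _).2 (D.top a b)) (D.nrm a b)).trans (add_le_add_left ?_ _)
    rw [MP_651af7_nt.Final.logHeight_algebraMap, ← D.deg a b]
    refine (mul_le_mul_of_nonneg_left (mul_le_mul_of_nonneg_left (hY a b) d0.le)
      (Nat.cast_nonneg _)).trans_eq ?_
    push_cast
    ring
  have h6 := sum_le_sum fun a (_ : a ∈ univ) => sum_le_sum fun b (_ : b ∈ univ) => h5 a b
  rw [sum_add_distrib, sum_comm, ← mul_sum] at h4
  simp only [sum_comm (s := (univ : Finset G))] at h4
  simp only [h3, sum_const, card_univ, Fintype.card_fin, nsmul_eq_mul, tw] at h2 h4 h6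
  have h7 := mul_le_mul_of_nonneg_left h2 (mul_nonneg s1 s0.le)
  have h8 := mul_le_mul_of_nonneg_left (h4.trans (add_le_add_left h6 _)) (Nat.cast_nonneg (α := ℝ) r)
  refine le_of_mul_le_mul_left ?_ (mul_pos s0 (mul_pos g0 d0))
  have h9 : C = s * (C / s) := (mul_div_cancel₀ _ s0.ne').symm
  generalize C / s = C' at h9 ⊢
  subst h9
  linarith

/-- The span of the conjugates has at most the height `r s / (s - n)` times the share. -/
theorem lg (k : Type) [Field k] [NumberField k] (r : ℕ) {n s : ℕ} {c : Fin s → ℤ}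
    (hc : Function.Injective c) (hs : n < s) : ∃ C : ℝ,
    ∀ (Ω G : Type) [Field Ω] [Algebra k Ω] [Algebra.IsAlgebraic k Ω] [Group G] [Fintype G]
      (z : G → Fin n → Ω) (B : Matrix (Fin n) (Fin r) k) (gs : Fin r → G)
      (e m : Fin s → Fin s → ℕ) (ρ : ∀ a b, Fin (e a b + 2) → k) (Y : ℝ), LgD c z B gs e m ρ →
      (∀ a b, logHeight (ρ a b) ≤ (e a b + 1) * Y) →
      ((s : ℝ) - n) * logHeight (mn B) ≤ r * s * Y + C := by
  obtain ⟨C, hC⟩ := lg_fin k r hc hs
  refine ⟨C, fun Ω G _ _ _ _ _ z B gs e m ρ Y D hY => ?_⟩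
  let L := IntermediateField.adjoin k (Set.range fun p : G × Fin n => z p.1 p.2)
  have : FiniteDimensional k L := IntermediateField.finiteDimensional_adjoin fun x _ =>
    (Algebra.IsAlgebraic.isAlgebraic x).isIntegral
  have : NumberField L := NumberField.of_module_finite k L
  let y : G → Fin n → L := fun g i => ⟨z g i, IntermediateField.subset_adjoin _ _ ⟨(g, i), rfl⟩⟩
  have inj := (algebraMap L Ω).injective
  have y1 : ∀ g i, algebraMap L Ω (y g i) = z g i := fun _ _ => rfl
  have y2 : ∀ a : k, algebraMap L Ω (algebraMap k L a) = algebraMap k Ω a := fun _ => rfl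
  refine hC L G y B gs e m ρ Y ⟨D.ne, fun g => ?_, fun a g h => D.lin a g ?_, D.deg, D.top,
    fun a b T hT => inj ?_⟩ hY
  · obtain ⟨δ, k1, k2⟩ := D.span g
    obtain ⟨f₀, hf⟩ := Function.ne_iff.1 D.ne
    have k3 : ∀ f, algebraMap L Ω (mn (Matrix.of fun i j => y (g * gs j) i) f) =
        δ * algebraMap k Ω (mn B f) := fun f => by
      rw [← Es.mn_map, ← k2]
      rfl
    have k4 : algebraMap L Ω (mn (Matrix.of fun i j => y (g * gs j) i) f₀ /
        algebraMap k L (mn B f₀)) = δ := by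
      rw [map_div₀, k3, y2, mul_div_cancel_right₀ _ ((map_ne_zero _).2 hf)]
    exact ⟨_, fun h => k1 (k4.symm.trans ((congrArg _ h).trans (map_zero _))), fun f => inj (by
      rw [map_mul, k4, k3, y2])⟩
  · simpa only [map_sum, map_mul, map_pow, map_intCast, y1, map_zero] using
      congrArg (algebraMap L Ω) h
  · simpa only [map_sum, map_mul, map_pow, map_intCast, map_natCast, map_prod, map_sub, map_div₀,
      y1, y2] using D.nrm a b T hT

end Pool.Agent.Lib.MP_651af7_nt.Nc
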