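import Pool.Agent.Lib.MP_651af7_nt.Nc.Defs
import Pool.Agent.Lib.MP_651af7_nt.Nc.Lg
import Pool.Agent.Lib.MP_651af7_nt.Nc.Gal
import Pool.Agent.Lib.MP_651af7_nt.Nc.BV

/-! A gap vector that is algebraic over a field with the share property is rational over it. -/

namespace Pool.Agent.Lib.MP_651af7_nt.Nc

open MvPolynomial Height Filter Matrix Av As Finset
open Es (mn mn_map)

theorem rat_int {Ω : Type} [Field Ω] [CharZero Ω] {n : ℕ} {Z : Fin n → Ω} {a : Fin n}
    (ha : Z a ≠ 0) (s : ℕ) : ∃ c : Fin s → ℤ, Function.Injective c ∧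
      ∀ j, ∑ b : Fin n, (c j : Ω) ^ (b : ℕ) * Z b ≠ 0 := by
  classical
  obtain ⟨p, hp⟩ : ∃ p : Polynomial Ω, p = ∑ b : Fin n, Polynomial.monomial b (Z b) := ⟨_, rfl⟩
  have p0 : p ≠ 0 := fun h => ha (by
    have h1 := congrArg (fun f => Polynomial.coeff f a) (hp.symm.trans h)
    simpa only [Polynomial.finsetSum_coeff, Polynomial.coeff_monomial, Fin.val_inj, sum_ite_eq',
      mem_univ, if_true, Polynomial.coeff_zero] using h1)
  have h1 : {c : ℤ | p.IsRoot c}.Finite :=
    (Polynomial.finite_setOfPred_isRoot p0).preimage Int.cast_injective.injOn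
  have h2 : ∀ y, p.eval y = ∑ b : Fin n, y ^ (b : ℕ) * Z b := fun y => by
    rw [hp, Polynomial.eval_finsetSum]
    exact sum_congr rfl fun b _ => by rw [Polynomial.eval_monomial, mul_comm]
  let f := h1.infinite_compl.natEmbedding
  exact ⟨fun j => f j, fun j j' h => Fin.ext (f.injective (Subtype.ext h)),
    fun j h => (f j).2 ((h2 _).trans h)⟩

variable {k : Type} [Field k] [NumberField k] {α : Type} {U : Ultrafilter α} {M : Type} [Field M]
  [Algebra M (Up U k)] {q : α → ℝ} {γ : ℝ} {n : ℕ} {J : Type} {u : J → α → Fin n → k}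
  {z : α → Fin n → k} {a : Fin n}

omit [NumberField k] in
theorem rat_rep {r : ℕ} (B : Matrix (Fin n) (Fin r) M) : ∃ B' : α → Matrix (Fin n) (Fin r) k,
    (∀ i j, algebraMap M (Up U k) (B i j) = germ U fun m => B' m i j) ∧
      ∀ f, algebraMap M (Up U k) (mn B f) = germ U fun m => mn (B' m) f := by
  choose b hb using fun i j => germ_surj U (algebraMap M (Up U k) (B i j))
  refine ⟨fun m => (of b).map (Pi.evalRingHom (fun _ => k) m), fun i j => (hb i j).symm,
    fun f => ?_⟩
  rw [← mn_map, show B.map (algebraMap M (Up U k)) = (of b).map (germ U) from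
    ext fun i j => (hb i j).symm, mn_map]
  exact congrArg _ (funext fun m => (mn_map (Pi.evalRingHom (fun _ => k) m) _ f).symm)

/-- The lower bound for the height of the span. -/
theorem rat_low [Finite J] (hq : Tendsto q U atTop) (hγ : 0 < γ)
    (hu : ∀ j i, (germ U fun m => u j m i) ∈ Set.range (algebraMap M (Up U k)))
    (h : ∀ᶠ m in U, (∀ j, z m ⬝ᵥ u j m = 0) ∧ ∀ w, (∀ j, w ⬝ᵥ u j m = 0) →
      logHeight w < logHeight (z m) + γ * q m → ∃ t : k, w = t • z m)
    {r : ℕ} {τ : Fin r → Up U k} (hτ : LinearIndependent M τ)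
    {B : Matrix (Fin n) (Fin r) M} {e : Fin r → Fin n} (he : mn B e = 1)
    (hB : ∀ i, (germ U fun m => z m i / z m a) = ∑ j, B i j • τ j)
    {B' : α → Matrix (Fin n) (Fin r) k}
    (h1 : ∀ i j, algebraMap M (Up U k) (B i j) = germ U fun m => B' m i j)
    (h2 : ∀ f, algebraMap M (Up U k) (mn B f) = germ U fun m => mn (B' m) f) :
    ∃ C : ℝ, ∀ᶠ m in U, mn (B' m) ≠ 0 ∧
      r * logHeight (z m) + (r - 1 : ℝ) * (γ * q m) ≤ logHeight (mn (B' m)) + C := by
  obtain ⟨C, hC⟩ := bv (K := k) n r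
  choose v hv using hu
  have h3 : ∀ j l, ∀ᶠ m in U, (u j m ᵥ* B' m) l = 0 := fun j l => by
    have h4 : ∑ l, (∑ i, v j i * B i l) • τ l = 0 := by
      have h5 : ∑ i, (germ U fun m => u j m i) * (germ U fun m => z m i / z m a) = 0 := by
        simp only [← map_mul]
        rw [germ_sum, germ_eq_zero]
        refine h.mono fun m hm => ?_
        simp only [Pi.mul_apply, ← mul_div_assoc, ← sum_div]
        rw [← dotProduct, dotProduct_comm, hm.1, zero_div]
      rw [← h5]
      simp only [hB, ← hv, mul_sum, Algebra.smul_def, map_sum, map_mul, sum_mul, mul_assoc]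
      exact sum_comm
    have h5 := congrArg (algebraMap M (Up U k)) (Fintype.linearIndependent_iff.1 hτ _ h4 l)
    simp only [map_sum, map_mul, hv, h1, map_zero] at h5
    simp only [← map_mul] at h5
    rw [germ_sum, germ_eq_zero] at h5
    exact h5
  have h4 : ∀ᶠ m in U, mn (B' m) e ≠ 0 := by
    rw [← germ_ne_zero, ← h2, he, map_one]
    exact one_ne_zero
  refine ⟨C, ?_⟩
  filter_upwards [h, h4, eventually_all.2 fun j => eventually_all.2 (h3 j),
    hq.eventually_ge_atTop 0] with m g1 g2 g3 g4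
  have g5 : mn (B' m) ≠ 0 := fun h => g2 (congrFun h e)
  refine ⟨g5, hC _ _ _ g5 (mul_nonneg hγ.le g4) fun t ht => g1.2 _ (fun j => ?_) ht⟩
  rw [dotProduct_comm, dotProduct_mulVec, show u j m ᵥ* B' m = 0 from funext (g3 j),
    zero_dotProduct]

theorem rat_fin [Finite J] [CharZero M] (hS : Shr (k := k) U q M) (hB : Bdd (k := k) U q M)
    (hq : Tendsto q U atTop) (hγ : 0 < γ)
    (hu : ∀ j i, (germ U fun m => u j m i) ∈ Set.range (algebraMap M (Up U k)))
    (h : ∀ᶠ m in U, (∀ j, z m ⬝ᵥ u j m = 0) ∧ ∀ w, (∀ j, w ⬝ᵥ u j m = 0) →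
      logHeight w < logHeight (z m) + γ * q m → ∃ t : k, w = t • z m)
    (ha : ∀ᶠ m in U, z m a ≠ 0) (hz : ∀ b, IsAlgebraic M (germ U fun m => z m b / z m a))
    (b : Fin n) : (germ U fun m => z m b / z m a) ∈ Set.range (algebraMap M (Up U k)) := by
  classical
  obtain ⟨Y, hY⟩ : ∃ Y : Fin n → Up U k, Y = fun b => germ U fun m => z m b / z m a := ⟨_, rfl⟩
  have hY' : ∀ b, (germ U fun m => z m b / z m a) = Y b := fun b => by rw [hY]
  have Y1 : Y a = 1 := by
    rw [← hY', ← map_one (germ U), germ_eq]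
    exact ha.mono fun m hm => div_self hm
  have r0 : ∀ {r : ℕ} {τ : Fin r → Up U k} {B : Matrix (Fin n) (Fin r) M},
      (∀ i, Y i = ∑ j, B i j • τ j) → 1 ≤ r := fun {r τ B} h => Nat.pos_of_ne_zero fun h0 => by
    subst h0
    exact one_ne_zero (Y1.symm.trans ((h a).trans (Fin.sum_univ_zero _)))
  obtain ⟨Γ, hΓ⟩ : ∃ Γ : ℝ, ∀ᶠ m in U, logHeight (z m) ≤ Γ * q m := by
    obtain ⟨r, e, B, h1, h2, h3⟩ := gal_span (F := M) Y
    obtain ⟨B', h4, h5⟩ := rat_rep (U := U) (k := k) B
    obtain ⟨C, hC⟩ := rat_low hq hγ hu h h1 h2 (fun i => (hY' i).trans (h3 i)) h4 h5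
    choose c hc using fun f => hB _ _ (h5 f)
    have h6 : (1 : ℝ) ≤ r := by exact_mod_cast r0 h3
    refine ⟨∑ f, c f + 1, ?_⟩
    filter_upwards [hC, eventually_all.2 hc, hq.eventually_ge_atTop C, hq.eventually_ge_atTop 0]
      with m g1 g2 g3 g4
    have g5 := (logHeight_le_sum (mn (B' m))).trans (sum_le_sum fun f _ => g2 f)
    have g6 := mul_le_mul_of_nonneg_right h6 (logHeight_nonneg (z m))
    have g7 := mul_nonneg (sub_nonneg.2 h6) (mul_nonneg hγ.le g4)
    rw [← sum_mul] at g5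
    linarith [g1.2]
  obtain ⟨s₀, hs₀⟩ := exists_nat_ge ((2 * n * |Γ| + 2) / γ)
  rw [div_le_iff₀ hγ] at hs₀
  let K := AlgebraicClosure k
  let φ := upMap U (algebraMap k K)
  let : Algebra M (Up U K) := (φ.comp (algebraMap M _)).toAlgebra
  let ψ : Up U k →ₐ[M] Up U K := { φ with commutes' := fun _ => rfl }
  have := up_closed U K
  have : CharZero (Up U K) := charZero_of_injective_algebraMap (algebraMap M _).injective
  obtain ⟨c, hc, hc'⟩ := rat_int (Z := fun b => ψ (Y b)) (a := a) (by rw [Y1]; simp) (n + s₀ + 1)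
  obtain ⟨G, _, _, w, r, e, B, gs, l, h1, h2, h3, h4, h5, h6, h7⟩ :=
    exists_gal (F := M) (fun b => (hY' b ▸ hz b).algHom ψ) c hc'
  replace h1 : LinearIndependent M fun j => Y (e j) := h1.of_comp ψ.toLinearMap
  have hψ : Function.Injective ψ := φ.injective
  replace h3 : ∀ i, Y i = ∑ j, B i j • Y (e j) := fun i => hψ (by
    simpa only [map_sum, map_smul] using h3 i)
  rcases (r0 h3).eq_or_lt with rfl | hr
  · have h8 := h3 a
    have h9 := h3 b
    rw [Fin.sum_univ_one, Algebra.smul_def] at h8 h9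
    refine ⟨B b 0 / B a 0, ?_⟩
    rw [hY', map_div₀, h9, div_eq_mul_inv, eq_inv_of_mul_eq_one_right (h8.symm.trans Y1)]
  exfalso
  obtain ⟨B', b1, b2⟩ := rat_rep (U := U) (k := k) B
  obtain ⟨C, hC⟩ := rat_low hq hγ hu h h1 h2 (fun i => (hY' i).trans (h3 i)) b1 b2
  obtain ⟨C₁, hC₁⟩ := lg k r hc (show n < n + s₀ + 1 by omega)
  choose d μ p p1 p2 p3 p4 p5 p6 using h7
  choose ρ hρ using fun a b (j : Fin (d a b + 2)) =>
    germ_surj U (algebraMap M (Up U k) ((p a b).coeff j))
  choose w' hw using fun g i => germ_surj U (w g i)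
  choose δ δ0 hδ using h4
  choose δ' hδ' using fun g => germ_surj U (δ g)
  obtain ⟨L, hL⟩ : ∃ L : Fin (n + s₀ + 1) → α → k,
    L = fun j m => ∑ i : Fin n, (c j : k) ^ (i : ℕ) * z m i := ⟨_, rfl⟩
  have hs : (0 : ℝ) < (n + s₀ + 1 : ℕ) := by positivity
  have a1 : ∀ j, (germ U fun m => L j m / z m a) = ∑ i : Fin n, (c j : Up U k) ^ (i : ℕ) * Y i :=
    fun j => by
      simp only [← hY', ← map_intCast (germ U), ← map_pow, ← map_mul]
      rw [germ_sum, hL]
      exact congrArg _ (funext fun m => by simp [sum_div, mul_div_assoc])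
  have a2 : ∀ j j', ∀ᶠ m in U, logHeight (fun i => ρ j j' i m) ≤
      (d j j' + 1) * logHeight₁ (L j m / L j' m) + 1 / (2 * (n + s₀ + 1 : ℕ)) * q m := fun j j' => by
    refine hS _ _ (fun m => L j m / L j' m) (fun m i => ρ j j' i m) (p1 j j') (p3 j j') ?_
      (fun i => (hρ j j' i).symm) _ (by positivity)
    have e1 : (germ U fun m => L j m / L j' m) =
        (germ U fun m => L j m / z m a) / germ U fun m => L j' m / z m a := by
      rw [← gapA_germ_div, germ_eq]
      exact ha.mono fun m hm => (div_div_div_cancel_right₀ hm _ _).symm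
    refine hψ ?_
    rw [map_zero, ← Polynomial.aeval_algHom_apply, e1, a1, a1, ← p4 j j']
    simp only [map_div₀, map_sum, map_mul, map_pow, map_intCast]
  have a3 : ∀ j j', ∃ C : ℝ, ∀ m, logHeight₁ (L j m / L j' m) ≤ C + logHeight (z m) := fun j j' =>
    ⟨_, fun m => by
      rw [logHeight₁_div_eq_logHeight]
      convert logHeight_linearMap_apply_le
        (fun t : Fin 2 × Fin n => ((c (![j, j'] t.1) : k) ^ (t.2 : ℕ))) (z m) using 2
      funext t
      rw [hL]
      fin_cases t <;> rfl⟩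
  choose C₂ hC₂ using a3
  obtain ⟨C₃, hC₃⟩ := Finite.exists_le fun t : Fin (n + s₀ + 1) × Fin (n + s₀ + 1) => C₂ t.1 t.2
  have a4 : ∀ j g, l j g = germ U fun m => ∑ i : Fin n, (c j : K) ^ (i : ℕ) * w' g i m :=
    fun j g => by
      simp only [h5, ← hw, ← map_intCast (germ (k := K) U), ← map_pow, ← map_mul]
      rw [germ_sum]
      exact congrArg _ (funext fun m => by simp)
  have a5 : ∀ g f, ∀ᶠ m in U, mn (of fun i j => w' (g * gs j) i m) f =
      δ' g m * algebraMap k K (mn (B' m) f) := fun g f => by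
    have e1 := congrFun (hδ g) f
    rw [Pi.smul_apply, mn_map, smul_eq_mul, ← hδ', show (of fun i j => w (g * gs j) i) =
      (of fun i j => w' (g * gs j) i).map (germ U) from ext fun i j => (hw _ _).symm, mn_map,
      show algebraMap M (Up U K) (mn B f) = φ (algebraMap M _ (mn B f)) from rfl, b2, upMap_germ,
      ← map_mul, germ_eq] at e1
    exact e1.mono fun m hm => (mn_map (Pi.evalRingHom (fun _ => K) m) _ f).trans hm
  have a6 : ∀ j j', ∀ᶠ m in U, ρ j j' (Fin.last _) m = 1 := fun j j' => by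
    refine (germ_eq U (g := 1)).1 ?_
    rw [map_one, hρ, Fin.val_last, ← p3, (p2 j j').coeff_natDegree, map_one]
  have a7 : ∀ j j' (T : Fin (Fintype.card G + 1)), ∀ᶠ m in U,
      ∏ g, (((T : ℕ) : K) - (∑ i : Fin n, (c j : K) ^ (i : ℕ) * w' g i m) /
        ∑ i : Fin n, (c j' : K) ^ (i : ℕ) * w' g i m) =
      (∑ i : Fin (d j j' + 2), algebraMap k K (ρ j j' i m) * ((T : ℕ) : K) ^ (i : ℕ)) ^ μ j j' :=
    fun j j' T => by
      have e1 := p6 j j' T
      rw [Polynomial.eval_eq_sum_range, p3, sum_range] at e1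
      simp only [a4, map_sum, map_mul, map_pow, map_natCast,
        show ∀ y, algebraMap M (Up U K) y = φ (algebraMap M _ y) from fun _ => rfl, ← hρ] at e1
      simp only [φ, upMap_germ, ← gapA_germ_div, ← map_natCast (germ (k := K) U), ← map_sub, ← map_prod,
        ← map_pow, ← map_mul, ← map_sum] at e1
      exact ((germ_eq U).1 e1).mono fun m hm => by simpa using hm
  have a8 : ∀ᶠ m in U, LgD c (fun g i => w' g i m) (B' m) gs d μ fun j j' i => ρ j j' i m := by
    filter_upwards [hC, eventually_all.2 fun g => eventually_all.2 (a5 g),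
      eventually_all.2 fun g => germ_ne_zero.1 (hδ' g ▸ δ0 g),
      eventually_all.2 fun j => eventually_all.2 fun g => germ_ne_zero.1 (a4 j g ▸ h6 j g),
      eventually_all.2 fun j => eventually_all.2 (a6 j),
      eventually_all.2 fun j => eventually_all.2 fun j' => eventually_all.2 (a7 j j')]
      with m g1 g2 g3 g4 g5 g6
    refine ⟨g1.1, fun g => ⟨_, g3 g, g2 g⟩, g4, p5, fun j j' => (g5 j j').trans_ne one_ne_zero,
      fun j j' T hT => ?_⟩
    rw [g5, map_one, one_pow, one_mul]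
    exact g6 j j' ⟨T, Nat.lt_succ_of_le hT⟩
  obtain ⟨m, ⟨⟨⟨⟨g1, g2⟩, g3⟩, g4⟩, g5⟩, g6⟩ := (((((a8.and hC).and hΓ).and
    (eventually_all.2 fun j => eventually_all.2 (a2 j))).and (hq.eventually_ge_atTop 0)).and
    (hq.eventually_gt_atTop (r * (n + s₀ + 1 : ℕ) * C₃ + C₁ + (s₀ + 1) * C))).exists
  have g7 := hC₁ K G _ _ gs d μ _
    (C₃ + logHeight (z m) + 1 / (2 * (n + s₀ + 1 : ℕ)) * q m) g1 fun j j' => (g4 j j').trans (by
      have e1 := mul_le_mul_of_nonneg_left ((hC₂ j j' m).trans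
        (add_le_add_left (hC₃ (j, j')) _)) (show (0 : ℝ) ≤ d j j' + 1 by positivity)
      have e2 : 0 ≤ (d j j' : ℝ) * (1 / (2 * (n + s₀ + 1 : ℕ)) * q m) := by positivity
      linarith)
  have g8 : (r : ℝ) * (n + s₀ + 1 : ℕ) * (1 / (2 * (n + s₀ + 1 : ℕ)) * q m) = r * q m / 2 := by
    field_simp
  have r2 : (1 : ℝ) ≤ r - 1 := by
    have : (2 : ℝ) ≤ r := by exact_mod_cast hr
    linarith
  have g9 := mul_le_mul_of_nonneg_left g2.2 (show (0 : ℝ) ≤ s₀ + 1 by positivity)
  have g10 := mul_le_mul_of_nonneg_left (g3.trans (mul_le_mul_of_nonneg_right (le_abs_self Γ) g5))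
    (show (0 : ℝ) ≤ r * n by positivity)
  have g11 := mul_le_mul_of_nonneg_right hs₀ (mul_nonneg (zero_le_one.trans r2) g5)
  have g12 := mul_le_mul_of_nonneg_right r2 g5
  have g13 := mul_le_mul_of_nonneg_right r2 (show 0 ≤ n * |Γ| * q m by positivity)
  have g14 := mul_nonneg (zero_le_one.trans r2) (mul_nonneg hγ.le g5)
  rw [mul_add, mul_add, g8] at g7
  push_cast at g6 g7
  linarith

theorem gap_rat {M : Type} [Field M] [Algebra M (Up U k)] {q : α → ℝ} (hS : Shr (k := k) U q M)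
    (hB : Bdd (k := k) U q M) (hq : Tendsto q U atTop) {γ : ℝ} (hγ : 0 < γ) {ι κ : Type} [Fintype κ]
    {x : α → ι → k} (hx : ∀ a, gv U x a ∈ Set.range (algebraMap M (Up U k)))
    (hk : ∀ c, algebraMap k (Up U k) c ∈ Set.range (algebraMap M (Up U k)))
    {Cs : Finset (κ → MvPolynomial ι k)} {z : α → κ → k}
    (h : ∀ᶠ m in U, Gap Cs (γ * q m) (x m) (z m)) {a : κ} (ha : ∀ᶠ m in U, z m a ≠ 0)
    (hz : ∀ b, IsAlgebraic M (germ U fun m => z m b / z m a)) (b : κ) :
    (germ U fun m => z m b / z m a) ∈ Set.range (algebraMap M (Up U k)) := by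
  have : CharZero (Up U k) := charZero_of_injective_algebraMap (algebraMap k _).injective
  have : CharZero M := (algebraMap M (Up U k)).charZero
  let σ := Fintype.equivFin κ
  have key := rat_fin (J := Cs) (u := fun j m i => eval (x m) (j.1 (σ.symm i)))
    (z := fun m => z m ∘ σ.symm) (a := σ a) hS hB hq hγ (fun j i => ?_)
    (h.mono fun m hm => ⟨fun j => ?_, fun w h1 h2 => ?_⟩) (by simpa using ha)
    (fun b => by simpa using hz (σ.symm b)) (σ b)
  · simpa only [Function.comp_apply, Equiv.symm_apply_apply] using key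
  · rw [← aeval_germ]
    change _ ∈ (algebraMap M (Up U k)).range
    induction j.1 (σ.symm i) using MvPolynomial.induction_on with
    | C c => simpa using hk c
    | add p p' h1 h2 => simpa only [map_add] using add_mem h1 h2
    | mul_X p c h1 => simpa only [map_mul, aeval_X] using mul_mem h1 (hx c)
  · exact (comp_equiv_dotProduct_comp_equiv (z m) (fun l => eval (x m) (j.1 l)) σ.symm).trans
      (hm.orth j.1 j.2)
  · obtain ⟨t, ht⟩ := hm.gap (w ∘ σ) (fun v hv => by
      rw [← h1 ⟨v, hv⟩, ← comp_equiv_dotProduct_comp_equiv _ _ σ.symm, Function.comp_assoc,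
        σ.self_comp_symm]
      rfl) (by rwa [logHeight_comp_equiv, ← logHeight_comp_equiv σ.symm (z m)])
    exact ⟨t, funext fun i => by simpa using congrFun ht (σ.symm i)⟩

end Pool.Agent.Lib.MP_651af7_nt.Nc
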