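import Pool.Agent.Lib.MP_651af7_nt.Nc.Rel
import Pool.Agent.Lib.MP_651af7_nt.Nc.Msp
import Pool.Agent.Lib.MP_651af7_nt.Nc.Rat

/-! Gap vectors are rational over the function field of the coset. -/

namespace Pool.Agent.Lib.MP_651af7_nt.Nc

open MvPolynomial Height Filter Matrix Av As Av.AV
open IntermediateField (adjoin)

variable {k ι β α : Type} [Field k] [NumberField k] [Fintype ι] {U : Ultrafilter α} {A : AV k ι}
  {a₀ : ι} {e μ : ℕ} {ρ : Fin (e + 2) → MvPolynomial ι k}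

omit [NumberField k] [Fintype ι] in
theorem gap_aeval {F : Type} [Field F] [Algebra k F] {M : Subfield F}
    (h1 : ∀ c, algebraMap k F c ∈ M) {y : ι → F} (h2 : ∀ c, y c ∈ M) (f : MvPolynomial ι k) :
    aeval y f ∈ M := by
  induction f using MvPolynomial.induction_on with
  | C c => simpa only [aeval_C] using h1 c
  | add p q hp hq => simpa only [map_add] using add_mem hp hq
  | mul_X p c hp => simpa only [map_mul, aeval_X] using mul_mem hp (h2 c)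

omit [NumberField k] [Fintype ι] in
theorem gap_keep {K F : Type} [Field K] [Field F] [Algebra K F]
    {ρ' : Fin (e + 2) → MvPolynomial ι K} {w : ι → F} (h1 : ∃ a, w a = 1) (hm : Sh.Min ρ' w) {t : F}
    (h0 : ∑ j, aeval w (ρ' j) * t ^ (j : ℕ) = 0) (c : Fin (e + 1) → F)
    (hc : ∀ i, c i ∈ adjoin K (Set.range w)) (h : ∑ i, c i * t ^ (i : ℕ) = 0) : c = 0 := by
  have h2 := Sh.div_deg h1 (hm t h0)
    (∑ i : Fin (e + 1), Polynomial.C (⟨c i, hc i⟩ : adjoin K (Set.range w)) *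
      Polynomial.X ^ (i : ℕ)) (Polynomial.degree_sum_fin_lt _) (by simpa using h)
  funext i
  have h3 := congrArg (fun p => Polynomial.coeff p i) h2
  simpa [Polynomial.coeff_X_pow, Fin.val_inj, Subtype.ext_iff] using h3

theorem gap_mem (hρ : ∀ j, (ρ j).IsHomogeneous μ) (hl : ρ (Fin.last _) ∉ A.I) (hG : Sh.Gm A ρ)
    {x : α → ι → k} {θ : α → k} (hgen : ∀ (f : MvPolynomial ι k) (n : ℕ), f.IsHomogeneous n →
      f ∉ A.I → ∀ᶠ m in U, eval (x m) f ≠ 0)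
    (h0 : ∀ᶠ m in U, ∑ j, eval (x m) (ρ j) * θ m ^ (j : ℕ) = 0) {κ : Type} [Fintype κ]
    {Cs : Finset (κ → MvPolynomial ι k)} {γ : ℝ} (hγ : 0 < γ) {q : α → ℝ}
    (hq : Tendsto q U atTop) {z : α → κ → k}
    (h : ∀ᶠ m in U, Aff A a₀ (x m) ∧ logHeight (x m) ≤ q m ∧ Gap Cs (γ * q m) (x m) (z m))
    {a : κ} (ha : ∀ᶠ m in U, z m a ≠ 0) : ∃ M : Subfield (Up U k),
      (∀ c, algebraMap k (Up U k) c ∈ M) ∧ (∀ c, gv U x c ∈ M) ∧ Keep M (germ U θ) e ∧
      ∀ b, (germ U fun m => z m b / z m a) ∈ M := by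
  have hP : ∀ m, ∃ p : A.Pt k, Aff A a₀ (x m) → Rep p (x m) := fun m => by
    by_cases c : Aff A a₀ (x m)
    · exact (exists_rep_of_ne (A := A) (fun e => one_ne_zero (c.1.symm.trans (congrFun e a₀)))
        (by simpa only [aeval_eq_eval] using c.2)).imp fun _ h _ => h
    · exact ⟨0, fun h => (c h).elim⟩
  choose P hP using hP
  have halg := fun b => gap_alg hγ hq h a b
  by_cases hx : Tendsto (fun n => ht (P n)) U atTop
  swap
  · obtain ⟨W, hW⟩ := not_forall.1 (mt tendsto_atTop.2 hx)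
    obtain ⟨p, -, hp⟩ := (Ultrafilter.eventually_exists_mem_iff (P := fun p n => P n = p)
      (A.finite_ht_le (K := k) W)).1 ((Ultrafilter.eventually_not.2 hW).mono fun n hn =>
        ⟨P n, (not_le.1 hn).le, rfl⟩)
    have h1 : ∀ c, gv U x c = algebraMap k (Up U k) (p.co c / p.co a₀) := fun c => by
      refine (germ_eq U).2 ((h.and hp).mono fun n ⟨g1, g2⟩ => ?_)
      obtain ⟨u, hu⟩ := hP n g1.1
      have g3 := g1.1.1
      rw [hu] at g3
      change x n c = p.co c / p.co a₀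
      rw [hu, ← g2, eq_div_iff (right_ne_zero_of_mul_eq_one g3)]
      linear_combination (P n).co c * g3
    have : Algebra.IsAlgebraic k (adjoin k (Set.range (gv U x))) :=
      IntermediateField.isAlgebraic_adjoin (by
        rintro _ ⟨c, rfl⟩
        rw [h1]
        exact isIntegral_algebraMap)
    exact ⟨(algebraMap k (Up U k)).fieldRange, fun c => ⟨c, rfl⟩, fun c => ⟨_, (h1 c).symm⟩,
      Or.inl fun _ h => h, fun b => relCl_up _ ((mem_cl'.1 (halg b)).restrictScalars k)⟩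
  obtain ⟨B, hB, y, s, hH, Z, Y, aK, a', H⟩ := A.exists_coset P hx
  have hY : td (Sm k hH) (rat Y.co) = B.dim := Cn.Cos.gen (h := hB) ⟨H.gX, H.gY, H.gens, H.add,
    H.sub, H.co, H.rep, H.small, H.lo, 1, .of_forall fun n => (one_mul _).ge⟩
  obtain ⟨Θ, d, hΘ, hΘ', hm⟩ := hG B hB (Sh.infinite_pt hH)
  obtain ⟨a₁, b₀, v, hv₀⟩ := Sh.exists_norm H
  have hv : ∀ᶠ n in U, (Rep (y n) (v n) ∧ v n a₁ = 1) ∧ ∃ c : k, c ≠ 0 ∧
      ∀ (G : MvPolynomial ι k) (d : ℕ), G.IsHomogeneous d →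
        eval (v n) (A.shift (a' n) G b₀) = c ^ d * eval (x n) G := by
    filter_upwards [hv₀, h] with n ⟨g1, g2, c, g3, g4⟩ g5
    obtain ⟨u, hu⟩ := hP n g5.1
    refine ⟨⟨g1, g2⟩, c / u, div_ne_zero g3 u.ne_zero, fun G d hG => ?_⟩
    rw [g4 G d hG, show x n = _ from funext hu, eval_mul_of_hom hG, ← mul_assoc, ← mul_pow,
      div_mul_cancel₀ _ u.ne_zero]
  have hv1 := hv.mono fun _ g => g.1
  have hYv : Rep Y (gv U v) := H.gY.rep (hv1.mono fun n g => g.1)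
  rw [B.tr_rat_rep hYv] at hY
  have e1 : ∀ G, aeval (gv U v) (A.shift aK.co G b₀) =
      germ U fun n => eval (v n) (A.shift (a' n) G b₀) := fun G =>
    (Sh.repr_shift H G b₀).aeval' v
  have m1 : ∀ c, algebraMap k (Up U k) c ∈ adjoin (Sm k hH) (Set.range (gv U v)) := fun c =>
    IntermediateField.algebraMap_mem _ (algebraMap k (Sm k hH) c)
  have m0 : ∀ f : MvPolynomial ι (Sm k hH),
      aeval (gv U v) f ∈ adjoin (Sm k hH) (Set.range (gv U v)) :=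
    gap_aeval (M := (adjoin (Sm k hH) (Set.range (gv U v))).toSubfield)
      (IntermediateField.algebraMap_mem _) fun c => IntermediateField.subset_adjoin _ _ ⟨c, rfl⟩
  have m2 : ∀ c, gv U x c ∈ adjoin (Sm k hH) (Set.range (gv U v)) := fun c => by
    have : gv U x c = aeval (gv U v) (A.shift aK.co (X c) b₀) /
        aeval (gv U v) (A.shift aK.co (X a₀) b₀) := by
      have n0 : ∀ᶠ n in U, eval (v n) (A.shift (a' n) (X a₀) b₀) ≠ 0 ∧
          x n c * eval (v n) (A.shift (a' n) (X a₀) b₀) = eval (v n) (A.shift (a' n) (X c) b₀) := by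
        filter_upwards [hv, h] with n ⟨_, u, g1, g2⟩ g3
        simp only [g2 _ _ (isHomogeneous_X _ _), eval_X, g3.1.1, pow_one, mul_one]
        exact ⟨g1, mul_comm _ _⟩
      rw [e1, e1, eq_div_iff (germ_ne_zero.2 (n0.mono fun _ g => g.1)), ← map_mul]
      exact (germ_eq U).2 (n0.mono fun _ g => g.2)
    exact this ▸ div_mem (m0 _) (m0 _)
  have v1 : gv U v a₁ = 1 := ((germ_eq U).2 (hv1.mono fun n g => g.2)).trans (map_one (germ U))
  have hl' : aeval (gv U v) (A.shift aK.co (ρ (Fin.last _)) b₀) ≠ 0 := by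
    rw [e1]
    refine germ_ne_zero.2 ?_
    filter_upwards [hv, hgen _ _ (hρ _) hl] with n ⟨_, c, g1, g⟩ g2
    rw [g _ _ (hρ _)]
    exact mul_ne_zero (pow_ne_zero _ g1) g2
  have hmin := (irp_of_minG (B := B) (ρ' := fun j => A.shift aK.co (ρ j) b₀)
    (ρ := fun n j => A.shift (a' n) (ρ j) b₀) (v := v) (a₁ := a₁)
    (hv1.mono fun n g => ⟨g.2, fun f hf => by simpa only [aeval_eq_eval] using g.1.zero f hf⟩)
    ((B.gen_iff (fun e => one_ne_zero (v1.symm.trans (congrFun e a₁))) hYv.zero).2 hY)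
    (fun j => Sh.repr_shift H (ρ j) b₀) hl' (by
      filter_upwards [hv, h, H.rep, hgen _ _ hΘ hΘ'] with n ⟨g1, c, g3, g4⟩ g5 g6 g7
      have n1 : ∀ (G : MvPolynomial ι k) (d : ℕ), G.IsHomogeneous d → eval (x n) G ≠ 0 →
          A.shift (a' n) G b₀ ∉ B.I := fun G d h1 h2 h3 => by
        have h4 := g1.1.zero _ h3
        rw [aeval_eq_eval, g4 G d h1] at h4
        exact mul_ne_zero (pow_ne_zero _ g3) h2 h4
      exact Sh.min_shift hB g6 (hm (s n)) ⟨a₀, n1 _ _ (isHomogeneous_X _ _) (by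
        rw [eval_X, g5.1.1]
        exact one_ne_zero)⟩ hΘ (n1 _ _ hΘ g7))).min hl'
  refine ⟨(adjoin (Sm k hH) (Set.range (gv U v))).toSubfield, m1, m2,
    Or.inr (gap_keep ⟨a₁, v1⟩ hmin ?_), fun b => ?_⟩
  · simp only [e1, ← map_pow, ← map_mul, ← map_sum]
    refine germ_eq_zero.2 ?_
    filter_upwards [hv, h0] with n ⟨_, c, _, g⟩ g2
    simp only [Finset.sum_apply, Pi.mul_apply, Pi.pow_apply, g _ _ (hρ _), mul_assoc,
      ← Finset.mul_sum, g2, mul_zero]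
  · obtain ⟨w, hw⟩ := gap_rat (share hv1 hY) (bd hv1) hH (half_pos hγ) (x := x)
      (fun c => ⟨⟨_, m2 c⟩, rfl⟩) (fun c => ⟨⟨_, m1 c⟩, rfl⟩) (Cs := Cs) (z := z) (by
        filter_upwards [h, H.le] with n g1 g2
        have g3 : logHeight (x n) = ht (P n) := (hP n g1.1).htK
        have g4 := mul_le_mul_of_nonneg_left (g2.trans (mul_le_mul_of_nonneg_left
          (g3 ▸ g1.2.1) two_pos.le)) hγ.le
        exact ⟨g1.2.2.ne, g1.2.2.orth, fun w h1 h2 => g1.2.2.gap w h1 (by linarith)⟩) ha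
      (fun b => IsAlgebraic.tower_top_of_subalgebra_le (B := ((adjoin (Sm k hH)
        (Set.range (gv U v))).restrictScalars k).toSubalgebra) (Algebra.adjoin_le (by
          rintro _ ⟨c, rfl⟩
          exact m2 c)) (mem_cl.1 (halg b))) b
    exact hw ▸ w.2

theorem gapT (hρ : ∀ j, (ρ j).IsHomogeneous μ) (hl : ρ (Fin.last _) ∉ A.I) (hG : Sh.Gm A ρ)
    {r : ℕ} {𝓕 : Filter β} {x : β → ι → k} {θ : β → k} {t : β → Fin r → k}
    (hg : ∀ (f : MvPolynomial ι k) (n : ℕ), f.IsHomogeneous n → f ∉ A.I →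
      ∀ᶠ b in 𝓕, eval (x b) f ≠ 0)
    (h0 : ∀ᶠ b in 𝓕, ∑ j, eval (x b) (ρ j) * θ b ^ (j : ℕ) = 0) (hI : HJ 𝓕 x θ e t) :
    GT A a₀ 𝓕 x t := by
  intro κ _ Cs M γ hγ
  by_contra hcon
  have hS : ∀ τ : {W : Set β // W ∈ 𝓕} × ℝ, ∃ y : β × ℝ × (κ → k), (y.1 ∈ τ.1.1 ∧ τ.2 ≤ y.2.1) ∧
      (Aff A a₀ (x y.1) ∧ logHeight (x y.1) ≤ y.2.1 ∧ Gap Cs (γ * y.2.1) (x y.1) y.2.2) ∧
      y.2.2 ᵥ* M.map (eval (x y.1)) ≠ 0 ∧ (y.2.2 ᵥ* M.map (eval (x y.1))) ⬝ᵥ t y.1 = 0 := fun τ => by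
    by_contra h
    exact hcon ⟨τ.1.1, τ.1.2, τ.2, fun b h0 q z h1 h2 h3 h4 h5 h6 =>
      h ⟨(b, q, z), ⟨h0, h1⟩, ⟨h2, h3, h4⟩, h5, h6⟩⟩
  have : Nonempty (β × ℝ × (κ → k)) := (hS (⟨Set.univ, univ_mem⟩, 0)).nonempty
  obtain ⟨U, hU⟩ := gapF_ex _ hS fun τ τ' => ⟨(⟨τ.1.1 ∩ τ'.1.1, inter_mem τ.1.2 τ'.1.2⟩,
    max τ.2 τ'.2), fun y hy => ⟨⟨⟨hy.1.1.1, (le_max_left _ _).trans hy.1.2⟩, hy.2⟩,
      ⟨hy.1.1.2, (le_max_right _ _).trans hy.1.2⟩, hy.2⟩⟩
  have h := (hU (⟨Set.univ, univ_mem⟩, 0)).mono fun y hy => hy.2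
  obtain ⟨a, ha⟩ : ∃ a, ∀ᶠ m : β × ℝ × (κ → k) in U, m.2.2 a ≠ 0 :=
    Ultrafilter.eventually_exists_iff.1 (h.mono fun m hm => Function.ne_iff.1 hm.1.2.2.ne)
  obtain ⟨l₀, hl₀⟩ : ∃ l, ∀ᶠ m : β × ℝ × (κ → k) in U,
      (m.2.2 ᵥ* M.map (eval (x m.1))) l ≠ 0 :=
    Ultrafilter.eventually_exists_iff.1 (h.mono fun m hm => Function.ne_iff.1 hm.2.1)
  let w : β × ℝ × (κ → k) → Fin r → k := fun m => (m.2.2 a)⁻¹ • (m.2.2 ᵥ* M.map (eval (x m.1)))
  have hw : ∀ l, gv U w l = ∑ b, (germ U fun m => m.2.2 b / m.2.2 a) *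
      aeval (gv U fun m => x m.1) (M b l) := fun l => by
    simp only [aeval_germ, ← map_mul]
    rw [germ_sum]
    refine congrArg _ (funext fun m => ?_)
    simp only [w, Pi.smul_apply, smul_eq_mul, vecMul, dotProduct, Matrix.map_apply,
      Finset.mul_sum, Pi.mul_apply]
    exact Finset.sum_congr rfl fun b _ => by ring
  have hj : Tendsto (Prod.fst : β × ℝ × (κ → k) → β) U 𝓕 := fun W hW =>
    (hU (⟨W, hW⟩, 0)).mono fun y hy => hy.1.1
  have hq : Tendsto (fun y : β × ℝ × (κ → k) => y.2.1) U atTop := tendsto_atTop.2 fun Q =>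
    (hU (⟨Set.univ, univ_mem⟩, Q)).mono fun y hy => hy.1.2
  obtain ⟨N, n1, n2, n3, n4⟩ := gap_mem (U := U) (a₀ := a₀) hρ hl hG (x := fun m => x m.1)
    (θ := fun m => θ m.1) (fun f n h1 h2 => hj.eventually (hg f n h1 h2)) (hj.eventually h0)
    (Cs := Cs) hγ hq (z := fun m => m.2.2) (h.mono fun y hy => hy.1) ha
  have h1 := hI _ U Prod.fst hj N n1 n2 n3 (gv U w)
    (fun l => by
      rw [hw]
      exact ⟨sum_mem fun b _ => mul_mem (gap_alg hγ hq (h.mono fun y hy => hy.1) a b)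
        (gapA_aeval_mem _ _), sum_mem fun b _ => mul_mem (n4 b) (gap_aeval n1 n2 _)⟩)
    (by
      rw [gv_dot]
      refine germ_eq_zero.2 (h.mono fun m hm => ?_)
      simp only [w, smul_dotProduct, hm.2.2, smul_zero])
  exact germ_ne_zero.2 ((ha.and hl₀).mono fun m hm => mul_ne_zero (inv_ne_zero hm.1) hm.2)
    (congrFun h1 l₀)

end Pool.Agent.Lib.MP_651af7_nt.Nc
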