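import Pool.Agent.Lib.MP_651af7_nt.Nc.Defs

/-! Independence over the fields in which the root keeps its degree. -/

namespace Pool.Agent.Lib.MP_651af7_nt.Nc

open MvPolynomial Filter Matrix Av As Fc
open IntermediateField (adjoin)

section abs

variable {F K E : Type} [Field F] [Field K] [Field E] [Algebra F K] [Algebra F E] {e : ℕ} {τ : K}
  {p : Polynomial F}

theorem hj_pow (hp : p ≠ 0) (hd : p.natDegree ≤ e + 1) (h0 : Polynomial.aeval τ p = 0) {z : K}
    (hz : z ∈ adjoin F {τ}) : ∃ c : Fin (e + 1) → F, z = ∑ i, c i • τ ^ (i : ℕ) := by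
  have ha : IsAlgebraic F τ := ⟨p, hp, h0⟩
  have h1 : z ∈ Algebra.adjoin F {τ} := by
    rwa [← IntermediateField.adjoin_simple_toSubalgebra_of_isAlgebraic ha]
  rw [Algebra.adjoin_singleton_eq_range_aeval] at h1
  obtain ⟨g, rfl⟩ := h1
  have h2 : (g %ₘ minpoly F τ).degree < (e + 1 : ℕ) :=
    (Polynomial.degree_modByMonic_lt g (minpoly.monic ha.isIntegral)).trans_le
      ((minpoly.degree_le_of_ne_zero F τ hp h0).trans (Polynomial.degree_le_of_natDegree_le hd))
  refine ⟨fun i => (g %ₘ minpoly F τ).coeff i, ?_⟩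
  have h3 : (g %ₘ minpoly F τ).natDegree < e + 1 := by
    by_cases h : g %ₘ minpoly F τ = 0
    · simp [h]
    · exact (Polynomial.natDegree_lt_iff_degree_lt h).2 h2
  rw [Fin.sum_univ_eq_sum_range (fun i => (g %ₘ minpoly F τ).coeff i • τ ^ i),
    ← Polynomial.aeval_eq_sum_range' h3,
    Polynomial.aeval_modByMonic_eq_self_of_root (minpoly.aeval _ _)]
  rfl

theorem hj_abs [CharZero F] (φ : K →ₐ[F] E) (hp : p ≠ 0) (hd : p.natDegree ≤ e + 1)
    (h0 : Polynomial.aeval τ p = 0) (hc : ∀ z : K, IsAlgebraic F z → z ∈ adjoin F {τ}) {r : ℕ}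
    {t : Fin r → K} (ht : LinearIndependent F t) (M : Subfield E)
    (hM : ∀ c : F, algebraMap F E c ∈ M)
    (hK : ∀ c : Fin (e + 1) → E, (∀ i, c i ∈ M) → ∑ i, c i * φ τ ^ (i : ℕ) = 0 → c = 0)
    {w : Fin r → E} (hw : ∀ l, IsAlgebraic F (w l) ∧ w l ∈ M) (h : ∑ l, w l * φ (t l) = 0) :
    w = 0 := by
  classical
  have ha : IsAlgebraic F τ := ⟨p, hp, h0⟩
  have : FiniteDimensional F (adjoin F {τ}) :=
    IntermediateField.adjoin.finiteDimensional ha.isIntegral
  let : Algebra (adjoin F {τ}) E := (φ.toRingHom.comp (algebraMap _ K)).toAlgebra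
  have : IsScalarTower F (adjoin F {τ}) E := .of_algebraMap_eq fun c => (φ.commutes c).symm
  let V := Submodule.span (adjoin F {τ}) (Set.range t)
  have : FiniteDimensional (adjoin F {τ}) V :=
    FiniteDimensional.span_of_finite _ (Set.finite_range t)
  have := Module.Free.of_divisionRing (adjoin F {τ}) V
  let b := Module.finBasis (adjoin F {τ}) V
  have hu : LinearIndependent (adjoin F {τ}) fun m => (b m : K) :=
    b.linearIndependent.map' V.subtype V.ker_subtype
  let c := fun l m => b.repr ⟨t l, Submodule.subset_span ⟨l, rfl⟩⟩ m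
  have h1 : ∀ l, t l = ∑ m, (c l m : K) * b m := fun l => by
    have := congrArg Subtype.val (b.sum_repr ⟨t l, Submodule.subset_span ⟨l, rfl⟩⟩)
    rw [Submodule.coe_sum] at this
    exact this.symm
  choose d hd' using fun l m => hj_pow hp hd h0 (c l m).2
  have h2 : (fun m => ∑ l, w l * φ (c l m)) = 0 := by
    refine ind (K0 := adjoin F {τ}) { φ.toRingHom with commutes' := fun _ => rfl }
      (fun z hz => ⟨⟨z, hc z (hz.restrictScalars F)⟩, rfl⟩) hu (fun m => ?_) ?_
    · refine mem_algebraicClosure_iff.1 (sum_mem fun l _ => mul_mem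
        (mem_algebraicClosure_iff.2 ((hw l).1.tower_top _)) ?_)
      exact IntermediateField.algebraMap_mem _ (c l m)
    · rw [← h]
      simp only [Finset.sum_mul]
      rw [Finset.sum_comm]
      refine Finset.sum_congr rfl fun l _ => ?_
      rw [h1 l, map_sum, Finset.mul_sum]
      exact Finset.sum_congr rfl fun m _ => by rw [map_mul, mul_assoc]; rfl
  have h3 : ∀ m, (fun i => ∑ l, w l * algebraMap F E (d l m i)) = 0 := fun m => by
    refine hK _ (fun i => sum_mem fun l _ => mul_mem (hw l).2 (hM _)) ?_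
    rw [← congrFun h2 m |>.trans (Pi.zero_apply m)]
    simp only [Finset.sum_mul]
    rw [Finset.sum_comm]
    refine Finset.sum_congr rfl fun l _ => ?_
    rw [hd' l m, map_sum, Finset.mul_sum]
    exact Finset.sum_congr rfl fun i _ => by
      rw [map_smul, map_pow, Algebra.smul_def, mul_assoc]
  have h4 : LinearIndependent F fun l (q : _ × Fin (e + 1)) => d l q.1 q.2 := by
    refine Fintype.linearIndependent_iff.2 fun g hg => Fintype.linearIndependent_iff.1 ht g ?_
    have h5 : ∀ m i, ∑ l, g l * d l m i = 0 := fun m i => by simpa using congrFun hg (m, i)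
    calc ∑ l, g l • t l = ∑ l, ∑ m, ∑ i, (g l * d l m i) • (τ ^ (i : ℕ) * b m) := by
          refine Finset.sum_congr rfl fun l _ => ?_
          rw [h1 l, Finset.smul_sum]
          refine Finset.sum_congr rfl fun m _ => ?_
          rw [hd' l m, Finset.sum_mul, Finset.smul_sum]
          exact Finset.sum_congr rfl fun i _ => by rw [smul_mul_assoc, mul_smul]
      _ = 0 := by
          rw [Finset.sum_comm]
          refine Finset.sum_eq_zero fun m _ => ?_
          rw [Finset.sum_comm]
          exact Finset.sum_eq_zero fun i _ => by rw [← Finset.sum_smul, h5, zero_smul]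
  funext l
  refine Fintype.linearIndependent_iff.1 ((linearIndependent_algebraMap_comp_iff (S := E)).2 h4)
    w (funext fun q => ?_) l
  simpa using congrFun (h3 q.1) q.2

end abs

variable {k K ι β : Type} [Field k] [CharZero k] [Field K] [Algebra k K] [Fintype ι]
  {𝓕 : Filter β} {v : β → K → k} {y : ι → K} {e : ℕ}

omit [CharZero k] in
/-- Independence over the constants. -/
theorem hj_const (h : Sp 𝓕 v) {r : ℕ} {t : Fin r → K} (ht : LinearIndependent k t) {L : Type}
    [Field L] [Algebra k L] {α : Type} {U : Ultrafilter α} {j : α → β} (hj : Tendsto j U 𝓕)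
    {a : Fin r → L} (h0 : ∀ᶠ m in U, ∑ l, a l * algebraMap k L (v (j m) (t l)) = 0) : a = 0 := by
  funext l
  refine (Module.forall_dual_apply_eq_zero_iff k (a l)).1 fun f => ?_
  refine Fintype.linearIndependent_iff.1 ht (fun l => f (a l)) ?_ l
  by_contra hn
  obtain ⟨m, h1, h2, h3, h4, h5⟩ := (h0.and (hj.eventually ((h.ne hn).and
    ((h.sum Finset.univ fun l => f (a l) • t l).and
      ((eventually_all.2 fun l => h.mul (algebraMap k K (f (a l))) (t l)).and
        (eventually_all.2 fun l => h.const (f (a l)))))))).exists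
  refine h2 (h3.trans ?_)
  rw [← map_zero f, ← h1, map_sum]
  exact Finset.sum_congr rfl fun l _ => by
    rw [Algebra.smul_def, h4, h5, mul_comm (a l), ← Algebra.smul_def, map_smul, smul_eq_mul,
      mul_comm]

omit [Fintype ι] in
theorem hj (h : Sp 𝓕 v) {τ : K} {p : Polynomial (adjoin k (Set.range y))} (hp : p ≠ 0)
    (hd : p.natDegree ≤ e + 1) (h0 : Polynomial.aeval τ p = 0)
    (hc : ∀ z : K, IsAlgebraic (adjoin k (Set.range y)) z →
      z ∈ adjoin (adjoin k (Set.range y)) {τ}) {r : ℕ} {t : Fin r → K}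
    (ht : LinearIndependent (adjoin k (Set.range y)) t) (L : Type) [Field L] [Algebra k L]
    [FiniteDimensional k L] : HJ 𝓕 (fun p a => algebraMap k L (v p (y a)))
      (fun p => algebraMap k L (v p τ)) e fun p l => algebraMap k L (v p (t l)) := by
  intro α U j hj M m1 m2 hM w hw h1
  rcases hM with hM | hM
  · choose a ha using fun l => hM _ (hw l).2
    have h2 : a = 0 := by
      refine hj_const h (ht.restrict_scalars' k) hj (germ_eq_zero.1 ?_)
      rw [← h1, dotProduct, show (fun m => ∑ l, a l * algebraMap k L (v (j m) (t l))) =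
        ∑ l, (fun _ => a l) * fun m => algebraMap k L (v (j m) (t l)) from
          funext fun m => by simp, map_sum]
      exact Finset.sum_congr rfl fun l _ => by rw [map_mul, ← ha l]; rfl
    funext l
    rw [← ha l, h2, Pi.zero_apply, map_zero, Pi.zero_apply]
  let φ : K →+* Up U L :=
    { toFun := fun η => germ U fun m => algebraMap k L (v (j m) η)
      map_one' := (germ_eq U (g := 1)).2 ((hj.eventually h.one).mono fun m hm => by simp [hm])
      map_zero' := germ_eq_zero.2 ((hj.eventually h.zero).mono fun m hm => by simp [hm])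
      map_add' := fun a b => by
        rw [← map_add, germ_eq]
        exact (hj.eventually (h.add a b)).mono fun m hm => by simp [hm]
      map_mul' := fun a b => by
        rw [← map_mul, germ_eq]
        exact (hj.eventually (h.mul a b)).mono fun m hm => by simp [hm] }
  let : Algebra k (Up U L) := ((algebraMap L _).comp (algebraMap k L)).toAlgebra
  let : Algebra (adjoin k (Set.range y)) (Up U L) := (φ.comp (algebraMap _ K)).toAlgebra
  have : IsScalarTower k L (Up U L) := .of_algebraMap_eq fun _ => rfl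
  have e1 : ∀ c, φ (algebraMap k K c) = algebraMap L _ (algebraMap k L c) := fun c =>
    (germ_eq U).2 ((hj.eventually (h.const c)).mono fun m hm => congrArg _ hm)
  have : IsScalarTower k (adjoin k (Set.range y)) (Up U L) :=
    .of_algebraMap_eq fun c => (e1 c).symm
  refine hj_abs { φ with commutes' := fun _ => rfl } hp hd h0 hc ht M (fun c => ?_) hM
    (fun l => ⟨alg_of_cl (k := k) ?_ (hw l).1, (hw l).2⟩) h1
  · have : (adjoin k (Set.range y)).toSubfield ≤ M.comap φ := by
      rw [IntermediateField.adjoin_toSubfield, Subfield.closure_le]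
      rintro _ (⟨c, rfl⟩ | ⟨a, rfl⟩)
      · exact (congrArg (· ∈ M) (e1 c)).mpr (m1 _)
      · exact m2 a
    exact this c.2
  · rintro _ ⟨a, rfl⟩
    exact ⟨⟨y a, IntermediateField.subset_adjoin _ _ ⟨a, rfl⟩⟩, rfl⟩

end Pool.Agent.Lib.MP_651af7_nt.Nc
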