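import Pool.Agent.Lib.MP_651af7_nt.Av.Voc

/-! Subfields of the ultrapower over which roots have their share of the height. -/

namespace Pool.Agent.Lib.MP_651af7_nt.Nc

open Height Filter Av

variable {k α : Type} [Field k] [NumberField k] (U : Ultrafilter α) (q : α → ℝ) (M : Type) [Field M]
  [Algebra M (Up U k)]

/-- A root of an irreducible polynomial over `M` has its share of the height. -/
def Shr : Prop :=
  ∀ (d : ℕ) (p : Polynomial M) (t : α → k) (a : α → Fin (d + 2) → k), Irreducible p →
    p.natDegree = d + 1 → Polynomial.aeval (germ U t) p = 0 →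
    (∀ j : Fin (d + 2), algebraMap M (Up U k) (p.coeff j) = germ U fun m => a m j) →
    ∀ ε : ℝ, 0 < ε → ∀ᶠ m in U, logHeight (a m) ≤ (d + 1) * logHeight₁ (t m) + ε * q m

/-- The elements of `M` have height `O (q)`. -/
def Bdd : Prop :=
  ∀ (b : M) (f : α → k), algebraMap M (Up U k) b = germ U f →
    ∃ C : ℝ, ∀ᶠ m in U, logHeight₁ (f m) ≤ C * q m

end Pool.Agent.Lib.MP_651af7_nt.Nc
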