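import Pool.Agent.Lib.MP_651af7_nt.Av.Voc

/-! The ultrapower of an algebraically closed field is algebraically closed. -/

namespace Pool.Agent.Lib.MP_651af7_nt.Nc

open Finset Av

variable {α : Type} (U : Ultrafilter α)

theorem up_closed (Ω : Type) [Field Ω] [IsAlgClosed Ω] : IsAlgClosed (Up U Ω) := by
  refine IsAlgClosed.of_exists_root _ fun p hp hi => ?_
  have d0 : 0 < p.natDegree := hi.natDegree_pos
  choose a ha using fun i => germ_surj U (p.coeff i)
  have h : ∀ m, ∃ x : Ω, x ^ p.natDegree + ∑ i ∈ range p.natDegree, a i m * x ^ i = 0 := fun m => by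
    have h1 : (∑ i ∈ range p.natDegree, Polynomial.monomial i (a i m)).degree < p.natDegree :=
      (Polynomial.degree_sum_le _ _).trans_lt ((Finset.sup_lt_iff (WithBot.bot_lt_coe _)).2
        fun i hi => (Polynomial.degree_monomial_le _ _).trans_lt (Nat.cast_lt.2 (mem_range.1 hi)))
    obtain ⟨x, hx⟩ := IsAlgClosed.exists_root
      (Polynomial.X ^ p.natDegree + ∑ i ∈ range p.natDegree, Polynomial.monomial i (a i m)) (by
        rw [Polynomial.degree_add_eq_left_of_degree_lt (by rwa [Polynomial.degree_X_pow]),
          Polynomial.degree_X_pow]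
        exact_mod_cast d0.ne')
    exact ⟨x, by simpa [Polynomial.eval_finsetSum] using hx⟩
  choose x hx using h
  refine ⟨germ U x, ?_⟩
  rw [Polynomial.eval_eq_sum_range, sum_range_succ, hp.coeff_natDegree, one_mul, add_comm]
  simp only [← ha, ← map_pow, ← map_mul, ← map_sum, ← map_add]
  rw [← map_zero (germ U)]
  refine congrArg _ (funext fun m => ?_)
  simpa using hx m

/-- The map of ultrapowers induced by a map of fields. -/
noncomputable def upMap {k Ω : Type} [Field k] [Field Ω] (φ : k →+* Ω) : Up U k →+* Up U Ω where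
  toFun := Filter.Germ.map φ
  map_one' := congrArg (germ U) (funext fun _ => φ.map_one)
  map_zero' := congrArg (germ U) (funext fun _ => φ.map_zero)
  map_mul' x y := by
    obtain ⟨f, rfl⟩ := germ_surj U x
    obtain ⟨g, rfl⟩ := germ_surj U y
    exact congrArg (germ U) (funext fun m => φ.map_mul (f m) (g m))
  map_add' x y := by
    obtain ⟨f, rfl⟩ := germ_surj U x
    obtain ⟨g, rfl⟩ := germ_surj U y
    exact congrArg (germ U) (funext fun m => φ.map_add (f m) (g m))

theorem upMap_germ {k Ω : Type} [Field k] [Field Ω] (φ : k →+* Ω) (f : α → k) :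
    upMap U φ (germ U f) = germ U fun m => φ (f m) := rfl

end Pool.Agent.Lib.MP_651af7_nt.Nc
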