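import Pool.Agent.Lib.MP_651af7_nt.Sh.OTop
import Pool.Agent.Lib.MP_651af7_nt.As.SqD
import Pool.Agent.Lib.MP_651af7_nt.Nc.UpC
import Pool.Agent.Lib.MP_651af7_nt.Nc.RDefs

/-! Irreducibility of an equation over the field of a point: vocabulary. -/

namespace Pool.Agent.Lib.MP_651af7_nt.Nc

open MvPolynomial Finset Av
open IntermediateField (adjoin)
open Jn (rr)

/-- The equation is irreducible over the field generated by `w`. -/
def Irp {K ι F : Type} [Field K] [Field F] [Algebra K F] {e : ℕ}
    (ρ : Fin (e + 2) → MvPolynomial ι K) (w : ι → F) : Prop :=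
  ∀ p : Polynomial (adjoin K (Set.range w)), p.map (algebraMap _ F) = rr ρ w → Irreducible p

/-- The equation is minimal at every generic point of `B`. -/
def MinG {k ι : Type} [Field k] (B : AV k ι) {e : ℕ} (ρ : Fin (e + 2) → MvPolynomial ι k) : Prop :=
  ∀ (F : Type) [Field F] [Algebra k F] (v : ι → F), v ≠ 0 → (∀ f ∈ B.I, aeval v f = 0) →
    Gen B.I v → Sh.Min ρ v

/-- A common denominator for finitely many elements of the field of a point. -/
theorem frac {k ι K : Type} [Field k] [Field K] [Algebra k K] {y : ι → K} (hy : ∃ a, y a = 1)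
    {τ : Type} [Fintype τ] (z : τ → adjoin k (Set.range y)) :
    ∃ (e : ℕ) (A : τ → MvPolynomial ι k) (B : MvPolynomial ι k), (∀ i, (A i).IsHomogeneous e) ∧
      B.IsHomogeneous e ∧ aeval y B ≠ 0 ∧ ∀ i, aeval y (A i) = aeval y B * z i := by
  classical
  have h1 : ∀ i, ∃ A B : MvPolynomial ι k, aeval y B ≠ 0 ∧ aeval y A = aeval y B * z i := by
    intro i
    obtain ⟨A, B, e⟩ := (IntermediateField.mem_adjoin_range_iff k y _).1 (z i).2
    by_cases hB : aeval y B = 0
    · exact ⟨0, 1, by simp, by simp [e, hB]⟩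
    · exact ⟨A, B, hB, by rw [e, mul_div_cancel₀ _ hB]⟩
  choose A B hB hA using h1
  obtain ⟨a, ha⟩ := hy
  let Q : Option τ → MvPolynomial ι k := fun o =>
    o.elim (∏ i, B i) fun i => A i * ∏ j ∈ univ.erase i, B j
  choose N hN using fun o => Sh.div_hom ha (Q o)
  choose R h2 h3 using fun o => hN o (∑ o, N o)
    (single_le_sum (fun _ _ => Nat.zero_le _) (mem_univ o))
  refine ⟨_, fun i => R (some i), R none, fun i => h2 _, h2 _, ?_, fun i => ?_⟩
  · rw [h3]
    exact (map_prod (aeval y) B univ).trans_ne (prod_ne_zero_iff.2 fun i _ => hB i)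
  · rw [h3, h3]
    simp only [Q, Option.elim, ← mul_prod_erase univ B (mem_univ i), map_mul, hA]
    ring

end Pool.Agent.Lib.MP_651af7_nt.Nc
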