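import Pool.Agent.Lib.MP_651af7_nt.Nc.Sub

/-! The local inequality and the slope inequality over covers. -/

namespace Pool.Agent.Lib.MP_651af7_nt.Nc

open MvPolynomial Finset Height NumberField Filter Real Module Fc Tb
open IntermediateField (adjoin)
open Rt (Pl av mu)
open Es (vol)
open Ex (lx)

variable {k K ι β : Type} [Field k] [NumberField k] [Field K] [Algebra k K] [Fintype ι]
  {𝓕 : Filter β} {v : β → K → k} {J : Ideal (MvPolynomial ι k)} {y : ι → K}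

theorem Dn.loc (D : Dn J y) (h : Sp 𝓕 v) {κ : Type} [Fintype κ] {f : κ → K} (hf : f ≠ 0)
    {q s : ℕ} {u : Fin q → Fin s → K} (hu : ∀ j, u j ≠ 0) {r d b : ℕ} {δ A : Fin q → ℕ}
    {T : Fin r → K} (hT : LinearIndependent (adjoin k (Set.range y)) T)
    (hO : ∀ (O : ValuationSubring K) (e : κ) (c : Fin q → Fin s),
      (∀ z : adjoin k (Set.range y), (z : K) ∈ O) → Max O f e → (∀ j, Max O (u j) (c j)) →
      ∃ G : Matrix (Fin r) (Fin r) (adjoin k (Set.range y)), G.det ≠ 0 ∧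
        (∏ l, (∑ m, G l m • T m) / f e ^ d) ^ b * ∏ j, (f e ^ δ j / u j (c j)) ^ A j ∈ O) :
    ∃ (τ : Type) (_ : Fintype τ) (G : τ → Matrix (Fin r) (Fin r) (adjoin k (Set.range y))),
      (∀ t, (G t).det ≠ 0) ∧ Ev 𝓕 (fun p => logHeight fun i => v p (y i)) fun p w E => ∃ t,
        ∑ j, A j * log ((⨆ i, w (v p (f i))) ^ δ j / ⨆ l, w (v p (u j l))) ≤
          b * ∑ l, lx w (fun m => v p (T m)) (v p (∑ m, G t l m • T m)) +
            b * r * (d * log (⨆ i, w (v p (f i))) - log (⨆ m, w (v p (T m)))) + E := by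
  classical
  let I := {x : κ × (Fin q → Fin s) // f x.1 ≠ 0 ∧ ∀ j, u j (x.2 j) ≠ 0}
  let R : I → Subalgebra (adjoin k (Set.range y)) K := fun x => Algebra.adjoin _
    ((Set.range fun i => f i / f x.1.1) ∪
      Set.range fun l : Fin q × Fin s => u l.1 l.2 / u l.1 (x.1.2 l.1))
  let z : I → Matrix (Fin r) (Fin r) (adjoin k (Set.range y)) → K := fun x G =>
    (∏ l, (∑ m, G l m • T m) / f x.1.1 ^ d) ^ b * ∏ j, (f x.1.1 ^ δ j / u j (x.1.2 j)) ^ A j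
  have h2 : ∀ (x : I) (O : ValuationSubring K), ∃ G, G.det ≠ 0 ∧
      ((∀ a : R x, (a : K) ∈ O) → z x G ∈ O) := fun x O => by
    by_cases hP : ∀ a : R x, (a : K) ∈ O
    · exact (hO O x.1.1 x.1.2 (fun a => hP (algebraMap _ (R x) a))
        ⟨x.2.1, fun i => hP ⟨_, Algebra.subset_adjoin (.inl ⟨i, rfl⟩)⟩⟩ fun j =>
        ⟨x.2.2 j, fun l => hP ⟨_, Algebra.subset_adjoin (.inr ⟨(j, l), rfl⟩)⟩⟩).imp
          fun G H => ⟨H.1, fun _ => H.2⟩
    · exact ⟨1, by simp, fun h => (hP h).elim⟩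
  choose G g1 g2 using h2
  have s0 : ∀ x O l, ∑ m, G x O l m • T m ≠ 0 := fun x O l e' => g1 x O
    (Matrix.det_eq_zero_of_row_eq_zero l (Fintype.linearIndependent_iff.1 hT _ e'))
  have h3 : ∀ x : I, ∃ Λ : Finset (ValuationSubring K), Ev 𝓕
      (fun p => logHeight fun i => v p (y i)) fun p w E =>
        ((∀ i, w (v p (f i)) ≤ w (v p (f x.1.1))) ∧
          ∀ j l, w (v p (u j l)) ≤ w (v p (u j (x.1.2 j)))) →
        ∃ O : Λ, w (v p (z x (G x O))) ≤ exp E := fun x => by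
    obtain ⟨Λ, hΛ⟩ := cpt (R := R x) 0 (fun O (_ : Unit) => z x (G x O))
      (fun O _ => mul_ne_zero (pow_ne_zero _ (prod_ne_zero_iff.2 fun l _ =>
        div_ne_zero (s0 _ _ _) (pow_ne_zero _ x.2.1))) (prod_ne_zero_iff.2 fun j _ =>
          pow_ne_zero _ (div_ne_zero (pow_ne_zero _ x.2.1) (x.2.2 j)))) fun O o1 _ _ => g2 x O o1
    refine ⟨Λ, pick h (R := R x) (fun a => D.sm_adjoin h ?_ a.2) _ (hΛ fun _ => ())⟩
    rintro _ (⟨i, rfl⟩ | ⟨l, rfl⟩)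
    · exact sm_div h fun p w hc => hc.1 i
    · exact sm_div h fun p w hc => hc.2 _ _
  choose Λ h3 using h3
  refine ⟨Σ x, Λ x, inferInstance, fun t => G t.1 t.2, fun t => g1 _ _, ?_⟩
  refine (ev_all (fun _ => logHeight_nonneg _) h3).mono ?_
  have h4 : ∀ t : Σ x, Λ x, ∀ᶠ p in 𝓕, (∀ l, v p (∑ m, G t.1 t.2 l m • T m) ≠ 0) ∧
      v p (z t.1 (G t.1 t.2)) = (∏ l, v p (∑ m, G t.1 t.2 l m • T m) / v p (f t.1.1.1) ^ d) ^ b *
        ∏ j, (v p (f t.1.1.1) ^ δ j / v p (u j (t.1.1.2 j))) ^ A j := by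
    intro ⟨x, O⟩
    filter_upwards [eventually_all.2 fun l => h.ne (s0 x O l), h.inv (f x.1.1),
      eventually_all.2 fun j => h.inv (u j (x.1.2 j)),
      h.aeval (Sum.elim (Sum.elim (fun l => ∑ m, G x O l m • T m) fun j => (u j (x.1.2 j))⁻¹)
        ![f x.1.1, (f x.1.1)⁻¹]) ((∏ l, X (.inl (.inl l)) * X (.inr 1) ^ d) ^ b *
          ∏ j, (X (.inr 0) ^ δ j * X (.inl (.inr j))) ^ A j)] with p e1 e2 e3 e4
    exact ⟨e1, by simpa [e2, e3, z, div_eq_mul_inv] using e4⟩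
  obtain ⟨o, ho⟩ := Function.ne_iff.1 hf
  choose o' ho' using fun j => Function.ne_iff.1 (hu j)
  filter_upwards [h.zero, h.ne ho, eventually_all.2 fun j => h.ne (ho' j), eventually_all.2 h4,
    eventually_all.2 fun l => h.ne (hT.ne_zero l)] with p e0 e1 e2 e3 e4 w E _ h5
  have key : ∀ {σ : Type} [Finite σ] (g : σ → K) (o : σ), v p (g o) ≠ 0 → ∃ e, g e ≠ 0 ∧
      0 < w (v p (g e)) ∧ ⨆ i, w (v p (g i)) = w (v p (g e)) ∧
      ∀ i, w (v p (g i)) ≤ w (v p (g e)) := fun {σ} _ g o h0 => by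
    have : Nonempty σ := ⟨o⟩
    obtain ⟨e, he⟩ := exists_eq_ciSup_of_finite (f := fun i => w (v p (g i)))
    have h7 : ∀ i, w (v p (g i)) ≤ w (v p (g e)) := fun i =>
      he ▸ Finite.le_ciSup (fun i => w (v p (g i))) i
    have h8 := (w.pos h0).trans_le (h7 o)
    exact ⟨e, fun e' => by simp [e', e0] at h8, h8, he.symm, h7⟩
  obtain ⟨e, a1, a2, a3, a4⟩ := key f o e1
  choose c c1 c2 c3 c4 using fun j => key (u j) (o' j) (e2 j)
  obtain ⟨O, b1⟩ := h5 ⟨(e, c), a1, c1⟩ ⟨a4, c4⟩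
  refine ⟨⟨_, O⟩, ?_⟩
  have b3 := fun l => w.pos ((e3 ⟨_, O⟩).1 l)
  have b4 := fun l => div_pos (b3 l) (pow_pos a2 d)
  have b5 := fun j => div_pos (pow_pos a2 (δ j)) (c2 j)
  have b6 := pow_pos (prod_pos fun l (_ : l ∈ univ) => b4 l) b
  have b7 := prod_pos fun j (_ : j ∈ univ) => pow_pos (b5 j) (A j)
  have b8 : ∀ l, lx w (fun m => v p (T m)) (v p (∑ m, G _ O l m • T m)) =
      log (⨆ m, w (v p (T m))) - log (w (v p (∑ m, G _ O l m • T m))) := fun l => log_div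
    ((w.pos (e4 l)).trans_le (Finite.le_ciSup (fun m => w (v p (T m))) l)).ne' (b3 l).ne'
  simp only [(e3 ⟨_, O⟩).2, map_div₀, map_mul, map_pow, map_prod] at b1
  have b9 := log_le_log (mul_pos b6 b7) b1
  rw [log_mul b6.ne' b7.ne', log_pow, log_exp, log_prod fun l _ => (b4 l).ne',
    log_prod fun j _ => (pow_pos (b5 j) _).ne'] at b9
  simp only [log_div (b3 _).ne' (pow_pos a2 _).ne', log_pow] at b9
  simp only [a3, c3, b8]
  simp only [sum_sub_distrib, sum_const, card_univ, Fintype.card_fin, nsmul_eq_mul] at b9 ⊢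
  linarith

theorem slope (D : Dn J y) (h : Sp 𝓕 v) {κ : Type} [Fintype κ] {f : κ → K} (hf : f ≠ 0)
    {q s : ℕ} {u : Fin q → Fin s → K} (hu : ∀ j, u j ≠ 0) {r d b : ℕ} {δ A : Fin q → ℕ}
    {T : Fin r → K} (hT : LinearIndependent (adjoin k (Set.range y)) T)
    (hO : ∀ (O : ValuationSubring K) (e : κ) (c : Fin q → Fin s),
      (∀ z : adjoin k (Set.range y), (z : K) ∈ O) → Max O f e → (∀ j, Max O (u j) (c j)) →
      ∃ G : Matrix (Fin r) (Fin r) (adjoin k (Set.range y)), G.det ≠ 0 ∧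
        (∏ l, (∑ m, G l m • T m) / f e ^ d) ^ b * ∏ j, (f e ^ δ j / u j (c j)) ^ A j ∈ O)
    {E : Type} [Fintype E] (B : Matrix E (Fin r) (adjoin k (Set.range y))) {e₀ : Fin r → E}
    (hB : mne B e₀ ≠ 0) {i₀ : E} (hz : ∑ m, B i₀ m • T m ≠ 0) {ε : ℝ} (hε : 0 < ε) :
    ∃ W ∈ 𝓕, ∀ S : Finset (FinitePlace k), ∃ C : ℝ, ∀ p ∈ W,
      ∑ j, A j * iS S (fun w => log ((⨆ i, w (v p (f i))) ^ δ j / ⨆ l, w (v p (u j l)))) +
        b * logHeight (mne (B.map fun z => v p z)) ≤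
      b * r * (d * iS S (ls fun i => v p (f i)) + oS S (ls fun i => v p (∑ m, B i m • T m))) +
        ε * (logHeight (fun a => v p (y a)) + logHeight fun i => v p (∑ m, B i m • T m)) + C := by
  obtain ⟨τ, _, G, g1, g2⟩ := D.loc h hf hu hT hO
  obtain ⟨W₁, w1, b1⟩ := D.sub h hT B hB G g1 (ε := ε / 2 / (b + 1)) (by positivity)
  obtain ⟨W₂, w2, b2⟩ := g2 (ε / 2) (by positivity)
  have w3 : ∀ t l, ∀ᶠ p in 𝓕, v p (∑ m, G t l m • T m) ≠ 0 := fun t l => h.ne fun e =>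
    g1 t (Matrix.det_eq_zero_of_row_eq_zero l (Fintype.linearIndependent_iff.1 hT _ e))
  refine ⟨_, inter_mem w1 (inter_mem w2 ((h.ne hz).and ((eventually_all.2 fun t =>
    eventually_all.2 (w3 t)).and (eventually_all.2 fun l => h.ne (hT.ne_zero l))))), fun S => ?_⟩
  obtain ⟨C₁, b1⟩ := b1 S
  obtain ⟨C₂, b2⟩ := b2 S
  refine ⟨b * C₁ + C₂, fun p ⟨p1, p2, p3, p4, p5⟩ => ?_⟩
  obtain ⟨e, e0, e1, e2⟩ := b2 p p2
  choose t ht using fun s => e2 s _ le_rfl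
  have z0 : (fun i => v p (∑ m, B i m • T m)) ≠ 0 := fun e => p3 (congrFun e i₀)
  have c1 := mul_le_mul_of_nonneg_left (b1 p p1 t) (Nat.cast_nonneg (α := ℝ) b)
  have c2 : ∀ s l, lx (av s) (fun m => v p (T m)) (v p (∑ m, G (t s) l m • T m)) =
      lx (av s) (fun i => v p (∑ m, B i m • T m)) (v p (∑ m, G (t s) l m • T m)) +
        (log (⨆ m, av s (v p (T m))) - ls (fun i => v p (∑ m, B i m • T m)) (av s)) := fun s l => by
    have k1 := ((av s).pos (p4 (t s) l)).ne'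
    rw [lx, lx, ls, log_div (((av s).pos (p5 l)).trans_le
      (Finite.le_ciSup (fun m => av s (v p (T m))) l)).ne' k1, log_div (Es.sup_pos _ z0).ne' k1]
    ring
  have c3 := sum_le_sum fun s (_ : s ∈ univ) =>
    mul_le_mul_of_nonneg_left (ht s) (Nat.cast_nonneg (α := ℝ) (mu s))
  have c4 := congrArg (fun t => (b : ℝ) * r * t) (ht_split S z0)
  have d1 : b * (ε / 2 / (b + 1)) ≤ ε / 2 := by
    rw [← mul_div_assoc, div_le_iff₀ (by positivity)]
    linarith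
  have c5 := logHeight_nonneg fun a => v p (y a)
  have c6 := logHeight_nonneg fun i => v p (∑ m, B i m • T m)
  have d2 := mul_le_mul_of_nonneg_right d1 (add_nonneg c5 c6)
  have d3 := mul_nonneg hε.le c6
  simp only [c2, sum_add_distrib, sum_const, card_univ, Fintype.card_fin, nsmul_eq_mul] at c3
  rw [vol] at c1
  simp only [← iS_mul, ← iS_sum]
  simp only [iS, ls, mul_add, mul_sub, sum_add_distrib, sum_sub_distrib, mul_assoc,
    mul_left_comm (mu _ : ℝ) (b : ℝ), mul_left_comm (mu _ : ℝ) (r : ℝ), ← mul_sum (a := (b : ℝ)),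
    ← mul_sum (a := (r : ℝ))] at c1 c3 c4 e1 d2 ⊢
  linarith

end Pool.Agent.Lib.MP_651af7_nt.Nc
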