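import Pool.Agent.Lib.MP_651af7_nt.Nc.UpC
import Pool.Agent.Lib.MP_651af7_nt.Av.LosR
import Pool.Agent.Lib.MP_651af7_nt.Av.TrA

/-! The function field over a closed subfield is closed in the ultrapower. -/

namespace Pool.Agent.Lib.MP_651af7_nt.Nc

open MvPolynomial Filter Av
open IntermediateField (adjoin)

variable {k K R σ α : Type} [Field k] [Field K] [Field R] {U : Ultrafilter α} [Algebra k R]
  [Algebra K (Up U k)] [Algebra K (Up U R)] [Finite σ] {b : σ → R}

omit [Finite σ] in
/-- A root of a monic equation with polynomial coefficients is a polynomial of bounded degree. -/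
theorem rc_poly (hi : AlgebraicIndependent k b) (hb : adjoin k (Set.range b) = ⊤) {d D : ℕ}
    {q : ℕ → MvPolynomial σ k} (hq : ∀ i ∈ Finset.range d, (q i).totalDegree ≤ D) {w : R}
    (h : w ^ d + ∑ i ∈ Finset.range d, aeval b (q i) * w ^ i = 0) :
    ∃ β : MvPolynomial σ k, β.totalDegree ≤ D ∧ aeval b β = w := by
  let _ : Algebra (MvPolynomial σ k) R := (aeval b : MvPolynomial σ k →ₐ[k] R).toRingHom.toAlgebra
  have : FaithfulSMul (MvPolynomial σ k) R := (faithfulSMul_iff_algebraMap_injective _ _).2 hi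
  have : IsFractionRing (MvPolynomial σ k) R := IsFractionRing.of_field _ _ fun z =>
    (IntermediateField.mem_adjoin_range_iff k b z).1 (hb ▸ IntermediateField.mem_top)
  obtain ⟨β, hβ⟩ := (IsIntegrallyClosed.isIntegral_iff (R := MvPolynomial σ k) (K := R)
    (x := w)).1 ⟨Polynomial.X ^ d + ∑ i ∈ Finset.range d, Polynomial.monomial i (q i),
      Polynomial.monic_X_pow_add ((Polynomial.degree_sum_le _ _).trans_lt
        ((Finset.sup_lt_iff (WithBot.bot_lt_coe _)).2 fun i hi =>
          (Polynomial.degree_monomial_le _ _).trans_lt (Nat.cast_lt.2 (Finset.mem_range.1 hi)))), by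
      simp only [Polynomial.eval₂_add, Polynomial.eval₂_X_pow, Polynomial.eval₂_finsetSum,
        Polynomial.eval₂_monomial]
      exact h⟩
  replace hβ : aeval b β = w := hβ
  refine ⟨β, not_lt.1 fun hD => ?_, hβ⟩
  have h1 : β ^ d + ∑ i ∈ Finset.range d, q i * β ^ i = 0 := hi (by
    simpa only [map_add, map_pow, map_sum, map_mul, hβ, map_zero] using h)
  have b0 : β ≠ 0 := fun e => by simp [e] at hD
  have h2 : ∀ n, (β ^ n).totalDegree = n * β.totalDegree := fun n => by
    induction n with
    | zero => simp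
    | succ n ih => rw [pow_succ, totalDegree_mul_of_isDomain (pow_ne_zero _ b0) b0, ih, add_one_mul]
  rcases d with _ | d
  · simp at h1
  have h3 : (∑ i ∈ Finset.range (d + 1), q i * β ^ i).totalDegree ≤ D + d * β.totalDegree :=
    totalDegree_finsetSum_le fun i hi => (totalDegree_mul _ _).trans (add_le_add (hq i hi)
      ((h2 i).trans_le (Nat.mul_le_mul_right _ (Nat.lt_succ_iff.1 (Finset.mem_range.1 hi)))))
  rw [eq_neg_of_add_eq_zero_right h1, totalDegree_neg, h2, add_one_mul] at h3
  omega

omit [Finite σ] in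
theorem rc_lift (Q : MvPolynomial σ (α → k)) :
    eval₂Hom (upMap U (algebraMap k R)) (fun a => algebraMap R (Up U R) (b a))
      (MvPolynomial.map (germ U) Q) = germ U fun n => aeval b (evP n Q) := by
  induction Q using MvPolynomial.induction_on with
  | C r =>
    simp only [map_C, eval₂Hom_C, evP, aeval_C]
    rfl
  | add p p' hp hp' =>
    simp only [map_add, hp, hp']
    rfl
  | mul_X p l hp =>
    simp only [map_mul, hp, map_X, eval₂Hom_X', evP, aeval_X]
    rfl

theorem rc_pure (hK : RelCl K (Up U k))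
    (hc : ∀ c, algebraMap K (Up U R) c = upMap U (algebraMap k R) (algebraMap K (Up U k) c))
    (hi : AlgebraicIndependent k b) (hb : adjoin k (Set.range b) = ⊤) {z : Up U R}
    (hz : IsAlgebraic (adjoin K (Set.range fun a => algebraMap R (Up U R) (b a))) z) :
    z ∈ adjoin K (Set.range fun a => algebraMap R (Up U R) (b a)) := by
  classical
  have lift := rc_lift (U := U) (k := k) (b := b)
  generalize (fun a => algebraMap R (Up U R) (b a)) = y at hz lift ⊢
  have ev : ∀ p : MvPolynomial σ K, eval₂Hom (upMap U (algebraMap k R)) y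
      (MvPolynomial.map (algebraMap K (Up U k)) p) = aeval y p := fun p => by
    rw [eval₂Hom_map_hom, aeval_eq_eval₂Hom]
    exact congrArg (fun φ => eval₂Hom φ y p) (RingHom.ext fun c => (hc c).symm)
  generalize eval₂Hom (upMap U (algebraMap k R)) y = Φ at lift ev
  have inj : Function.Injective Φ := (injective_iff_map_eq_zero Φ).2 fun P hP => by
    obtain ⟨p, hp⟩ := exists_repr P
    obtain ⟨Q, rfl, -⟩ := hp.exists_lift
    rw [lift, germ_eq_zero] at hP
    ext μ
    rw [coeff_map, coeff_zero, germ_eq_zero]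
    exact hP.mono fun n hn => by rw [← coeff_evP, hi (hn.trans (map_zero _).symm), coeff_zero]
  have mem : ∀ p : MvPolynomial σ K, aeval y p ∈ Algebra.adjoin K (Set.range y) := fun p => by
    rw [Algebra.adjoin_range_eq_range_aeval]
    exact ⟨p, rfl⟩
  obtain ⟨a, a0, P₀, m₀, e₀⟩ := (IntermediateField.isAlgebraic_adjoin_iff.1 hz).exists_integral_multiple
  obtain ⟨P, rfl, -, mP⟩ := Polynomial.lifts_and_natDegree_eq_and_monic
    (f := ((aeval y).codRestrict _ mem).toRingHom) ((Polynomial.mem_lifts _).2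
      (Polynomial.map_surjective _ (fun x =>
        ((Algebra.adjoin_range_eq_range_aeval K y).le x.2).imp fun _ h => Subtype.ext h) P₀)) m₀
  rw [Polynomial.eval₂_map] at e₀
  obtain ⟨w, hw⟩ := germ_surj U (a • z)
  replace e₀ : Polynomial.eval₂ (aeval y : MvPolynomial σ K →ₐ[K] _).toRingHom (germ U w) P = 0 :=
    hw ▸ e₀
  have h1 : ∀ i, ∃ Q : MvPolynomial σ (α → k),
      MvPolynomial.map (algebraMap K (Up U k)) (P.coeff i) = MvPolynomial.map (germ U) Q ∧
        ∀ n, (evP n Q).totalDegree ≤ (P.coeff i).totalDegree := fun i => by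
    obtain ⟨p, h1, h2⟩ := exists_repr' (MvPolynomial.map (algebraMap K (Up U k)) (P.coeff i))
    obtain ⟨Q, h3, rfl⟩ := h1.exists_lift
    exact ⟨Q, h3, fun n => Finset.sup_mono ((h2 n).trans (support_map_subset _ _))⟩
  choose Q q1 q2 using h1
  have h2 : ∀ᶠ n in U, w n ^ P.natDegree +
      ∑ i ∈ Finset.range P.natDegree, aeval b (evP n (Q i)) * w n ^ i = 0 := by
    rw [Polynomial.eval₂_eq_sum_range, Finset.sum_range_succ, mP.coeff_natDegree, map_one, one_mul,
      add_comm] at e₀
    simp only [AlgHom.toRingHom_eq_coe, RingHom.coe_coe, ← ev, q1, lift] at e₀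
    simp only [← map_pow, ← map_mul, ← map_sum, ← map_add, germ_eq_zero] at e₀
    exact e₀.mono fun n hn => by simpa using hn
  obtain ⟨D, hD⟩ : ∃ D, ∀ i ∈ Finset.range P.natDegree, (P.coeff i).totalDegree ≤ D :=
    ⟨_, fun i hi => Finset.le_sup (f := fun i => (P.coeff i).totalDegree) hi⟩
  have h3 : ∀ n, ∃ β : MvPolynomial σ k, β.totalDegree ≤ D ∧ (w n ^ P.natDegree +
      ∑ i ∈ Finset.range P.natDegree, aeval b (evP n (Q i)) * w n ^ i = 0 → aeval b β = w n) :=
    fun n => by
      by_cases h : w n ^ P.natDegree +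
        ∑ i ∈ Finset.range P.natDegree, aeval b (evP n (Q i)) * w n ^ i = 0
      · exact (rc_poly hi hb (fun i hi => (q2 i n).trans (hD i hi)) h).imp fun _ k => ⟨k.1, fun _ => k.2⟩
      · exact ⟨0, by simp, fun k => absurd k h⟩
  choose β b1 b2 using h3
  obtain ⟨B, hB⟩ : ∃ B : MvPolynomial σ (α → k), ∀ n, evP n B = β n := by
    refine ⟨∑ μ ∈ (Finsupp.finite_of_degree_le (σ := σ) D).toFinset,
      monomial μ fun n => coeff μ (β n), fun n => ?_⟩
    ext μ
    simp only [coeff_evP, coeff_sum, coeff_monomial, Finset.sum_ite_eq']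
    split_ifs with h
    · rfl
    · refine (notMem_support_iff.1 fun h' => h ?_).symm
      rw [Set.Finite.mem_toFinset]
      exact (le_totalDegree h').trans (b1 n)
  have h4 : Φ (MvPolynomial.map (germ U) B) = germ U w := by
    rw [lift, germ_eq]
    exact h2.mono fun n hn => by rw [hB, b2 n hn]
  have h5 := (MvPolynomial.isIntegral_iff_isIntegral_coeff (R := K)
    (f := MvPolynomial.map (germ U) B)).1 ⟨P, mP, inj (by
      rw [Polynomial.hom_eval₂, h4, map_zero, ← e₀]
      exact congrArg (fun φ => Polynomial.eval₂ φ (germ U w) P) (RingHom.ext ev))⟩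
  obtain ⟨p, hp⟩ : MvPolynomial.map (germ U) B ∈
      Set.range (MvPolynomial.map (algebraMap K (Up U k))) :=
    mem_range_map_iff_coeffs_subset.2 fun c h => by
      obtain ⟨μ, -, rfl⟩ := mem_coeffs_iff.1 h
      exact hK _ (h5 μ).isAlgebraic
  have h6 : z = aeval y p / a := by
    rw [← ev, hp, h4, hw, eq_div_iff fun e => a0 (Subtype.ext e), mul_comm]
    rfl
  rw [h6]
  exact div_mem (IntermediateField.algebra_adjoin_le_adjoin _ _ (mem p))
    (IntermediateField.algebra_adjoin_le_adjoin _ _ a.2)

theorem upMap_upMap {A B C : Type} [Field A] [Field B] [Field C] (φ : A →+* B) (ψ : B →+* C)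
    (x : Up U A) : upMap U ψ (upMap U φ x) = upMap U (ψ.comp φ) x := by
  obtain ⟨f, rfl⟩ := germ_surj U x
  rfl

omit [Finite σ] in
/-- The constants lie in the field generated by the coordinates. -/
theorem rc_const
    (hc : ∀ c, algebraMap K (Up U R) c = upMap U (algebraMap k R) (algebraMap K (Up U k) c))
    (hk : ∀ c : k, algebraMap k (Up U k) c ∈ Set.range (algebraMap K (Up U k)))
    (hb : adjoin k (Set.range b) = ⊤) (r : R) :
    algebraMap R (Up U R) r ∈ adjoin K (Set.range fun a => algebraMap R (Up U R) (b a)) := by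
  have hr : r ∈ adjoin k (Set.range b) := hb ▸ IntermediateField.mem_top
  induction hr using IntermediateField.adjoin_induction with
  | mem x hx =>
    obtain ⟨a, rfl⟩ := hx
    exact IntermediateField.subset_adjoin _ _ ⟨a, rfl⟩
  | algebraMap c =>
    obtain ⟨c', h⟩ := hk c
    have : algebraMap R (Up U R) (algebraMap k R c) = algebraMap K (Up U R) c' := by
      rw [hc, h]
      rfl
    exact this ▸ IntermediateField.algebraMap_mem _ _
  | add x y _ _ hx hy => exact map_add (algebraMap R (Up U R)) x y ▸ add_mem hx hy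
  | inv x _ hx => exact map_inv₀ (algebraMap R (Up U R)) x ▸ inv_mem hx
  | mul x y _ _ hx hy => exact map_mul (algebraMap R (Up U R)) x y ▸ mul_mem hx hy

theorem rc [CharZero k] (hK : RelCl K (Up U k))
    (hc : ∀ c, algebraMap K (Up U R) c = upMap U (algebraMap k R) (algebraMap K (Up U k) c))
    (hk : ∀ c : k, algebraMap k (Up U k) c ∈ Set.range (algebraMap K (Up U k)))
    (hb : adjoin k (Set.range b) = ⊤) {z : Up U R}
    (hz : IsAlgebraic (adjoin K (Set.range fun a => algebraMap R (Up U R) (b a))) z) :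
    z ∈ adjoin K (Set.range fun a => algebraMap R (Up U R) (b a)) := by
  classical
  obtain ⟨τ, j, j1, j2, -, j3⟩ := exists_td_basis_range k b
  have : Finite τ := Finite.of_injective j j1
  let R₀ := adjoin k (Set.range (b ∘ j))
  let b₀ : τ → R₀ := fun t => ⟨b (j t), IntermediateField.subset_adjoin _ _ ⟨t, rfl⟩⟩
  have i₀ : AlgebraicIndependent k b₀ := AlgebraicIndependent.of_comp R₀.val j2
  have t₀ : adjoin k (Set.range b₀) = ⊤ := IntermediateField.lift_injective R₀ (by
    rw [IntermediateField.lift_adjoin, IntermediateField.lift_top, ← Set.range_comp]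
    rfl)
  have a₀ : ∀ a, IsIntegral R₀ (b a) := fun a =>
    (IntermediateField.isAlgebraic_adjoin_iff.2 (j3 a)).isIntegral
  have t₁ : adjoin R₀ (Set.range b) = ⊤ :=
    IntermediateField.adjoin_eq_top_of_adjoin_eq_top k hb
  have : FiniteDimensional R₀ R := by
    have : FiniteDimensional R₀ (adjoin R₀ (Set.range b)) :=
      IntermediateField.finiteDimensional_adjoin (by
        rintro _ ⟨a, rfl⟩
        exact a₀ a)
    rw [t₁] at this
    exact IntermediateField.topEquiv.toLinearEquiv.finiteDimensional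
  have : CharZero R₀ := algebraRat.charZero _
  let _ : Algebra K (Up U R₀) :=
    ((upMap U (algebraMap k R₀)).comp (algebraMap K (Up U k))).toAlgebra
  have c₀ : ∀ c, algebraMap K (Up U R₀) c = upMap U (algebraMap k R₀) (algebraMap K (Up U k) c) :=
    fun _ => rfl
  let M₀ := adjoin K (Set.range fun t => algebraMap R₀ (Up U R₀) (b₀ t))
  let ψ : Up U R₀ →ₐ[K] Up U R := ⟨upMap U (algebraMap R₀ R), fun c => by
    rw [hc]
    exact upMap_upMap _ _ _⟩
  let _ : Algebra M₀ (Up U R) := ((upMap U (algebraMap R₀ R)).comp (algebraMap M₀ _)).toAlgebra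
  have n1 : ∀ r : R, algebraMap R (Up U R) r ∈ algebraicClosure M₀ (Up U R) := fun r =>
    mem_algebraicClosure_iff.2 ((Algebra.IsAlgebraic.isAlgebraic (R := R₀) r).ringHom_of_comp_eq
      ((algebraMap R₀ (Up U R₀)).codRestrict M₀ (rc_const c₀ hk t₀)) (algebraMap R (Up U R))
      (RingHom.injective _) (RingHom.ext fun _ => rfl))
  have n2 : ∀ x ∈ adjoin K (Set.range fun a => algebraMap R (Up U R) (b a)),
      x ∈ algebraicClosure M₀ (Up U R) := fun x hx => by
    induction hx using IntermediateField.adjoin_induction with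
    | mem x hx =>
      obtain ⟨a, rfl⟩ := hx
      exact n1 _
    | algebraMap c =>
      rw [← ψ.commutes]
      exact IntermediateField.algebraMap_mem _ (algebraMap K M₀ c)
    | add x y _ _ hx hy => exact add_mem hx hy
    | inv x _ hx => exact inv_mem hx
    | mul x y _ _ hx hy => exact mul_mem hx hy
  have n3 : z ∈ algebraicClosure M₀ (Up U R) := mem_algebraicClosure_iff.2
    ((hz.ringHom_of_comp_eq ((algebraMap (adjoin K (Set.range fun a => algebraMap R (Up U R) (b a)))
      (Up U R)).codRestrict (algebraicClosure M₀ (Up U R))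
      fun x => n2 x x.2) (RingHom.id _) (RingHom.injective _)
      (RingHom.ext fun _ => rfl)).restrictScalars M₀)
  obtain ⟨f, rfl⟩ := germ_surj U z
  let ω := Module.finBasis R₀ R
  have n4 : ∀ i, (germ U fun n => Algebra.trace R₀ R (f n * ω i)) ∈ M₀ := fun i => by
    refine rc_pure hK c₀ i₀ t₀ (IsIntegral.isAlgebraic ?_)
    have k1 : (algebraMap M₀ (Up U R)).IsIntegralElem (germ U fun n => f n * ω i) :=
      (mem_algebraicClosure_iff.1 (mul_mem n3 (n1 (ω i)))).isIntegral
    refine RingHom.IsIntegralElem.of_map (g := upMap U (algebraMap R₀ (AlgebraicClosure R₀)))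
      (RingHom.injective _) ?_
    let _ : Algebra M₀ (Up U (AlgebraicClosure R₀)) :=
      ((upMap U (algebraMap R₀ (AlgebraicClosure R₀))).comp (algebraMap M₀ _)).toAlgebra
    have k2 : upMap U (algebraMap R₀ (AlgebraicClosure R₀))
        (germ U fun n => Algebra.trace R₀ R (f n * ω i)) =
        ∑ s : R →ₐ[R₀] AlgebraicClosure R₀, upMap U s.toRingHom (germ U fun n => f n * ω i) := by
      simp only [upMap_germ, ← map_sum, trace_eq_sum_embeddings]
      exact congrArg _ (funext fun n => by simp)
    rw [k2]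
    refine IsIntegral.sum _ fun s _ => ?_
    have k3 := k1.map (upMap U s.toRingHom)
    have k4 : (upMap U s.toRingHom).comp (algebraMap M₀ (Up U R)) =
        algebraMap M₀ (Up U (AlgebraicClosure R₀)) := RingHom.ext fun x =>
      (upMap_upMap _ _ _).trans (congrArg (fun φ => upMap U φ x.1) s.comp_algebraMap)
    rwa [k4] at k3
  have n5 : germ U f = ∑ i, ψ (germ U fun n => Algebra.trace R₀ R (f n * ω i)) *
      algebraMap R (Up U R) (ω.traceDual i) := by
    have : ∀ i, ψ (germ U fun n => Algebra.trace R₀ R (f n * ω i)) *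
        algebraMap R (Up U R) (ω.traceDual i) =
        germ U fun n => Algebra.trace R₀ R (f n * ω i) • ω.traceDual i := fun _ => rfl
    simp only [this, ← map_sum]
    refine congrArg _ (funext fun n => ?_)
    rw [Finset.sum_apply]
    simpa [Algebra.traceForm_apply] using (ω.traceDual.sum_repr (f n)).symm
  rw [n5]
  refine sum_mem fun i _ => mul_mem ?_ (rc_const hc hk hb _)
  have n6 : M₀.map ψ ≤ adjoin K (Set.range fun a => algebraMap R (Up U R) (b a)) := by
    rw [IntermediateField.adjoin_map]
    refine IntermediateField.adjoin.mono _ _ _ ?_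
    rintro _ ⟨_, ⟨t, rfl⟩, rfl⟩
    exact ⟨j t, rfl⟩
  exact n6 ⟨_, n4 i, rfl⟩

end Pool.Agent.Lib.MP_651af7_nt.Nc
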