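import Pool.Agent.Lib.MP_651af7_nt.Nc.Iso
import Pool.Agent.Lib.MP_651af7_nt.Nc.Rc

/-! Irreducibility over the small field gives minimality at almost every index. -/

namespace Pool.Agent.Lib.MP_651af7_nt.Nc

open MvPolynomial Filter Av As
open IntermediateField (adjoin)
open Jn (rr)

section poly

variable {R α : Type} [Field R] {U : Ultrafilter α}

theorem msp_lift {q : α → Polynomial R} {N : ℕ} (h : ∀ᶠ n in U, (q n).natDegree ≤ N) :
    ∃ Q : Polynomial (Up U R), ∀ j, Q.coeff j = germ U fun n => (q n).coeff j := by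
  refine ⟨∑ i ∈ Finset.range (N + 1), Polynomial.monomial i (germ U fun n => (q n).coeff i),
    fun j => ?_⟩
  simp only [Polynomial.finsetSum_coeff, Polynomial.coeff_monomial, Finset.sum_ite_eq',
    Finset.mem_range]
  split_ifs with hj
  · rfl
  · exact (germ_eq_zero.2 (h.mono fun n g =>
      Polynomial.coeff_eq_zero_of_natDegree_lt (by omega))).symm

/-- A factor of fixed degree at almost every index gives a factor over the ultrapower. -/
theorem msp_factor {p : α → Polynomial R} {P : Polynomial (Up U R)} {N : ℕ}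
    (hP : ∀ j, P.coeff j = germ U fun n => (p n).coeff j)
    (h : ∀ᶠ n in U, (p n).natDegree = N + 1 ∧ ¬ Irreducible (p n)) :
    ∃ Q : Polynomial (Up U R), Q.Monic ∧ Q.natDegree ∈ Finset.Ioc 0 ((N + 1) / 2) ∧ Q ∣ P := by
  have h1 : ∀ᶠ n in U, ∃ d : Finset.Ioc 0 ((N + 1) / 2), ∃ q : Polynomial R × Polynomial R,
      q.1.Monic ∧ q.1.natDegree = d ∧ q.2.natDegree ≤ N + 1 ∧ p n = q.1 * q.2 :=
    h.mono fun n ⟨g1, g2⟩ => by
      have g0 : p n ≠ 0 := fun g => by simp [g] at g1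
      rw [Polynomial.irreducible_iff_lt_natDegree_lt g0
        (Polynomial.not_isUnit_of_natDegree_pos _ (by omega)), g1] at g2
      push Not at g2
      obtain ⟨q, g3, g4, r, g5⟩ := g2
      exact ⟨⟨_, g4⟩, (q, r), g3, rfl,
        g1 ▸ Polynomial.natDegree_le_of_dvd (Dvd.intro_left q g5.symm) g0, g5⟩
  obtain ⟨d, h2⟩ := Ultrafilter.eventually_exists_iff.1 h1
  obtain ⟨q, h3⟩ := h2.choice
  obtain ⟨Q, hQ⟩ := msp_lift (q := fun n => (q n).1) (N := d) (h3.mono fun n g => g.2.1.le)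
  obtain ⟨S, hS⟩ := msp_lift (q := fun n => (q n).2) (h3.mono fun n g => g.2.2.1)
  have h4 : Q.coeff d = 1 := by
    rw [hQ, ← map_one (germ U), germ_eq]
    exact h3.mono fun n g => g.2.1 ▸ g.1.coeff_natDegree
  have h5 : Q.natDegree ≤ d := Polynomial.natDegree_le_iff_coeff_eq_zero.2 fun j hj => by
    rw [hQ, germ_eq_zero]
    exact h3.mono fun n g => Polynomial.coeff_eq_zero_of_natDegree_lt (g.2.1 ▸ hj)
  refine ⟨Q, Polynomial.monic_of_natDegree_le_of_coeff_eq_one _ h5 h4, ?_, S,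
    Polynomial.ext fun j => ?_⟩
  · rw [Polynomial.natDegree_eq_of_le_of_coeff_ne_zero h5 (h4 ▸ one_ne_zero)]
    exact d.2
  · simp only [hP, Polynomial.coeff_mul, hQ, hS, ← map_mul, ← map_sum]
    refine (germ_eq U).2 (h3.mono fun n g => ?_)
    rw [g.2.2.2, Polynomial.coeff_mul, Finset.sum_apply]
    rfl

end poly

variable {k K ι α : Type} [Field k] [Field K] {U : Ultrafilter α} {B : AV k ι} {e μ : ℕ} {a₁ : ι}

/-- Two normalised generic points satisfy the same equations. -/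
theorem msp_same {F F' : Type} [Field F] [Field F'] [Algebra k F] [Algebra k F'] {b : ι → F}
    {b' : ι → F'} (h1 : b a₁ = 1) (hg : Gen B.I b) (h1' : b' a₁ = 1)
    (hz' : ∀ f ∈ B.I, aeval b' f = 0) (f : MvPolynomial ι k) (h : aeval b f = 0) :
    aeval b' f = 0 := by
  obtain ⟨g, n, g1, g2⟩ := exists_homogenise f a₁
  rw [← g2 _ _ h1']
  exact hz' _ (hg g n g1 ((g2 _ _ h1).trans h))

theorem msp_norm {F : Type} [Field F] [Algebra k F] {w : ι → F} (h : X a₁ ∉ B.I)
    (hz : ∀ f ∈ B.I, aeval w f = 0) (hg : Gen B.I w) : w a₁ ≠ 0 ∧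
      (∀ f ∈ B.I, aeval (fun a => (w a₁)⁻¹ * w a) f = 0) ∧ Gen B.I fun a => (w a₁)⁻¹ * w a := by
  have h1 : w a₁ ≠ 0 := fun h1 => h (hg _ 1 (isHomogeneous_X _ _) (by rwa [aeval_X]))
  obtain ⟨p, hp⟩ := AV.exists_rep (A := B) ⟨a₁, h1.isUnit⟩ hz
  refine ⟨h1, (hp.smul (inv_ne_zero h1).isUnit).zero, fun f n hf h2 => hg f n hf ?_⟩
  rw [aeval_mul_of_hom hf] at h2
  exact (mul_eq_zero.1 h2).resolve_left (pow_ne_zero _ (inv_ne_zero h1))

/-- A normalised generic point that generates its field. -/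
theorem msp_gen [Finite ι] (h : X a₁ ∉ B.I) : ∃ (R : Type) (_ : Field R) (_ : Algebra k R)
    (b : ι → R), b a₁ = 1 ∧ (∀ f ∈ B.I, aeval b f = 0) ∧ Gen B.I b ∧
      adjoin k (Set.range b) = ⊤ := by
  obtain ⟨M, _, _, x, hx, -⟩ := @tr_point _ _ _ _ B.I B.isPrime
  obtain ⟨h1, h2, h3⟩ := msp_norm h (fun f hf => (hx f).2 hf) fun f _ _ hf => (hx f).1 hf
  let R := adjoin k (Set.range fun a => (x a₁)⁻¹ * x a)
  let b : ι → R := fun a => ⟨_, IntermediateField.subset_adjoin _ _ ⟨a, rfl⟩⟩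
  have h4 : ∀ f, R.val (aeval b f) = aeval (fun a => (x a₁)⁻¹ * x a) f := fun f => by
    rw [← AlgHom.comp_apply, comp_aeval]
    rfl
  refine ⟨R, inferInstance, inferInstance, b, Subtype.ext (inv_mul_cancel₀ h1),
    fun f hf => Subtype.ext ((h4 f).trans (h2 f hf)),
    fun f n hf h5 => h3 f n hf (by rw [← h4, h5, map_zero]),
    IntermediateField.map_injective R.val ?_⟩
  rw [IntermediateField.adjoin_map, ← Set.range_comp, ← AlgHom.fieldRange_eq_map,
    IntermediateField.fieldRange_val]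
  rfl

/-- Irreducibility at one generic point gives minimality at all of them. -/
theorem msp_minG {R : Type} [Field R] [Algebra k R] {b : ι → R} (h1 : b a₁ = 1)
    (hz : ∀ f ∈ B.I, aeval b f = 0) (hg : Gen B.I b) {ρ : Fin (e + 2) → MvPolynomial ι k}
    (hρ : ∀ j, (ρ j).IsHomogeneous μ) (hl : aeval b (ρ (Fin.last _)) ≠ 0)
    (h : Irreducible (rr ρ b)) : MinG B ρ := by
  intro F _ _ w _ hw hw'
  obtain ⟨g1, g2, g3⟩ := msp_norm (a₁ := a₁) (fun g => by simpa [h1] using hz _ g) hw hw'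
  have g4 : ∀ f : MvPolynomial ι k, aeval b f = 0 ↔ aeval (fun a => (w a₁)⁻¹ * w a) f = 0 :=
    fun f => ⟨msp_same h1 hg (inv_mul_cancel₀ g1) g2 f,
      msp_same (b := fun a => (w a₁)⁻¹ * w a) (inv_mul_cancel₀ g1) g3 h1 hz f⟩
  have g5 : Irp ρ b := fun p hp => ⟨fun u => h.not_isUnit (hp ▸ (Polynomial.isUnit_map _).2 u),
    fun s t g => (h.isUnit_or_isUnit
      (hp.symm.trans ((congrArg _ g).trans (Polynomial.map_mul _)))).imp
      (Polynomial.isUnit_map _).1 (Polynomial.isUnit_map _).1⟩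
  simpa only [mul_inv_cancel_left₀ g1] using
    min_smul hρ g1 ((g5.iso g4).min fun g => hl ((g4 _).2 g))

variable [Algebra K (Up U k)]

theorem msp_aeval {R : Type} [Field R] [Algebra k R] [Algebra K (Up U R)]
    (hc : ∀ c, algebraMap K (Up U R) c = upMap U (algebraMap k R) (algebraMap K (Up U k) c))
    {P : MvPolynomial ι K} {p : α → MvPolynomial ι k}
    (h : Repr U (map (algebraMap K (Up U k)) P) p) (b : ι → R) :
    aeval (fun a => algebraMap R (Up U R) (b a)) P = germ U fun n => aeval b (p n) := by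
  have h1 : Repr U (map (algebraMap K (Up U R)) P) fun n => map (algebraMap k R) (p n) :=
    ⟨h.1.imp fun s hs n => (support_map_subset _ _).trans (hs n), fun m => by
      have h2 := h.2 m
      rw [coeff_map] at h2
      simp only [coeff_map, hc, h2, upMap_germ]⟩
  have h3 := h1.aeval' fun _ => b
  simp only [aeval_map_algebraMap] at h3
  exact h3

variable [CharZero k] [Finite ι] [Algebra k K] [IsScalarTower k K (Up U k)]
  {ρ' : Fin (e + 2) → MvPolynomial ι K} {ρ : α → Fin (e + 2) → MvPolynomial ι k} {v : α → ι → k}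

theorem minG_of_irp (hK : RelCl K (Up U k))
    (hv : ∀ᶠ n in U, v n a₁ = 1 ∧ ∀ f ∈ B.I, eval (v n) f = 0) (hg : Gen (B.IK K) (gv U v))
    (hr : ∀ j, Repr U (map (algebraMap K (Up U k)) (ρ' j)) fun n => ρ n j)
    (hρ : ∀ᶠ n in U, ∀ j, (ρ n j).IsHomogeneous μ) (hl : aeval (gv U v) (ρ' (Fin.last _)) ≠ 0)
    (h : Irp ρ' (gv U v)) : ∀ᶠ n in U, MinG B (ρ n) := by
  obtain ⟨R, _, _, b, b1, b2, b3, b4⟩ := msp_gen (B := B) (a₁ := a₁) fun g => by
    obtain ⟨n, g1, g2⟩ := hv.exists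
    simpa [g1] using g2 _ g
  let _ : Algebra K (Up U R) :=
    ((upMap U (algebraMap k R)).comp (algebraMap K (Up U k))).toAlgebra
  have hc : ∀ c, algebraMap K (Up U R) c = upMap U (algebraMap k R) (algebraMap K (Up U k) c) :=
    fun _ => rfl
  have hi := gen_up hc hv hg b1 b2 b3
  have e1 := fun j => msp_aeval hc (hr j) b
  have hl' : aeval (fun a => algebraMap R (Up U R) (b a)) (ρ' (Fin.last _)) ≠ 0 :=
    fun g => hl ((hi _).2 g)
  have hl1 : ∀ᶠ n in U, aeval b (ρ n (Fin.last _)) ≠ 0 := germ_ne_zero.1 (e1 _ ▸ hl')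
  have hd : ∀ {k F : Type} [Field k] [Field F] [Algebra k F] (ρ : Fin (e + 2) → MvPolynomial ι k)
      (w : ι → F), aeval w (ρ (Fin.last _)) ≠ 0 → (rr ρ w).natDegree = e + 1 := fun ρ w g =>
    Polynomial.natDegree_eq_of_le_of_coeff_ne_zero (Jn.one_deg _ _)
      ((Jn.one_coeff ρ w (Fin.last _)).trans_ne g)
  have hz : ∀ {k F : Type} [Field k] [Field F] [Algebra k F] (ρ : Fin (e + 2) → MvPolynomial ι k)
      (w : ι → F) (j : ℕ), ¬ j < e + 2 → (rr ρ w).coeff j = 0 := fun ρ w j g =>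
    Polynomial.coeff_eq_zero_of_natDegree_lt ((Jn.one_deg _ _).trans_lt (by omega))
  suffices hs : ∀ᶠ n in U, Irreducible (rr (ρ n) b) by
    filter_upwards [hs, hρ, hl1] with n g1 g2 g3
    exact msp_minG b1 b2 b3 g2 g3 g1
  by_contra hcon
  obtain ⟨Q, q1, q2, q3⟩ := msp_factor (N := e) (p := fun n => rr (ρ n) b)
    (P := rr ρ' fun a => algebraMap R (Up U R) (b a)) (fun j => by
      by_cases hj : j < e + 2
      · refine ((Jn.one_coeff ρ' _ ⟨j, hj⟩).trans (e1 _)).trans (congrArg _ (funext fun n => ?_))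
        exact (Jn.one_coeff (ρ n) b ⟨j, hj⟩).symm
      · simp only [hz _ _ j hj]
        exact (map_zero _).symm)
    ((hl1.mono fun n g => hd _ _ g).and (Ultrafilter.eventually_not.2 hcon))
  let M := adjoin K (Set.range fun a => algebraMap R (Up U R) (b a))
  obtain ⟨p, hp⟩ : rr ρ' (fun a => algebraMap R (Up U R) (b a)) ∈
      Polynomial.lifts (algebraMap M (Up U R)) := (Polynomial.lifts_iff_coeff_lifts _).2 fun j => by
    by_cases hj : j < e + 2
    · exact ⟨⟨_, (IntermediateField.mem_adjoin_range_iff _ _ _).2 ⟨ρ' ⟨j, hj⟩, 1, rfl⟩⟩, by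
        rw [Jn.one_coeff ρ' _ ⟨j, hj⟩]
        simp⟩
    · exact ⟨0, by rw [hz _ _ j hj, map_zero]⟩
  replace hp : p.map (algebraMap M (Up U R)) = _ := hp
  have p1 := h.iso hi p hp
  have p2 : p.natDegree = e + 1 := by rw [← hd _ _ hl', ← hp, Polynomial.natDegree_map]
  obtain ⟨Q₀, rfl, r1, r2⟩ := Polynomial.lifts_and_natDegree_eq_and_monic
    ((Polynomial.lifts_iff_coeff_lifts (f := algebraMap M (Up U R)) Q).2 fun j => ⟨⟨_, rc hK hc
      (fun c => ⟨algebraMap k K c, (IsScalarTower.algebraMap_apply _ _ _ c).symm⟩) b4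
      (Polynomial.isIntegral_coeff_of_dvd _ Q (Polynomial.monic_mul_leadingCoeff_inv p1.ne_zero) q1
        (by rw [Polynomial.map_mul, hp]; exact q3.mul_right _) j).isAlgebraic⟩, rfl⟩) q1
  refine (Polynomial.irreducible_iff_lt_natDegree_lt p1.ne_zero p1.not_isUnit).1 p1 Q₀ r2
    (by rwa [r1, p2]) ((Polynomial.map_dvd_map' (algebraMap M (Up U R))).1 (hp ▸ q3))

end Pool.Agent.Lib.MP_651af7_nt.Nc
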