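import Pool.Agent.Lib.MP_651af7_nt.Av.EAd

/-! The height of a vector against the heights of its projections to a line. -/

namespace Pool.Agent.Lib.MP_651af7_nt.Nc

open Finset Height Av Vj

theorem pen_num {s n : ℕ} (f : Fin s → ℝ) {α κ : ℝ} {T : Finset (Fin s)} (hT : T.card ≤ n)
    (h1 : ∀ a, 0 ≤ f a + α) (h2 : ∀ b ∉ T, f b ≤ κ) (h3 : 0 ≤ α + κ) :
    ((s : ℝ) - n) * ∑ a, f a ≤ ∑ a, ∑ b, max (f b - f a) 0 + s ^ 2 * κ + n * s * α := by
  have e1 : ∀ a b, f b - κ - (if b ∈ T then f a + α else 0) ≤ max (f b - f a) 0 := fun a b => by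
    split_ifs with h
    · exact le_max_of_le_left (by linarith)
    · exact le_max_of_le_right (by linarith [h2 b h])
  have e2 : ∀ a, ∑ b, f b - s * κ - n * (f a + α) ≤ ∑ b, max (f b - f a) 0 := fun a => by
    refine le_trans ?_ (sum_le_sum fun b _ => e1 a b)
    have := mul_le_mul_of_nonneg_right (Nat.cast_le (α := ℝ).2 hT) (h1 a)
    simp only [sum_sub_distrib, sum_const, card_univ, Fintype.card_fin, nsmul_eq_mul, sum_ite_mem,
      univ_inter]
    linarith
  have e3 := sum_le_sum fun a (_ : a ∈ univ) => e2 a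
  simp only [sum_sub_distrib, sum_const, card_univ, Fintype.card_fin, nsmul_eq_mul, ← mul_sum,
    sum_add_distrib] at e3
  linarith

theorem pen_inv {n s : ℕ} {c : Fin s → ℤ} (hc : Function.Injective c) :
    ∃ (Δ : ℤ) (M : (Fin n ↪ Fin s) → Matrix (Fin n) (Fin n) ℤ), Δ ≠ 0 ∧
      ∀ e, M e * Matrix.vandermonde (fun i => c (e i)) = Δ • (1 : Matrix (Fin n) (Fin n) ℤ) := by
  refine ⟨∏ e : Fin n ↪ Fin s, (Matrix.vandermonde fun i => c (e i)).det, fun e =>
    (∏ e' ∈ univ.erase e, (Matrix.vandermonde fun i => c (e' i)).det) •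
      (Matrix.vandermonde fun i => c (e i)).adjugate, prod_ne_zero_iff.2 fun e _ =>
    Matrix.det_vandermonde_ne_zero_iff.2 (hc.comp e.injective), fun e => ?_⟩
  rw [Matrix.smul_mul, Matrix.adjugate_mul, smul_smul, prod_erase_mul _ _ (mem_univ e)]

/-- The linear forms `l a = ∑ c a ^ b * z b` for distinct integers `c a`. -/
theorem pen (n : ℕ) {s : ℕ} {c : Fin s → ℤ} (hc : Function.Injective c) : ∃ C : ℝ, 0 ≤ C ∧
    ∀ (L : Type) [Field L] [NumberField L] (z : Fin n → L) (l : Fin s → L), z ≠ 0 →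
      (∀ a, l a = ∑ b : Fin n, (c a : L) ^ (b : ℕ) * z b) → (∀ a, l a ≠ 0) →
      ((s : ℝ) - n) * s * logHeight z ≤
        ∑ a, ∑ b, logHeight₁ (l a / l b) + C * totalWeight L := by
  obtain ⟨Δ, M, hΔ, hM⟩ := pen_inv (n := n) hc
  obtain ⟨t, t1, t2, t3, t4⟩ : ∃ t : ℝ, 1 ≤ t ∧ |(Δ : ℝ)| ≤ t ∧
      (∀ a, ∑ b : Fin n, |((c a ^ (b : ℕ) : ℤ) : ℝ)| ≤ t) ∧ ∀ e b, ∑ i, |(M e b i : ℝ)| ≤ t := by
    obtain ⟨u, hu⟩ := Finite.exists_le fun a => ∑ b : Fin n, |((c a ^ (b : ℕ) : ℤ) : ℝ)|
    obtain ⟨w, hw⟩ := Finite.exists_le fun p : (Fin n ↪ Fin s) × Fin n => ∑ i, |(M p.1 p.2 i : ℝ)|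
    exact ⟨max (max 1 |(Δ : ℝ)|) (max u w), by simp, by simp, fun a => (hu a).trans (by simp),
      fun e b => (hw (e, b)).trans (by simp)⟩
  refine ⟨(s ^ 2 + n * s) * Real.log t, mul_nonneg (by positivity) (Real.log_nonneg t1),
    fun L _ _ z l hz hl h0 => ?_⟩
  have d0 : (Δ : L) ≠ 0 := Int.cast_ne_zero.2 hΔ
  have hE := ad_E (k := L) t1
  have : Nonempty (Fin n) := by
    obtain ⟨b, -⟩ := Function.ne_iff.1 hz
    exact ⟨b⟩
  have id1 : ∀ (e : Fin n ↪ Fin s) b, (Δ : L) * z b = ∑ i, (M e b i : L) * l (e i) := fun e b => by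
    have h1 : ∀ j : Fin n, ∑ i, (M e b i : L) * (c (e i) : L) ^ (j : ℕ) =
        if b = j then (Δ : L) else 0 := fun j => by
        have := congrArg (fun x : ℤ => (x : L)) (congrFun (congrFun (hM e) b) j)
        simpa [Matrix.mul_apply, Matrix.one_apply, apply_ite] using this
    simp only [hl, mul_sum, ← mul_assoc]
    rw [sum_comm]
    simp only [← sum_mul, h1, ite_mul, zero_mul, sum_ite_eq, mem_univ, if_true]
  have loc : ∀ v : AbsoluteValue L ℝ,
      ((s : ℝ) - n) * s * Real.log (nm v z) + s ^ 2 * Real.log (v Δ) ≤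
        ∑ a, ∑ b, Real.log (max (v (l a / l b)) 1) + ((s : ℝ) - n) * ∑ a, Real.log (v (l a)) +
          (s ^ 2 + n * s) * Real.log (E (IsNonarchimedean v) t) := fun v => by
    have n0 := nm_pos v hz
    have e0 := hE.pos v
    have v0 := v.pos d0
    have l0 := fun a => v.pos (h0 a)
    have u1 : ∀ a, v (l a) ≤ E (IsNonarchimedean v) t * nm v z := fun a => by
      have := (absSN v).int_sum_le univ (fun b : Fin n => c a ^ (b : ℕ)) (f := z) n0.le
        fun b _ _ => le_nm v z b
      simp only [Int.cast_pow (R := L), ← hl] at this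
      exact this.trans (mul_le_mul_of_nonneg_right (E_mono (t3 a)) n0.le)
    have u2 : v Δ ≤ E (IsNonarchimedean v) t := ((absSN v).intCast_le Δ).trans (E_mono t2)
    have u3 : (univ.filter fun a => E (IsNonarchimedean v) t * v (l a) < v Δ * nm v z).card ≤ n := by
      by_contra h
      obtain ⟨e, he⟩ := Function.Embedding.exists_of_card_le_finset (α := Fin n)
        ((Fintype.card_fin n).trans_le (not_le.1 h).le)
      obtain ⟨i, hi⟩ := Finite.exists_max fun i => v (l (e i))
      obtain ⟨b, hb⟩ := exists_nm v z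
      have k1 := (absSN v).int_sum_le univ (M e b) (f := fun i => l (e i)) (l0 _).le
        fun j _ _ => hi j
      rw [← id1] at k1
      have k2 := (mem_filter.1 (he ⟨i, rfl⟩)).2
      rw [← hb, ← map_mul] at k2
      exact k2.not_ge (k1.trans (mul_le_mul_of_nonneg_right (E_mono (t4 e b)) (l0 _).le))
    have u4 := pen_num (fun a => Real.log (nm v z) - Real.log (v (l a)))
      (α := Real.log (E (IsNonarchimedean v) t))
      (κ := Real.log (E (IsNonarchimedean v) t) - Real.log (v Δ)) u3 (fun a => by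
        have := Real.log_le_log (l0 a) (u1 a)
        rw [Real.log_mul e0.ne' n0.ne'] at this
        linarith) (fun b hb => by
        have := Real.log_le_log (mul_pos v0 n0) (not_lt.1 fun h => hb (mem_filter.2 ⟨mem_univ _, h⟩))
        rw [Real.log_mul e0.ne' (l0 b).ne', Real.log_mul v0.ne' n0.ne'] at this
        linarith) (by linarith [Real.log_le_log v0 u2, Real.log_nonneg (hE.one v)])
    have u5 : ∀ a b, max (Real.log (nm v z) - Real.log (v (l b)) -
        (Real.log (nm v z) - Real.log (v (l a)))) 0 ≤ Real.log (max (v (l a / l b)) 1) :=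
      fun a b => max_le (by
        have := Real.log_le_log (div_pos (l0 a) (l0 b)) (le_max_left _ 1)
        rw [Real.log_div (l0 a).ne' (l0 b).ne', ← map_div₀] at this
        linarith) (Real.log_nonneg (le_max_right _ _))
    have u6 := sum_le_sum fun a (_ : a ∈ univ) => sum_le_sum fun b (_ : b ∈ univ) => u5 a b
    simp only [sum_sub_distrib, sum_const, card_univ, Fintype.card_fin, nsmul_eq_mul] at u4
    linarith
  have f1 := fun a => finS_sum univ fun b (_ : b ∈ univ) => finS_max (l a / l b)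
  have f2 := finS_sum univ fun a (_ : a ∈ univ) => f1 a
  have f3 := finS_sum univ fun a (_ : a ∈ univ) => finS_log (l a)
  have g := pf_gsum_mono (((finS_nm z).const_mul _).add ((finS_log _).const_mul _))
    ((f2.add (f3.const_mul _)).add (hE.fin.const_mul _)) loc
  rw [gsum_add ((finS_nm z).const_mul _) ((finS_log _).const_mul _),
    gsum_add (f2.add (f3.const_mul _)) (hE.fin.const_mul _), gsum_add f2 (f3.const_mul _),
    gsum_const_mul (finS_nm z), gsum_const_mul (finS_log _), gsum_const_mul f3,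
    gsum_const_mul hE.fin, gsum_nm hz, gsum_log d0, gsum_sum univ fun a _ => f1 a,
    gsum_sum univ fun a _ => finS_log (l a)] at g
  simp only [gsum_sum univ fun b _ => finS_max (l _ / l b), gsum_max, gsum_log (h0 _),
    sum_const_zero] at g
  have := mul_le_mul_of_nonneg_left hE.le (show (0 : ℝ) ≤ s ^ 2 + n * s by positivity)
  linarith

end Pool.Agent.Lib.MP_651af7_nt.Nc
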