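import Pool.Agent.Lib.MP_651af7_nt.Nc.MspA

/-! The share of the height over the function field of the coset. -/

namespace Pool.Agent.Lib.MP_651af7_nt.Nc

open MvPolynomial Height Filter Av As Av.AV
open IntermediateField (adjoin)
open Jn (rr)

variable {k ι α : Type} [Field k] [NumberField k] [Fintype ι] {U : Ultrafilter α} {B : AV k ι}
  {y : α → B.Pt k} {hH : Tendsto (fun n => ht (y n)) U atTop} {v : α → ι → k} {a₁ : ι}

/-- The elements of height `O (H)` form a field. -/
theorem bd (hv : ∀ᶠ n in U, Rep (y n) (v n) ∧ v n a₁ = 1) :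
    Bdd (k := k) U (fun n => ht (y n)) (adjoin (Sm k hH) (Set.range (gv U v))) := by
  have key : ∀ z ∈ adjoin (Sm k hH) (Set.range (gv U v)), ∃ (f : α → k) (C : ℝ), germ U f = z ∧
      ∀ᶠ m in U, logHeight₁ (f m) ≤ C * ht (y m) := by
    intro z hz
    induction hz using IntermediateField.adjoin_induction with
    | mem x hx =>
      obtain ⟨a, rfl⟩ := hx
      refine ⟨fun n => v n a, 1, rfl, hv.mono fun n ⟨⟨u, hu⟩, h1⟩ => ?_⟩
      have h2 := logHeight₁_div_le (v n) a a₁
      rw [h1, div_one] at h2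
      rw [one_mul, ht, ← logHeight_mul_left u.ne_zero, ← funext hu]
      exact h2
    | algebraMap x =>
      obtain ⟨f, h1, h2⟩ := x.2
      exact ⟨f, 1, h1, h2 1 one_pos⟩
    | add x z _ _ hx hz =>
      obtain ⟨f, C, rfl, h1⟩ := hx
      obtain ⟨g, C', rfl, h2⟩ := hz
      refine ⟨f + g, 1 + C + C', map_add _ _ _, ?_⟩
      filter_upwards [h1, h2, hH.eventually_ge_atTop (totalWeight k * Real.log 2)] with n g1 g2 g3
      have := logHeight₁_add_le (f n) (g n)
      rw [Pi.add_apply]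
      linarith
    | inv x _ hx =>
      obtain ⟨f, C, rfl, h1⟩ := hx
      exact ⟨fun n => (f n)⁻¹, C, rfl, h1.mono fun n g => (logHeight₁_inv _).trans_le g⟩
    | mul x z _ _ hx hz =>
      obtain ⟨f, C, rfl, h1⟩ := hx
      obtain ⟨g, C', rfl, h2⟩ := hz
      refine ⟨f * g, C + C', map_mul _ _ _, ?_⟩
      filter_upwards [h1, h2] with n g1 g2
      have := logHeight₁_mul_le (f n) (g n)
      rw [Pi.mul_apply]
      linarith
  intro b f hf
  obtain ⟨g, C, h1, h2⟩ := key b b.2
  exact ⟨C, (h2.and ((germ_eq U).1 (h1.trans hf))).mono fun n g => g.2 ▸ g.1⟩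

/-- The engine for a moving equation with small coefficients. -/
theorem rel_false {e μ : ℕ} (hv : ∀ᶠ n in U, Rep (y n) (v n) ∧ v n a₁ = 1)
    (hY : td (Sm k hH) (rat (gv U v)) = B.dim) {ρ' : Fin (e + 2) → MvPolynomial ι (Sm k hH)}
    {ρ : α → Fin (e + 2) → MvPolynomial ι k}
    (hr : ∀ j, Repr U (map (algebraMap _ (Up U k)) (ρ' j)) fun n => ρ n j)
    (hρ' : ∀ j, (ρ' j).IsHomogeneous μ) (hρ : ∀ n j, (ρ n j).IsHomogeneous μ) {t : α → k}
    (hroot : ∀ᶠ n in U, ∑ j, eval (v n) (ρ n j) * t n ^ (j : ℕ) = 0)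
    (hlead : ∀ᶠ n in U, eval (v n) (ρ n (Fin.last _)) ≠ 0) (hmin : ∀ᶠ n in U, MinG B (ρ n))
    (hsep : ∀ᶠ n in U,
      ∑ j : Fin (e + 1), ((j : ℕ) + 1 : k) * eval (v n) (ρ n j.succ) * t n ^ (j : ℕ) ≠ 0)
    {K ε : ℝ} (hε : 0 < ε) (hK : ∀ᶠ n in U, logHeight₁ (t n) ≤ K * ht (y n))
    (hbad : ∀ᶠ n in U, (e + 1) * logHeight₁ (t n) + ε * ht (y n) ≤
      logHeight fun j => eval (v n) (ρ n j)) : False := by
  classical
  obtain ⟨w, hw⟩ : ∃ w : α → Option ι → k, w = fun n c => c.elim (t n) (v n) := ⟨_, rfl⟩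
  have w1 : ∀ n, (fun c => w n (some c)) = v n := fun n => by rw [hw]; rfl
  have w2 : ∀ n, w n none = t n := fun n => by rw [hw]; rfl
  obtain ⟨m, P, hP⟩ := Submodule.fg_iff_exists_fin_generating_family.1
    (IsNoetherian.noetherian B.I)
  have hP' : Ideal.span (Set.range P) = B.I := hP
  have r1 : ∀ f : MvPolynomial (Option ι) k, Repr U (map (algebraMap (Sm k hH) (Up U k))
      (map (algebraMap k (Sm k hH)) f)) fun _ => f := fun f => by
    rw [MvPolynomial.map_map, ← IsScalarTower.algebraMap_eq]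
    exact Repr.const f
  obtain ⟨g, B₁, Cn, I, hg, hC, hat, hsm, hind⟩ := Sh.exists_charts (hH := hH) w (c := some a₁)
    (hv.mono fun n g => (congrFun (w1 n) a₁).trans g.2) (J := Option (Option (Fin m)))
    (P := fun j => j.elim (∑ j, rename some (ρ' j) * X none ^ (j : ℕ))
      fun j => map (algebraMap k _) (j.elim (X (some a₁) - 1) fun j => rename some (P j)))
    (p := fun n j => j.elim (∑ j, rename some (ρ n j) * X none ^ (j : ℕ))
      fun j => j.elim (X (some a₁) - 1) fun j => rename some (P j))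
    (by
      rintro (_ | j)
      · simp only [Option.elim, map_sum, map_mul, map_pow, map_X]
        refine Repr.sum _ fun j => Repr.mul ?_ (Repr.X_pow _ _)
        have := (hr j).comp (G := fun c => X (some c)) (g := fun _ c => X (some c))
          fun c => by simpa only [pow_one] using Repr.X_pow (U := U) (k := k) (some c) 1
        rw [map_rename]
        simpa only [rename_eq_aeval, Function.comp_def] using this
      · exact r1 _)
    (by
      filter_upwards [hv, hroot] with n g1 g2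
      rintro (_ | _ | j)
      · simp only [Option.elim, map_sum, map_mul, map_pow, eval_X, eval_rename, Function.comp_def,
          w1, w2]
        exact g2
      · simp only [Option.elim, map_sub, eval_X, map_one, congrFun (w1 n) a₁, g1.2, sub_self]
      · simp only [Option.elim, eval_rename, Function.comp_def, w1]
        exact g1.1.zero _ (hP' ▸ Ideal.subset_span ⟨j, rfl⟩))
  have hgd : g = B.dim := by
    have e1 : ∀ j, aeval (gv U v) (ρ' j) = germ U fun n => eval (v n) (ρ n j) := fun j =>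
      (hr j).aeval' v
    have e2 := Sh.le_td (ρ := ρ') (x := gv U v) (t := germ U t) (g := g)
      (by
        simp only [Sh.rr_eval, e1, ← map_pow, ← map_mul, ← map_sum]
        exact germ_eq_zero.2 (hroot.mono fun n g => by simpa using g))
      ⟨a₁, ((germ_eq U).2 (hv.mono fun n g => g.2)).trans (map_one (germ U))⟩
      (by rw [e1]; exact germ_ne_zero.2 hlead) ⟨I, by
        have e4 : (fun l => (I l).elim (germ U t) (gv U v)) =
            fun l => (germ U fun n => w n (I l) : Up U k) := funext fun l => by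
          rw [hw]
          cases I l <;> rfl
        rw [e4]
        exact hind⟩
    have e3 : td (Sm k hH) (rat (gv U v)) ≤ td (Sm k hH) (rat (gv U w)) := td_mono (by
      rintro _ ⟨⟨c, c'⟩, rfl⟩
      exact ⟨(some c, some c'), by rw [hw]; rfl⟩)
    rw [hY] at e2
    rw [hY] at e3
    replace e3 := e3.trans_eq hg
    exact_mod_cast le_antisymm e2 e3
  subst hgd
  have e0 : (0 : ℝ) < e + 1 := by positivity
  obtain ⟨τ, hτ, hsl⟩ := Sh.exists_slope (U := U) (f := fun n => logHeight₁ (t n))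
    (H := fun n => ht (y n)) (K := K) (δ := ε / (4 * (e + 1))) (by positivity) (by
      filter_upwards [hK, hH.eventually_gt_atTop 0] with n g1 g2
      exact ⟨g2, zero_le_logHeight₁ _, g1⟩)
  have hδ : (e + 1) * (ε / (4 * (e + 1))) = ε / 4 := by field_simp
  obtain ⟨F⟩ := As.exists_fb B
  refine (Sh.engine F le_rfl e (max B₁ μ) μ (τ := τ + ε / (4 * (e + 1))) (r := (e + 1) * τ + ε / 2)
    (by positivity) (by rw [mul_add, hδ]; linarith)).false
    (fun n => ⟨y n, w n, Cn n, ρ n⟩) hH (fun η hη => ?_) (fun n => (hC n).2) hind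
  have hsρ : ∀ᶠ n in U, ∀ j, SmallP (max B₁ μ) (η * ht (y n)) (ρ n j) :=
    eventually_all.2 fun j => (hr j).small hH
      ((hρ' j).totalDegree_le.trans (le_max_right _ _)) hη
  filter_upwards [hv, hat, hsm η hη, hsρ, hlead, hsep, hsl, hbad, hmin]
    with n ⟨g1, g2⟩ g5 g6 g7 g8 g9 g10 g11 g12
  have x1 : (⟨y n, w n, Cn n, ρ n⟩ : Sh.Blk B B.dim e).x = v n := w1 n
  have x2 : (⟨y n, w n, Cn n, ρ n⟩ : Sh.Blk B B.dim e).t = t n := w2 n
  refine ⟨⟨x1 ▸ g1, ⟨a₁, (hC n).1, fun f hf => g5.2 f (SetLike.le_def.1 (sup_le ?_ ?_) hf)⟩, g5.1,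
    hρ n, x1 ▸ g8, ?_, Sh.div_of_min (hρ n) g12⟩,
    fun c => ⟨(g6 c).1.trans (le_max_left _ _), (g6 c).2⟩, g7, x2 ▸ g10.2, ?_⟩
  · rw [← hP', Ideal.map_span, Ideal.span_le]
    rintro _ ⟨_, ⟨j, rfl⟩, rfl⟩
    exact Ideal.subset_span ⟨some (some j), rfl⟩
  · rw [Ideal.span_le]
    rintro _ (rfl | rfl)
    exacts [Ideal.subset_span ⟨some none, rfl⟩, Ideal.subset_span ⟨none, rfl⟩]
  · rw [Sh.Blk.θ, x1, x2, Sh.th_sum]
    exact g9
  · rw [x1]
    have := mul_le_mul_of_nonneg_left g10.1 e0.le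
    have := mul_nonneg hε.le (ht_nonneg (y n))
    change _ * ht (y n) ≤ logHeight fun j => eval (v n) (ρ n j)
    linarith

/-- Relative form of the share inequality. -/
theorem share (hv : ∀ᶠ n in U, Rep (y n) (v n) ∧ v n a₁ = 1)
    (hY : td (Sm k hH) (rat (gv U v)) = B.dim) :
    Shr (k := k) U (fun n => ht (y n)) (adjoin (Sm k hH) (Set.range (gv U v))) := by
  intro d p t a hp hd ht ha ε hε
  by_contra hcon
  have hbad := (Ultrafilter.eventually_not.2 hcon).mono fun n g => (not_le.1 g).le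
  have : CharZero (Sm k hH) := charZero_of_injective_algebraMap (algebraMap k _).injective
  have h1 : gv U v a₁ = 1 := ((germ_eq U).2 (hv.mono fun n g => g.2)).trans (map_one (germ U))
  obtain ⟨μ, ρ', Q, hρ', hQ, hQ0, hc⟩ := frac (k := Sm k hH) (y := gv U v) ⟨a₁, h1⟩
    fun j : Fin (d + 2) => p.coeff j
  choose ρ hr hs using fun j => exists_repr' (map (algebraMap (Sm k hH) (Up U k)) (ρ' j))
  obtain ⟨q, hq⟩ := germ_surj U (aeval (gv U v) Q)
  have hρ : ∀ n j, (ρ j n).IsHomogeneous μ := fun n j m hm =>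
    ((hρ' j).map (algebraMap (Sm k hH) (Up U k))) (mem_support_iff.1 (hs j n (mem_support_iff.2 hm)))
  have e1 : ∀ j, aeval (gv U v) (ρ' j) = germ U fun n => eval (v n) (ρ j n) := fun j =>
    (hr j).aeval' v
  have hq0 : ∀ᶠ n in U, q n ≠ 0 := germ_ne_zero.1 (hq ▸ hQ0)
  have e2 : ∀ᶠ n in U, ∀ j, eval (v n) (ρ j n) = q n * a n j := eventually_all.2 fun j => by
    have h2 := hc j
    rw [e1, ← hq, show ((p.coeff j : _) : Up U k) = _ from ha j, ← map_mul] at h2
    exact (germ_eq U).1 h2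
  have hl : aeval (gv U v) (ρ' (Fin.last _)) ≠ 0 := by
    rw [hc]
    refine mul_ne_zero hQ0 fun h2 => hp.ne_zero (Polynomial.leadingCoeff_eq_zero.1 ?_)
    rw [Polynomial.leadingCoeff, hd]
    exact Subtype.ext h2
  have hmap : rr ρ' (gv U v) =
      Polynomial.C (aeval (gv U v) Q) * p.map (algebraMap _ (Up U k)) := by
    ext j
    rw [Polynomial.coeff_C_mul, Polynomial.coeff_map]
    by_cases hj : j < d + 2
    · exact (Jn.one_coeff ρ' _ ⟨j, hj⟩).trans (hc _)
    · rw [Polynomial.coeff_eq_zero_of_natDegree_lt ((Jn.one_deg _ _).trans_lt (by omega)),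
        Polynomial.coeff_eq_zero_of_natDegree_lt (by omega), map_zero, mul_zero]
  have hirp : Irp ρ' (gv U v) := fun p' hp' => by
    have h2 : aeval (gv U v) Q ∈ adjoin (Sm k hH) (Set.range (gv U v)) :=
      (IntermediateField.mem_adjoin_range_iff _ _ _).2 ⟨Q, 1, by rw [map_one, div_one]⟩
    have h3 : p' = Polynomial.C ⟨_, h2⟩ * p := Polynomial.map_injective _
      (algebraMap _ (Up U k)).injective (by
        rw [hp', hmap, Polynomial.map_mul, Polynomial.map_C]
        rfl)
    rw [h3]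
    exact (irreducible_isUnit_mul (Polynomial.isUnit_C.2
      (Ne.isUnit fun h4 => hQ0 (congrArg Subtype.val h4)))).2 hp
  have h0 : ∑ j, aeval (gv U v) (ρ' j) * germ U t ^ (j : ℕ) = 0 := by
    rw [← Sh.rr_eval, hmap, Polynomial.eval_mul, Polynomial.eval_map_algebraMap, ht, mul_zero]
  have hz : ∀ᶠ n in U, v n a₁ = 1 ∧ ∀ f ∈ B.I, eval (v n) f = 0 :=
    hv.mono fun n g => ⟨g.2, g.1.zero⟩
  have hg : Gen (B.IK (Sm k hH)) (gv U v) :=
    (B.gen_iff (fun h2 => one_ne_zero (h1.symm.trans (congrFun h2 a₁))) fun f hf => by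
      rw [aeval_germ, germ_eq_zero]
      exact hz.mono fun n g => g.2 f hf).2 hY
  choose C hC using fun j : Fin (d + 2) => bd (hH := hH) hv (p.coeff j) _ (ha j)
  refine rel_false (ρ := fun n j => ρ j n) (t := t) (K := ∑ j, C j) hv hY hr hρ' hρ ?_
    (germ_ne_zero.1 (e1 _ ▸ hl))
    (minG_of_irp (relCl_sm hH).2 hz hg hr (.of_forall hρ) hl hirp) ?_ hε ?_ ?_
  · simp only [e1, ← map_pow, ← map_mul, ← map_sum] at h0
    exact (germ_eq_zero.1 h0).mono fun n g => by simpa using g
  · have h5 := (hirp.min hl).sep hρ' hl h0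
    rw [← germ_ne_zero]
    refine fun h6 => h5 (Eq.trans ?_ h6)
    have h7 : ∀ j : ℕ, ((j : Up U k) + 1) = germ U ((j : α → k) + 1) := fun j => by simp
    simp only [e1, h7, ← map_pow, ← map_mul, ← map_sum]
    exact congrArg _ (funext fun n => by simp)
  · filter_upwards [hbad, eventually_all.2 hC] with n g1 g2
    have g3 := (logHeight_le_sum (a n)).trans (Finset.sum_le_sum fun j _ => g2 j)
    have g4 := mul_nonneg hε.le (ht_nonneg (y n))
    have g5 := mul_nonneg (Nat.cast_nonneg (α := ℝ) d) (zero_le_logHeight₁ (t n))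
    rw [Finset.sum_mul]
    linarith
  · filter_upwards [hbad, hq0, e2] with n g1 g2 g3
    simpa only [g3, logHeight_mul_left g2] using g1

end Pool.Agent.Lib.MP_651af7_nt.Nc
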