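import Pool.Agent.Lib.MP_651af7_nt.Nc.Eng
import Pool.Agent.Lib.MP_651af7_nt.Nc.Hj
import Pool.Agent.Lib.MP_651af7_nt.Sl.Core

/-! The subspace inequality for functions on the total space of a cover. -/

namespace Pool.Agent.Lib.MP_651af7_nt.Nc

open MvPolynomial Finset Height NumberField Matrix Filter Av As Bx Ds Fc Tb Real
open IntermediateField (adjoin)
open Rt (Pl av mu)
open Es (vol mn)
open Ex (lx)

variable {k K ι β : Type} [Field k] [Field K] [Algebra k K] [Fintype ι]
  {J : Ideal (MvPolynomial ι k)} {y : ι → K} {𝓕 : Filter β} {v : β → K → k}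

/-- `y` is a generic point of the variety of `J`. -/
structure Pt (J : Ideal (MvPolynomial ι k)) (y : ι → K) : Prop where
  hom : ∀ P ∈ J, ∀ d, homogeneousComponent d P ∈ J
  one : ∃ a, y a = 1
  gen : ∀ (P : MvPolynomial ι k) (d : ℕ), P.IsHomogeneous d → (aeval y P = 0 ↔ P ∈ J)

theorem Pt.gn (D : Pt J y) (h : Sp 𝓕 v) : Gn 𝓕 J fun p a => v p (y a) := by
  obtain ⟨a, ha⟩ := D.one
  refine ⟨h.one.mono fun p hp e => one_ne_zero (hp.symm.trans (ha ▸ congrFun e a)), ?_,
    fun P d h1 h2 => ?_⟩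
  · obtain ⟨s, hs⟩ : J.FG := IsNoetherian.noetherian J
    have h1 : ∀ P ∈ s, ∀ᶠ p in 𝓕, eval (fun a => v p (y a)) P = 0 := fun P hP => by
      have h2 : aeval y P = 0 := by
        rw [← sum_homogeneousComponent P, map_sum]
        exact sum_eq_zero fun d _ => (D.gen _ d (homogeneousComponent_isHomogeneous d P)).2
          (D.hom P (hs ▸ Ideal.subset_span hP) d)
      filter_upwards [h.aeval y P, h.zero] with p h3 h4
      rw [← h3, h2, h4]
    refine ((eventually_all_finset s).2 h1).mono fun p hp => ?_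
    exact hs ▸ (Ideal.span_le (I := RingHom.ker (eval fun a => v p (y a)))).2 hp
  · filter_upwards [h.aeval y P, h.ne (mt (D.gen P d h1).1 h2)] with p h3 h4
    rwa [← h3]

variable [NumberField k]

/-- The subspace inequality holds for the families that are independent over the function field
of the base. -/
structure Dn (J : Ideal (MvPolynomial ι k)) (y : ι → K) : Prop extends Pt J y where
  sb : ∀ (β : Type) (𝓕 : Filter β) (v : β → K → k), Sp 𝓕 v → ∀ (r : ℕ) (t : Fin r → K),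
    LinearIndependent (adjoin k (Set.range y)) t →
      SBB 𝓕 (fun p a => v p (y a)) fun p l => v p (t l)

theorem dn_of (D : Pt J y) {G : Type} [AddCommGroup G] {co : G → ι → AlgebraicClosure k}
    (h1 : Pts (J.map (MvPolynomial.map (algebraMap k (AlgebraicClosure k)))) co) (h2 : SubMor co)
    {e μ : ℕ} {ρ : Fin (e + 2) → MvPolynomial ι k} (hρ : ∀ j, (ρ j).IsHomogeneous μ)
    (hl : ρ (Fin.last _) ∉ J)
    (hG : Irr (J.map (MvPolynomial.map (algebraMap k (AlgebraicClosure k)))) co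
      fun j => MvPolynomial.map (algebraMap k (AlgebraicClosure k)) (ρ j)) {τ : K}
    (hτ : ∑ j, aeval y (ρ j) * τ ^ (j : ℕ) = 0)
    (hc : ∀ z : K, IsAlgebraic (adjoin k (Set.range y)) z →
      z ∈ adjoin (adjoin k (Set.range y)) {τ}) : Dn J y := by
  refine ⟨D, fun β 𝓕 v h r t ht => ?_⟩
  obtain ⟨p, hp, hd⟩ := Sh.exists_lift_rr ρ y
  refine sbb_model (θ := fun b => v b τ) h1 h2 hρ hl hG (D.gn h)
    (D.one.imp fun a ha => h.one.mono fun b hb => (congrArg (v b) ha).trans hb) ?_ (hj h (p := p) (fun e => ?_) hd ?_ hc ht)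
  · filter_upwards [h.zero, h.sum univ fun j : Fin (e + 2) => aeval y (ρ j) * τ ^ (j : ℕ),
      eventually_all.2 fun j : Fin (e + 2) => (h.mul (aeval y (ρ j)) (τ ^ (j : ℕ))).and
        ((h.aeval y (ρ j)).and (h.pow τ j))] with b b1 b2 b3
    rw [hτ, b1] at b2
    rw [b2]
    exact sum_congr rfl fun j _ => by rw [(b3 j).1, (b3 j).2.1, (b3 j).2.2]
  · have h3 := Jn.rr_coeff ρ y (Fin.last _)
    rw [← hp, e, Polynomial.map_zero, Polynomial.coeff_zero] at h3
    exact hl ((D.gen _ _ (hρ _)).1 h3.symm)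
  · rw [Polynomial.aeval_def, ← Polynomial.eval_map, hp, Sh.rr_eval, hτ]

theorem Dn.sub (D : Dn J y) (h : Sp 𝓕 v) {r : ℕ} {t : Fin r → K}
    (ht : LinearIndependent (adjoin k (Set.range y)) t) {E T : Type} [Fintype E] [Fintype T]
    (B : Matrix E (Fin r) (adjoin k (Set.range y))) {f : Fin r → E} (hB : mne B f ≠ 0)
    (G : T → Matrix (Fin r) (Fin r) (adjoin k (Set.range y))) (hG : ∀ τ, (G τ).det ≠ 0) {ε : ℝ}
    (hε : 0 < ε) : ∃ W ∈ 𝓕, ∀ S : Finset (FinitePlace k), ∃ C : ℝ, ∀ p ∈ W, ∀ c : Pl S → T,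
      vol (fun s l => lx (av s) (fun i => v p (∑ m, B i m • t m)) (v p (∑ m, G (c s) l m • t m))) +
        logHeight (mne (B.map fun z => v p z)) ≤ r * logHeight (fun i => v p (∑ m, B i m • t m)) +
          ε * (logHeight (fun a => v p (y a)) + logHeight fun i => v p (∑ m, B i m • t m)) + C := by
  classical
  obtain ⟨e, A, Q, a1, a2, a3, a4⟩ := frac D.one
    (Sum.elim (fun u : T × Fin r × Fin r => G u.1 u.2.1 u.2.2) fun u : E × Fin r => B u.1 u.2)
  let q := Fintype.equivFin E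
  let M : T → Matrix (Fin r) (Fin r) (MvPolynomial ι k) := fun τ => of fun i j => A (.inl (τ, i, j))
  let N : Matrix (Fin (Fintype.card E)) (Fin r) (MvPolynomial ι k) :=
    of fun i j => A (.inr (q.symm i, j))
  obtain ⟨W, hW, h1⟩ := D.sb _ _ _ h _ _ ht _ T e N (q ∘ f) M
    (fun i j => a1 _) (fun τ i j => a1 _) ε hε
  have b0 : ∀ᶠ p in 𝓕, ∀ u, eval (fun a => v p (y a)) (A u) = eval (fun a => v p (y a)) Q *
      v p (Sum.elim (fun u : T × Fin r × Fin r => G u.1 u.2.1 u.2.2)
        (fun u : E × Fin r => B u.1 u.2) u : adjoin k (Set.range y)) :=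
    eventually_all.2 fun u => by
      filter_upwards [h.aeval y (A u), h.aeval y Q, h.mul (aeval y Q) _] with p h2 h3 h4
      rw [← h2, a4, h4, h3]
  have b1 : ∀ {s : Matrix (Fin r) (Fin r) (adjoin k (Set.range y))}, s.det ≠ 0 →
      ∀ᶠ p in 𝓕, (s.map fun z => v p z).det ≠ 0 := fun {s} hs => by
    filter_upwards [sp_det h s, h.ne (a := (s.det : adjoin k (Set.range y)))
      (fun e => hs (Subtype.ext e))] with p h2 h3
    rwa [← h2]
  have b2 : ∀ u : T × Fin r, ∀ᶠ p in 𝓕, v p (∑ m, G u.1 u.2 m • t m) ≠ 0 := fun ⟨τ, l⟩ =>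
    h.ne fun e => hG τ (det_eq_zero_of_row_eq_zero l (Fintype.linearIndependent_iff.1 ht _ e))
  have b3 := (D.gn h).gen Q e a2 (mt (D.gen Q e a2).2 a3)
  refine ⟨_, inter_mem hW ((b0.and b3).and (((b1 hB).and (eventually_all.2 fun τ => b1 (hG τ))).and
    ((eventually_all.2 b2).and ((eventually_all.2 fun i => sp_row h t (B i)).and
      (eventually_all.2 fun u : T × Fin r => sp_row h t (G u.1 u.2)))))), fun S => ?_⟩
  obtain ⟨C, hC⟩ := h1 S
  refine ⟨C, fun p ⟨p1, ⟨p2, p3⟩, ⟨p4, p5⟩, p6, p7, p8⟩ c => ?_⟩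
  have e1 : ∀ τ, (M τ).map (eval fun a => v p (y a)) =
      eval (fun a => v p (y a)) Q • (G τ).map fun z => v p z := fun τ => by
    ext i j
    exact p2 (.inl (τ, i, j))
  have e2 : N.map (eval fun a => v p (y a)) =
      eval (fun a => v p (y a)) Q • (B.map fun z => v p z).submatrix q.symm id := by
    ext i j
    exact p2 (.inr (q.symm i, j))
  have e3 : ((B.map fun z => v p z).submatrix q.symm id *ᵥ fun m => v p (t m)) =
      (fun i => v p (∑ m, B i m • t m)) ∘ q.symm := funext fun i => (p7 _).symm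
  have e4 : ∀ τ l, (((G τ).map fun z => v p z) *ᵥ fun m => v p (t m)) l =
      v p (∑ m, G τ l m • t m) := fun τ l => (p8 (τ, l)).symm
  have e5 : mn ((B.map fun z => v p z).submatrix q.symm id) =
      mne (B.map fun z => v p z) ∘ (Equiv.refl (Fin r)).arrowCongr q.symm := rfl
  have e6 : ∀ (w : AbsoluteValue k ℝ) (Y : E → k) (l : k), lx w (Y ∘ q.symm) l = lx w Y l :=
    fun w Y l => congrArg (fun s => Real.log (s / w l)) (q.symm.iSup_comp (g := fun i => w (Y i)))
  have h2 := hC p p1 c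
  simp only [e1, e2, Matrix.smul_mulVec, Pi.smul_apply, smul_eq_mul, det_smul, Es.mn_smul,
    lx_smul _ p3, logHeight_smul_eq_logHeight _ p3, e3, e4, e5, e6, logHeight_comp_equiv,
    logHeight_smul_eq_logHeight _ (pow_ne_zero r p3)] at h2
  refine h2 (mul_ne_zero (pow_ne_zero _ p3) ?_) (fun s => mul_ne_zero (pow_ne_zero _ p3) (p5 _))
    fun s l => mul_ne_zero p3 (p6 (_, l))
  have e7 : (Equiv.refl (Fin r)).arrowCongr q.symm (q ∘ f) = f := funext fun l => by simp
  rw [Function.comp_apply, e7]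
  exact p4

/-- Faltings' theorem for the functions on the base. -/
theorem Dn.fal (D : Dn J y) (h : Sp 𝓕 v) (z : adjoin k (Set.range y)) :
    Ev 𝓕 (fun p => logHeight fun i => v p (y i)) fun p w E => w (v p z) ≤ exp E := by
  rcases eq_or_ne z 0 with rfl | hz
  · exact (ev_const (fun _ => logHeight_nonneg _) 0).mono (h.zero.mono fun p hp w E _ _ => by
      simp [hp, (exp_pos E).le])
  intro ε hε
  obtain ⟨W, hW, h1⟩ := D.sub h (t := fun _ : Fin 1 => 1)
    (linearIndependent_unique_iff.2 one_ne_zero) (1 : Matrix (Fin 1) (Fin 1) _) (f := id)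
    (by simp [mne]) (fun b : Bool => Matrix.of fun _ _ => if b then z⁻¹ else 1)
    (fun b => by cases b <;> simp [hz]) hε
  refine ⟨_, inter_mem hW (h.one.and (h.inv (z : K))), fun S => (h1 S).imp fun C hC p hp => ?_⟩
  refine ⟨fun s => log⁺ (av s (v p z)), fun s => posLog_nonneg, ?_, fun s E e => ?_⟩
  · have h2 := hC p hp.1 fun s => decide (1 ≤ av s (v p z))
    simp only [vol, univ_unique, sum_singleton, logHeight_eq_zero_of_subsingleton,
      mul_zero, zero_add, add_zero, lx, ciSup_unique, Matrix.of_apply, one_apply_eq, one_smul,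
      hp.2.1, map_one] at h2
    refine le_trans (sum_le_sum fun s _ => mul_le_mul_of_nonneg_left ?_ (Nat.cast_nonneg _)) h2
    by_cases h3 : 1 ≤ av s (v p z)
    · simp [h3, Algebra.smul_def, hp.2.2, posLog_eq_log (abs_eq_self.2 ((av s).nonneg _) ▸ h3 :)]
    · simp [h3, hp.2.1, (posLog_eq_zero_iff _).2 (abs_eq_self.2 ((av s).nonneg _) ▸
        (not_le.1 h3).le :)]
  · refine le_trans ?_ (exp_le_exp.2 e)
    simp only [posLog_eq_log_max_one ((av s).nonneg _)]
    rw [exp_log (by positivity)]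
    exact le_max_right _ _

variable {c : β → AbsoluteValue k ℝ → Prop} {a : K}

theorem Dn.sm_adjoin (D : Dn J y) (h : Sp 𝓕 v) {Z : Set K} (hZ : ∀ z ∈ Z, Fc.Sm 𝓕 v y c 1 z)
    (ha : a ∈ Algebra.adjoin (adjoin k (Set.range y)) Z) : Fc.Sm 𝓕 v y c 1 a := by
  induction ha using Algebra.adjoin_induction with
  | mem x hx => exact hZ x hx
  | algebraMap z => exact (D.fal h z).mono (.of_forall fun p w E _ h1 _ => h1.trans_eq (mul_one _).symm)
  | add x y _ _ hx hy => exact hx.add h hy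
  | mul x y _ _ hx hy => simpa using hx.mul h hy

end Pool.Agent.Lib.MP_651af7_nt.Nc
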